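import Mathlib

/-! Integrality lemmas for roots of unity. -/

open Finset

namespace Pool.Agent.Lib.MP_b1882c_co

/-- roots of unity in `ℂ` -/
def RU (z : ℂ) : Prop := ∃ n : ℕ, 0 < n ∧ z ^ n = 1

namespace RU

variable {a b : ℂ}

lemma one : RU 1 := ⟨1, one_pos, by simp⟩

lemma mul (ha : RU a) (hb : RU b) : RU (a * b) := by
  obtain ⟨n, hn, h⟩ := ha
  obtain ⟨m, hm, h'⟩ := hb
  refine ⟨n * m, Nat.mul_pos hn hm, ?_⟩
  rw [mul_pow, pow_mul, h, mul_comm n m, pow_mul, h']; simp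

lemma inv (ha : RU a) : RU a⁻¹ := by
  obtain ⟨n, hn, h⟩ := ha
  exact ⟨n, hn, by rw [inv_pow, h, inv_one]⟩

lemma div (ha : RU a) (hb : RU b) : RU (a / b) := by
  rw [div_eq_mul_inv]; exact ha.mul hb.inv

lemma pow (ha : RU a) (k : ℕ) : RU (a ^ k) := by
  obtain ⟨n, hn, h⟩ := ha
  exact ⟨n, hn, by rw [← pow_mul, mul_comm, pow_mul, h, one_pow]⟩

lemma of_pow {k : ℕ} (hk : 0 < k) (ha : RU (a ^ k)) : RU a := by
  obtain ⟨n, hn, h⟩ := ha
  exact ⟨k * n, Nat.mul_pos hk hn, by rw [pow_mul, h]⟩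

lemma neg (ha : RU a) : RU (-a) := of_pow two_pos (by rw [neg_sq]; exact ha.pow 2)

lemma norm (ha : RU a) : ‖a‖ = 1 := by
  obtain ⟨n, hn, h⟩ := ha
  exact Complex.norm_eq_one_of_pow_eq_one h hn.ne'

lemma ne_zero (ha : RU a) : a ≠ 0 := by
  intro h
  have := ha.norm
  simp [h] at this

lemma isIntegral (ha : RU a) : IsIntegral ℤ a := by
  obtain ⟨n, hn, h⟩ := ha
  exact IsIntegral.of_pow hn (by rw [h]; exact isIntegral_one)

end RU

lemma add_inv_eq_re {a : ℂ} (ha : ‖a‖ = 1) : a + a⁻¹ = ((2 * a.re : ℝ) : ℂ) := by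
  rw [Complex.inv_eq_conj ha, Complex.add_conj]

lemma not_integral_half : ¬ IsIntegral ℤ (1 / 2 : ℂ) := by
  intro h
  have h1 : (1 / 2 : ℂ) = algebraMap ℚ ℂ (1 / 2) := by simp
  rw [h1, isIntegral_algebraMap_iff (algebraMap ℚ ℂ).injective,
    IsIntegrallyClosed.isIntegral_iff] at h
  obtain ⟨y, hy⟩ := h
  have h2 : (2 * y : ℚ) = 1 := by
    simp only [eq_intCast] at hy
    rw [hy]; norm_num
  have h3 : 2 * y = 1 := by exact_mod_cast h2
  omega

open IntermediateField in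
lemma half {B : ℂ} (hB : RU B) (h : IsIntegral ℤ ((1 - B) / 2)) : B = 1 ∨ B = -1 := by
  by_contra hne
  push Not at hne
  have hint : IsIntegral ℚ B := hB.isIntegral.tower_top
  have : FiniteDimensional ℚ ℚ⟮B⟯ := adjoin.finiteDimensional hint
  have : NumberField ℚ⟮B⟯ := {}
  set b : ℚ⟮B⟯ := ⟨B, mem_adjoin_simple_self ℚ B⟩ with hb
  set β : ℚ⟮B⟯ := (1 - b) / 2 with hβ
  have hβ' : (β : ℂ) = (1 - B) / 2 := by
    rw [hβ]; push_cast; rfl
  have h0 : β ≠ 0 := by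
    intro h0
    rw [h0] at hβ'
    apply hne.1
    have : (1 - B) / 2 = 0 := by rw [← hβ']; rfl
    linear_combination (-2) * this
  have hi : IsIntegral ℤ β := by
    rw [← isIntegral_algebraMap_iff (algebraMap ℚ⟮B⟯ ℂ).injective]
    change IsIntegral ℤ (β : ℂ)
    rwa [hβ']
  obtain ⟨n, hn, hn'⟩ := hB
  have hbn : b ^ n = 1 := Subtype.ext (by simpa using hn')
  obtain ⟨m, hm, hm'⟩ := NumberField.Embeddings.pow_eq_one_of_norm_le_one ℚ⟮B⟯ ℂ h0 hi (by
    intro φ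
    have h1 : ‖φ b‖ = 1 := Complex.norm_eq_one_of_pow_eq_one (by rw [← map_pow, hbn, map_one]) hn.ne'
    rw [hβ, map_div₀, map_sub, map_one, map_ofNat, norm_div]
    have h2 := norm_sub_le (1 : ℂ) (φ b)
    rw [h1, norm_one] at h2
    simp only [Complex.norm_ofNat]
    linarith)
  have h3 : ((1 - B) / 2) ^ m = 1 := by
    rw [← hβ']; exact_mod_cast congrArg Subtype.val hm'
  have h4 := Complex.norm_eq_one_of_pow_eq_one h3 hm.ne'
  have h5 := Complex.norm_eq_one_of_pow_eq_one hn' hn.ne'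
  rw [norm_div, Complex.norm_ofNat, div_eq_one_iff_eq two_ne_zero] at h4
  have h6 : Complex.normSq (1 - B) = 4 := by rw [Complex.normSq_eq_norm_sq, h4]; norm_num
  have h7 : Complex.normSq B = 1 := by rw [Complex.normSq_eq_norm_sq, h5]; norm_num
  simp only [Complex.normSq_apply, Complex.sub_re, Complex.one_re, Complex.sub_im, Complex.one_im]
    at h6 h7
  apply hne.2
  have h8 : B.re = -1 := by nlinarith
  have h9 : B.im = 0 := by nlinarith
  exact Complex.ext (by simpa using h8) (by simpa using h9)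

lemma integral_geom {A : ℂ} (hA : IsIntegral ℤ A) (j : ℕ) :
    IsIntegral ℤ (∑ i ∈ range j, A ^ i) :=
  IsIntegral.sum _ fun i _ => hA.pow i

lemma two_pow_cases (s : ℕ) : ∀ A : ℂ, A ^ 2 ^ s = 1 → A ≠ 1 →
    A = -1 ∨ A ^ 2 = -1 ∨ ∃ j, (A ^ j) ^ 4 = -1 := by
  induction s with
  | zero => intro A h h1; exact absurd (by simpa using h) h1
  | succ s ih =>
    intro A h h1
    by_cases h2 : A ^ 2 = 1
    · exact Or.inl ((sq_eq_one_iff.1 h2).resolve_left h1)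
    · have h3 : (A ^ 2) ^ 2 ^ s = 1 := by rw [← pow_mul, ← pow_succ', h]
      rcases ih _ h3 h2 with h4 | h4 | ⟨j, h4⟩
      · exact Or.inr (Or.inl h4)
      · exact Or.inr (Or.inr ⟨1, by rw [← h4]; ring⟩)
      · exact Or.inr (Or.inr ⟨2 * j, by rw [pow_mul, h4]⟩)

lemma two_pow_of_half {A B : ℂ} (hA : RU A) (hB : RU B) (hB1 : B ≠ 1) (hB2 : B ≠ -1)
    (h : IsIntegral ℤ ((1 - A) * (1 - B) / 2)) : ∃ s : ℕ, A ^ 2 ^ s = 1 := by
  obtain ⟨n, hn, hn'⟩ := id hA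
  obtain ⟨s, m, hm, rfl⟩ := Nat.exists_eq_two_pow_mul_odd hn.ne'
  refine ⟨s, ?_⟩
  by_contra hne
  set A' := A ^ 2 ^ s with hA'
  have h1 : A' ^ m = 1 := by rw [hA', ← pow_mul, hn']
  have h2 : ∑ i ∈ range m, A' ^ i = 0 := by rw [geom_sum_eq hne, h1]; simp
  have h3 : (m : ℂ) = (1 - A) * ∑ i ∈ range m, ∑ l ∈ range (2 ^ s * i), A ^ l := by
    rw [mul_sum]
    have : ∀ i ∈ range m, (1 - A) * ∑ l ∈ range (2 ^ s * i), A ^ l = 1 - A' ^ i := by
      intro i _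
      rw [mul_neg_geom_sum, pow_mul]
    rw [sum_congr rfl this, sum_sub_distrib, h2]; simp
  have h4 : IsIntegral ℤ (∑ i ∈ range m, ∑ l ∈ range (2 ^ s * i), A ^ l) :=
    IsIntegral.sum _ fun i _ => integral_geom hA.isIntegral _
  obtain ⟨r, hr⟩ := hm
  have h5 : (1 - B) / 2 = (1 - A) * (1 - B) / 2 * (∑ i ∈ range m, ∑ l ∈ range (2 ^ s * i), A ^ l)
      - (r : ℂ) * (1 - B) := by
    have h6 : (m : ℂ) = 2 * r + 1 := by rw [hr]; push_cast; ring
    linear_combination (-(1 - B) / 2) * h6 + ((1 - B) / 2) * h3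
  have h7 : IsIntegral ℤ ((1 - B) / 2) := by
    rw [h5]
    exact (h.mul h4).sub ((isIntegral_natCast r).mul (isIntegral_one.sub hB.isIntegral))
  rcases half hB h7 with h8 | h8
  · exact hB1 h8
  · exact hB2 h8

lemma sq_eq_neg_one_of_half {A B : ℂ} (hA : RU A) (hB : RU B) (hA1 : A ≠ 1) (hA2 : A ≠ -1)
    (hB1 : B ≠ 1) (hB2 : B ≠ -1) (h : IsIntegral ℤ ((1 - A) * (1 - B) / 2)) : A ^ 2 = -1 := by
  obtain ⟨s, hs⟩ := two_pow_of_half hA hB hB1 hB2 h
  obtain ⟨t, ht⟩ := two_pow_of_half hB hA hA1 hA2 (by rwa [mul_comm])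
  have hB' : ∃ j, (B ^ j) ^ 2 = -1 := by
    rcases two_pow_cases t B ht hB1 with h1 | h1 | ⟨j, h1⟩
    · exact absurd h1 hB2
    · exact ⟨1, by simpa using h1⟩
    · exact ⟨j * 2, by rw [← h1]; ring⟩
  obtain ⟨l, hl⟩ := hB'
  rcases two_pow_cases s A hs hA1 with h1 | h1 | ⟨j, hj⟩
  · exact absurd h1 hA2
  · exact h1
  exfalso
  have e1 := mul_neg_geom_sum A j
  have e2 := mul_neg_geom_sum B l
  have h2 : IsIntegral ℤ ((1 - A ^ j) * (1 - B ^ l) / 2) := by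
    have : (1 - A ^ j) * (1 - B ^ l) / 2 = (1 - A) * (1 - B) / 2 * (∑ i ∈ range j, A ^ i) *
        (∑ i ∈ range l, B ^ i) := by rw [← e1, ← e2]; ring
    rw [this]
    exact (h.mul (integral_geom hA.isIntegral _)).mul (integral_geom hB.isIntegral _)
  have hA' := (hA.pow j).isIntegral
  have hB' := (hB.pow l).isIntegral
  generalize A ^ j = a at *
  generalize B ^ l = b at *
  have h3 : IsIntegral ℤ ((((1 - a) * (1 - b) / 2) ^ 2 * a ^ 3 * b - 1) ^ 2) :=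
    ((((h2.pow 2).mul (hA'.pow 3)).mul hB').sub isIntegral_one).pow 2
  have h4 : ((1 - a) * (1 - b) / 2) ^ 2 * a ^ 3 * b - 1 = (a ^ 3 - a) / 2 := by
    linear_combination ((1 - a) ^ 2 * a ^ 3 * (b - 2) / 4) * hl + ((a - 2) / 2) * hj
  have h5 : ((a ^ 3 - a) / 2) ^ 2 = 1 / 2 := by
    linear_combination ((a ^ 2 - 2) / 4) * hj
  rw [h4, h5] at h3
  exact not_integral_half h3

/-- `cos a * cos b = cos c` forces `cos a ^ 2 = 1 / 2`. -/
lemma cos_mul_cos {a b c : ℂ} (ha : RU a) (hb : RU b) (hc : RU c) (ha0 : 0 < a.re) (ha1 : a.re < 1)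
    (hb0 : 0 < b.re) (hb1 : b.re < 1) (h : a.re * b.re = c.re) : a.re ^ 2 = 1 / 2 := by
  have ea := add_inv_eq_re ha.norm
  have eb := add_inv_eq_re hb.norm
  have ec := add_inv_eq_re hc.norm
  have a0 := ha.ne_zero
  have b0 := hb.ne_zero
  have key : ∀ x : ℂ, RU x → 0 < x.re → x.re < 1 → -x ^ 2 ≠ 1 ∧ -x ^ 2 ≠ -1 := by
    intro x hx h0 h1
    have hn : x.re ^ 2 + x.im ^ 2 = 1 := by
      have := Complex.sq_norm x
      rw [hx.norm, Complex.normSq_apply] at this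
      nlinarith
    constructor
    · intro h2
      have := congrArg Complex.re h2
      simp [sq] at this
      nlinarith
    · intro h2
      have := congrArg Complex.re h2
      simp [sq] at this
      nlinarith
  have hy : (a + a⁻¹) * (b + b⁻¹) = 2 * (c + c⁻¹) := by
    rw [ea, eb, ec, ← h]; push_cast; ring
  have h1 : (1 - -a ^ 2) * (1 - -b ^ 2) / 2 = a * b * (c + c⁻¹) := by
    have : (1 - -a ^ 2) * (1 - -b ^ 2) = a * b * ((a + a⁻¹) * (b + b⁻¹)) := by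
      field_simp; ring
    rw [this, hy]; ring
  have h2 := sq_eq_neg_one_of_half (ha.pow 2).neg (hb.pow 2).neg (key a ha ha0 ha1).1
    (key a ha ha0 ha1).2 (key b hb hb0 hb1).1 (key b hb hb0 hb1).2
    (by rw [h1]; exact (ha.isIntegral.mul hb.isIntegral).mul (hc.isIntegral.add hc.inv.isIntegral))
  have h3 : (a + a⁻¹) ^ 2 = 2 := by
    field_simp
    linear_combination h2
  rw [ea] at h3
  have h4 : (2 * a.re) ^ 2 = 2 := by exact_mod_cast h3
  linarith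

end Pool.Agent.Lib.MP_b1882c_co
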