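import Mathlib
import Pool.Agent.Lib.MP_b1882c_co.Integral

/-! Kronecker's theorem in the maximal cyclotomic field and the free-angle lemma. -/

open Finset IntermediateField
open scoped ComplexConjugate

namespace Pool.Agent.Lib.MP_b1882c_co

/-- The field generated by all roots of unity. -/
noncomputable def KK : IntermediateField ℚ ℂ := adjoin ℚ {z : ℂ | RU z}

lemma RU.mem_KK {z : ℂ} (h : RU z) : z ∈ KK := subset_adjoin ℚ _ h

lemma RU.re_mem_KK {z : ℂ} (h : RU z) : ((z.re : ℝ) : ℂ) ∈ KK := by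
  have h1 : ((z.re : ℝ) : ℂ) = (z + z⁻¹) / 2 := by
    rw [add_inv_eq_re h.norm]; push_cast; ring
  rw [h1]
  exact div_mem (add_mem h.mem_KK h.inv.mem_KK) (by exact_mod_cast IntermediateField.natCast_mem KK 2)

lemma kron {Z : ℂ} (hZ : Z ∈ KK) (h1 : ‖Z‖ = 1) (hi : IsIntegral ℤ Z) : RU Z := by
  obtain ⟨T, hT, hZT⟩ := exists_finset_of_mem_adjoin hZ
  have : FiniteDimensional ℚ (adjoin ℚ (T : Set ℂ)) :=
    finiteDimensional_adjoin fun x hx => (RU.isIntegral (hT hx)).tower_top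
  have : NumberField (adjoin ℚ (T : Set ℂ)) := {}
  have hi' : IsIntegral ℤ (⟨Z, hZT⟩ : adjoin ℚ (T : Set ℂ)) := by
    rw [← isIntegral_algebraMap_iff (algebraMap (adjoin ℚ (T : Set ℂ)) ℂ).injective]
    exact hi
  obtain ⟨n, hn, hn'⟩ := NumberField.Embeddings.pow_eq_one_of_norm_eq_one
    (adjoin ℚ (T : Set ℂ)) ℂ hi' (by
    intro φ
    have key : ∀ (x : ℂ) (hx : x ∈ adjoin ℚ (T : Set ℂ)),
        ∃ h : conj x ∈ adjoin ℚ (T : Set ℂ), φ ⟨conj x, h⟩ = conj (φ ⟨x, hx⟩) := by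
      intro x hx
      induction hx using adjoin_induction with
      | mem x hx =>
        have hr : RU x := hT hx
        have e : conj x = x⁻¹ := (Complex.inv_eq_conj hr.norm).symm
        have hx' : x ∈ adjoin ℚ (T : Set ℂ) := subset_adjoin ℚ _ hx
        refine ⟨e ▸ inv_mem hx', ?_⟩
        obtain ⟨m, hm, hm'⟩ := hr
        have h2 : (⟨x, hx'⟩ : adjoin ℚ (T : Set ℂ)) ^ m = 1 := Subtype.ext (by simpa using hm')
        have h3 : ‖φ ⟨x, hx'⟩‖ = 1 :=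
          Complex.norm_eq_one_of_pow_eq_one (by rw [← map_pow, h2, map_one]) hm.ne'
        rw [← Complex.inv_eq_conj h3, ← map_inv₀]
        congr 1
        exact Subtype.ext e
      | algebraMap q =>
        have e : conj (algebraMap ℚ ℂ q) = algebraMap ℚ ℂ q := by simp
        refine ⟨e.symm ▸ IntermediateField.algebraMap_mem _ q, ?_⟩
        have h2 : ∀ h, (⟨algebraMap ℚ ℂ q, h⟩ : adjoin ℚ (T : Set ℂ)) = (q : adjoin ℚ (T : Set ℂ)) :=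
          fun h => Subtype.ext (by simp)
        have h3 : ∀ h, (⟨conj (algebraMap ℚ ℂ q), h⟩ : adjoin ℚ (T : Set ℂ)) =
            (q : adjoin ℚ (T : Set ℂ)) := fun h => Subtype.ext (by simp)
        rw [h2, h3]; simp
      | add x y hx hy ihx ihy =>
        obtain ⟨h1, h2⟩ := ihx
        obtain ⟨h3, h4⟩ := ihy
        refine ⟨by rw [map_add]; exact add_mem h1 h3, ?_⟩
        have e1 : ∀ h, (⟨conj (x + y), h⟩ : adjoin ℚ (T : Set ℂ)) = ⟨conj x, h1⟩ + ⟨conj y, h3⟩ :=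
          fun h => Subtype.ext (by simp)
        have e2 : ∀ h, (⟨x + y, h⟩ : adjoin ℚ (T : Set ℂ)) = ⟨x, hx⟩ + ⟨y, hy⟩ := fun h => rfl
        rw [e1, e2, map_add, map_add, map_add, h2, h4]
      | inv x hx ihx =>
        obtain ⟨h1, h2⟩ := ihx
        refine ⟨by rw [map_inv₀]; exact inv_mem h1, ?_⟩
        have e1 : ∀ h, (⟨conj x⁻¹, h⟩ : adjoin ℚ (T : Set ℂ)) = (⟨conj x, h1⟩)⁻¹ :=
          fun h => Subtype.ext (by simp)
        have e2 : ∀ h, (⟨x⁻¹, h⟩ : adjoin ℚ (T : Set ℂ)) = (⟨x, hx⟩)⁻¹ := fun h => rfl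
        rw [e1, e2, map_inv₀, map_inv₀, map_inv₀, h2]
      | mul x y hx hy ihx ihy =>
        obtain ⟨h1, h2⟩ := ihx
        obtain ⟨h3, h4⟩ := ihy
        refine ⟨by rw [map_mul]; exact mul_mem h1 h3, ?_⟩
        have e1 : ∀ h, (⟨conj (x * y), h⟩ : adjoin ℚ (T : Set ℂ)) = ⟨conj x, h1⟩ * ⟨conj y, h3⟩ :=
          fun h => Subtype.ext (by simp)
        have e2 : ∀ h, (⟨x * y, h⟩ : adjoin ℚ (T : Set ℂ)) = ⟨x, hx⟩ * ⟨y, hy⟩ := fun h => rfl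
        rw [e1, e2, map_mul, map_mul, map_mul, h2, h4]
    obtain ⟨h2, h3⟩ := key Z hZT
    have h4 : (⟨Z, hZT⟩ : adjoin ℚ (T : Set ℂ)) * ⟨conj Z, h2⟩ = 1 := by
      apply Subtype.ext
      change Z * conj Z = 1
      rw [Complex.mul_conj, Complex.normSq_eq_norm_sq, h1]; simp
    have h5 := congrArg φ h4
    rw [map_mul, h3, map_one, Complex.mul_conj, Complex.normSq_eq_norm_sq] at h5
    have h6 : ‖φ ⟨Z, hZT⟩‖ ^ 2 = 1 := by exact_mod_cast h5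
    exact (pow_eq_one_iff_of_nonneg (norm_nonneg _) two_ne_zero).1 h6)
  exact ⟨n, hn, by simpa using congrArg Subtype.val hn'⟩

/-- The free angle is rational. -/
lemma free_angle {z ζ₁ ζ₂ ζ₃ : ℂ} (hz : ‖z‖ = 1) (h₁ : RU ζ₁) (h₂ : RU ζ₂) (h₃ : RU ζ₃)
    {β γ : ℝ} (hβ : 0 < β) (hγ : 0 < γ) (hne : β ≠ γ) (hβK : (β : ℂ) ∈ KK) (hγK : (γ : ℂ) ∈ KK)
    (e : (z * ζ₂).re * β = (z * ζ₃).re * γ)
    (hint : IsIntegral ℤ ((4 * (z * ζ₁).re * (z * ζ₂).re : ℝ) : ℂ)) : RU z := by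
  have z0 : z ≠ 0 := by rintro rfl; simp at hz
  have n1 := h₁.ne_zero
  have n2 := h₂.ne_zero
  have n3 := h₃.ne_zero
  have e1 := add_inv_eq_re (a := z * ζ₁) (by rw [norm_mul, hz, h₁.norm, one_mul])
  have e2 := add_inv_eq_re (a := z * ζ₂) (by rw [norm_mul, hz, h₂.norm, one_mul])
  have e3 := add_inv_eq_re (a := z * ζ₃) (by rw [norm_mul, hz, h₃.norm, one_mul])
  have hd : ζ₂ * β - ζ₃ * γ ≠ 0 := by
    intro h
    have h4 := congrArg (fun w => ‖w‖) (sub_eq_zero.1 h)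
    simp only [norm_mul, h₂.norm, h₃.norm, one_mul, Complex.norm_real, Real.norm_eq_abs,
      abs_of_pos hβ, abs_of_pos hγ] at h4
    exact hne h4
  have e4 : (z * ζ₂ + (z * ζ₂)⁻¹) * β = (z * ζ₃ + (z * ζ₃)⁻¹) * γ := by
    rw [e2, e3]
    have : (2 * (z * ζ₂).re) * β = (2 * (z * ζ₃).re) * γ := by linear_combination 2 * e
    exact_mod_cast this
  have e5 : z ^ 2 = (ζ₃⁻¹ * γ - ζ₂⁻¹ * β) / (ζ₂ * β - ζ₃ * γ) := by
    rw [eq_div_iff hd]
    field_simp at e4 ⊢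
    linear_combination e4
  have hK : z ^ 2 * ζ₁ * ζ₂ ∈ KK := by
    rw [e5]
    exact mul_mem (mul_mem (div_mem (sub_mem (mul_mem h₃.inv.mem_KK hγK) (mul_mem h₂.inv.mem_KK hβK))
      (sub_mem (mul_mem h₂.mem_KK hβK) (mul_mem h₃.mem_KK hγK))) h₁.mem_KK) h₂.mem_KK
  have e6 : ((4 * (z * ζ₁).re * (z * ζ₂).re : ℝ) : ℂ) =
      (z * ζ₁ + (z * ζ₁)⁻¹) * (z * ζ₂ + (z * ζ₂)⁻¹) := by
    rw [e1, e2]; push_cast; ring
  set Z := z ^ 2 * ζ₁ * ζ₂ with hZ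
  set t := ((4 * (z * ζ₁).re * (z * ζ₂).re : ℝ) : ℂ) - ζ₁ * ζ₂⁻¹ - ζ₂ * ζ₁⁻¹ with ht
  have htI : IsIntegral ℤ t :=
    (hint.sub (h₁.mul h₂.inv).isIntegral).sub (h₂.mul h₁.inv).isIntegral
  have e7 : Z ^ 2 - t * Z + 1 = 0 := by
    rw [ht, e6, hZ]; field_simp; ring
  have hZI : IsIntegral ℤ Z := by
    let A := integralClosure ℤ ℂ
    have : IsIntegral A Z := by
      refine ⟨Polynomial.X ^ 2 - Polynomial.C (⟨t, htI⟩ : A) * Polynomial.X + 1, ?_, ?_⟩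
      · monicity!
      · simpa using e7
    exact isIntegral_trans Z this
  have hZn : ‖Z‖ = 1 := by simp [hZ, hz, h₁.norm, h₂.norm]
  have hR := kron hK hZn hZI
  have : z ^ 2 = Z * ζ₁⁻¹ * ζ₂⁻¹ := by rw [hZ]; field_simp
  exact RU.of_pow two_pos (this ▸ (hR.mul h₁.inv).mul h₂.inv)

end Pool.Agent.Lib.MP_b1882c_co
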