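import Mathlib

/-! Four unit complex numbers whose class sums vanish. -/

namespace Pool.Agent.Lib.MP_b1882c_co

lemma units3 {u v w : ℂ} (hu : ‖u‖ = 1) (hv : ‖v‖ = 1) (hw : ‖w‖ = 1) (h : u + v + w = 0) :
    u / v + v / u = -1 := by
  have u0 : u ≠ 0 := by rintro rfl; simp at hu
  have v0 : v ≠ 0 := by rintro rfl; simp at hv
  have w0 : w ≠ 0 := by rintro rfl; simp at hw
  have h1 : u⁻¹ + v⁻¹ + w⁻¹ = 0 := by
    rw [Complex.inv_eq_conj hu, Complex.inv_eq_conj hv, Complex.inv_eq_conj hw, ← map_add,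
      ← map_add, h, map_zero]
  have h2 : w = -(u + v) := by linear_combination h
  field_simp at h1 ⊢
  rw [h2] at h1
  linear_combination -h1

lemma units4' {u v w t : ℂ} (hu : ‖u‖ = 1) (hv : ‖v‖ = 1) (hw : ‖w‖ = 1) (ht : ‖t‖ = 1)
    (h : u + v + w + t = 0) : u + v = 0 ∨ u + w = 0 ∨ u + t = 0 := by
  have u0 : u ≠ 0 := by rintro rfl; simp at hu
  have v0 : v ≠ 0 := by rintro rfl; simp at hv
  have w0 : w ≠ 0 := by rintro rfl; simp at hw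
  have t0 : t ≠ 0 := by rintro rfl; simp at ht
  have h1 : u⁻¹ + v⁻¹ + w⁻¹ + t⁻¹ = 0 := by
    rw [Complex.inv_eq_conj hu, Complex.inv_eq_conj hv, Complex.inv_eq_conj hw,
      Complex.inv_eq_conj ht, ← map_add, ← map_add, ← map_add, h, map_zero]
  field_simp at h1
  have h2 : (u + v) * (u + w) * (u + t) = 0 := by
    linear_combination u ^ 2 * h + h1
  rcases mul_eq_zero.1 h2 with h3 | h3
  · rcases mul_eq_zero.1 h3 with h4 | h4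
    · exact Or.inl h4
    · exact Or.inr (Or.inl h4)
  · exact Or.inr (Or.inr h3)

lemma units4 {u v w t : ℂ} (hu : u = 0 ∨ ‖u‖ = 1) (hv : v = 0 ∨ ‖v‖ = 1) (hw : w = 0 ∨ ‖w‖ = 1)
    (ht : t = 0 ∨ ‖t‖ = 1) (h : u + v + w + t = 0)
    (n1 : u ≠ 0 → v ≠ 0 → u + v ≠ 0) (n2 : u ≠ 0 → w ≠ 0 → u + w ≠ 0)
    (n3 : u ≠ 0 → t ≠ 0 → u + t ≠ 0) (n4 : v ≠ 0 → w ≠ 0 → v + w ≠ 0)
    (n5 : v ≠ 0 → t ≠ 0 → v + t ≠ 0) (n6 : w ≠ 0 → t ≠ 0 → w + t ≠ 0) :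
    (u = 0 ∧ v = 0 ∧ w = 0 ∧ t = 0) ∨
    (u ≠ 0 ∧ v ≠ 0 ∧ u / v + v / u = -1 ∧ ((w ≠ 0 ∧ t = 0) ∨ (w = 0 ∧ t ≠ 0))) ∨
    (w ≠ 0 ∧ t ≠ 0 ∧ w / t + t / w = -1 ∧ ((u ≠ 0 ∧ v = 0) ∨ (u = 0 ∧ v ≠ 0))) := by
  have nz : ∀ x : ℂ, ‖x‖ = 1 → x ≠ 0 := by rintro x hx rfl; simp at hx
  rcases hu with rfl | hu <;> rcases hv with rfl | hv <;> rcases hw with rfl | hw <;>
    rcases ht with rfl | ht
  · simp
  · exact absurd (by simpa using h) (nz _ ht)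
  · exact absurd (by simpa using h) (nz _ hw)
  · exact absurd (by simpa using h) (n6 (nz _ hw) (nz _ ht))
  · exact absurd (by simpa using h) (nz _ hv)
  · exact absurd (by simpa using h) (n5 (nz _ hv) (nz _ ht))
  · exact absurd (by simpa using h) (n4 (nz _ hv) (nz _ hw))
  · exact Or.inr (Or.inr ⟨nz _ hw, nz _ ht, units3 hw ht hv (by linear_combination h),
      Or.inr ⟨rfl, nz _ hv⟩⟩)
  · exact absurd (by simpa using h) (nz _ hu)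
  · exact absurd (by simpa using h) (n3 (nz _ hu) (nz _ ht))
  · exact absurd (by simpa using h) (n2 (nz _ hu) (nz _ hw))
  · exact Or.inr (Or.inr ⟨nz _ hw, nz _ ht, units3 hw ht hu (by linear_combination h),
      Or.inl ⟨nz _ hu, rfl⟩⟩)
  · exact absurd (by simpa using h) (n1 (nz _ hu) (nz _ hv))
  · exact Or.inr (Or.inl ⟨nz _ hu, nz _ hv, units3 hu hv ht (by linear_combination h),
      Or.inr ⟨rfl, nz _ ht⟩⟩)
  · exact Or.inr (Or.inl ⟨nz _ hu, nz _ hv, units3 hu hv hw (by linear_combination h),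
      Or.inl ⟨nz _ hw, rfl⟩⟩)
  · rcases units4' hu hv hw ht h with h1 | h1 | h1
    · exact absurd h1 (n1 (nz _ hu) (nz _ hv))
    · exact absurd h1 (n2 (nz _ hu) (nz _ hw))
    · exact absurd h1 (n3 (nz _ hu) (nz _ ht))

open scoped Classical in
/-- contribution of the pair of terms `T`, `T⁻¹` of classes `c`, `c⁻¹` to the class `ρ` -/
noncomputable def part (c T ρ : ℂ) : ℂ := (if c = ρ then T else 0) + (if c⁻¹ = ρ then T⁻¹ else 0)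

lemma part_spec (c T ρ : ℂ) (hρ : ρ⁻¹ ≠ ρ) :
    (part c T ρ = 0 ∧ c ≠ ρ ∧ c⁻¹ ≠ ρ) ∨ (part c T ρ = T ∧ c = ρ) ∨ (part c T ρ = T⁻¹ ∧ c⁻¹ = ρ) := by
  unfold part
  by_cases h1 : c = ρ
  · subst h1; simp [hρ]
  · by_cases h2 : c⁻¹ = ρ
    · simp [h1, h2]
    · simp [h1, h2]

/-- no cancellation between the pairs of `a` and of `b` -/
def NC (a b : ℂ) : Prop := a + b ≠ 0 ∧ a + b⁻¹ ≠ 0

lemma NC.part {a b α β ρ : ℂ} (h : NC a b) (ha : ‖a‖ = 1) (hb : ‖b‖ = 1) (hρ : ρ⁻¹ ≠ ρ) :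
    part α a ρ ≠ 0 → part β b ρ ≠ 0 → part α a ρ + part β b ρ ≠ 0 := by
  intro h1 h2
  have a0 : a ≠ 0 := by rintro rfl; simp at ha
  have b0 : b ≠ 0 := by rintro rfl; simp at hb
  rcases part_spec α a ρ hρ with ⟨e, -⟩ | ⟨e, -⟩ | ⟨e, -⟩ <;>
    rcases part_spec β b ρ hρ with ⟨e', -⟩ | ⟨e', -⟩ | ⟨e', -⟩ <;>
    first
    | exact absurd e h1
    | exact absurd e' h2
    | skip
  · rw [e, e']; exact h.1
  · rw [e, e']; exact h.2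
  · rw [e, e']
    intro h3
    apply h.2
    field_simp at h3 ⊢
    linear_combination h3
  · rw [e, e']
    intro h3
    apply h.1
    field_simp at h3
    linear_combination h3

lemma part_unit {c T ρ : ℂ} (hT : ‖T‖ = 1) (hρ : ρ⁻¹ ≠ ρ) :
    part c T ρ = 0 ∨ ‖part c T ρ‖ = 1 := by
  rcases part_spec c T ρ hρ with ⟨e, -⟩ | ⟨e, -⟩ | ⟨e, -⟩
  · exact Or.inl e
  · exact Or.inr (by rw [e, hT])
  · exact Or.inr (by rw [e, norm_inv, hT, inv_one])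

lemma part_ne {c T ρ : ℂ} (hρ : ρ⁻¹ ≠ ρ) (h : part c T ρ ≠ 0) : c = ρ ∨ c⁻¹ = ρ := by
  rcases part_spec c T ρ hρ with ⟨e, -⟩ | ⟨-, e⟩ | ⟨-, e⟩
  · exact absurd e h
  · exact Or.inl e
  · exact Or.inr e

lemma part_eq {c T ρ : ℂ} (hT : ‖T‖ = 1) (hρ : ρ⁻¹ ≠ ρ) (h : part c T ρ = 0) :
    c ≠ ρ ∧ c⁻¹ ≠ ρ := by
  have T0 : T ≠ 0 := by rintro rfl; simp at hT
  rcases part_spec c T ρ hρ with ⟨-, e⟩ | ⟨e, -⟩ | ⟨e, -⟩
  · exact e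
  · exact absurd (e.symm.trans h) T0
  · exact absurd (e.symm.trans h) (inv_ne_zero T0)

/-- the two terms have the same nontrivial class and differ by a primitive cube root of unity -/
def Cub (a b α β : ℂ) : Prop :=
  α ≠ 1 ∧ ((α = β ∧ a / b + b / a = -1) ∨ (α = β⁻¹ ∧ a * b + (a * b)⁻¹ = -1))

lemma cub_of {a b α β ρ : ℂ} (hρ : ρ⁻¹ ≠ ρ) (h1 : part α a ρ ≠ 0) (h2 : part β b ρ ≠ 0)
    (h : part α a ρ / part β b ρ + part β b ρ / part α a ρ = -1) : Cub a b α β := by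
  have hρ1 : ρ ≠ 1 := by rintro rfl; simp at hρ
  rcases part_spec α a ρ hρ with ⟨e, -⟩ | ⟨e, f⟩ | ⟨e, f⟩ <;>
    rcases part_spec β b ρ hρ with ⟨e', -⟩ | ⟨e', f'⟩ | ⟨e', f'⟩ <;>
    first
    | exact absurd e h1
    | exact absurd e' h2
    | skip
  all_goals rw [e, e'] at h
  · exact ⟨f ▸ hρ1, Or.inl ⟨f.trans f'.symm, h⟩⟩
  · refine ⟨f ▸ hρ1, Or.inr ⟨f.trans f'.symm, ?_⟩⟩
    rw [← h, mul_inv]; simp only [div_eq_mul_inv, inv_inv]; ring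
  · refine ⟨fun h3 => hρ1 (by rw [← f, h3, inv_one]), Or.inr ⟨?_, ?_⟩⟩
    · rw [f', ← f, inv_inv]
    · rw [← h, mul_inv]; simp only [div_eq_mul_inv, inv_inv]; ring
  · refine ⟨fun h3 => hρ1 (by rw [← f, h3, inv_one]), Or.inl ⟨inv_injective (f.trans f'.symm), ?_⟩⟩
    rw [← h]; simp only [div_eq_mul_inv, inv_inv]; ring

lemma part_one_of_ne {c T : ℂ} (h : c ≠ 1) : part c T 1 = 0 := by
  simp [part, h]

lemma part_one (T : ℂ) : part 1 T 1 = T + T⁻¹ := by simp [part]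

lemma part_self_ne {c T : ℂ} (hT : ‖T‖ = 1) (hc : c⁻¹ ≠ c) : part c T c ≠ 0 :=
  fun h => (part_eq hT hc h).1 rfl

/-- the odd man out has trivial class -/
lemma out_one {a b c d α β γ δ ρ : ℂ} (hd : ‖d‖ = 1) (hδ : δ ≠ 1 → δ⁻¹ ≠ δ) (hρ : ρ⁻¹ ≠ ρ)
    (H : ∀ ρ, part α a ρ + part β b ρ + part γ c ρ + part δ d ρ = 0)
    (h1 : part α a ρ ≠ 0) (h2 : part β b ρ ≠ 0) (h3 : part γ c ρ ≠ 0) (h4 : part δ d ρ = 0) :
    δ = 1 ∧ d + d⁻¹ = 0 ∧ γ ≠ 1 := by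
  have hρ1 : ρ ≠ 1 := by rintro rfl; simp at hρ
  obtain ⟨k1, k2⟩ := part_eq hd hρ h4
  have key : ∀ x T : ℂ, part x T ρ ≠ 0 → x ≠ 1 ∧ part x T δ = 0 := by
    intro x T hx
    rcases part_ne hρ hx with rfl | rfl
    · refine ⟨hρ1, ?_⟩
      have : x⁻¹ ≠ δ := fun h => k2 (by rw [← h, inv_inv])
      simp [part, k1.symm, this]
    · refine ⟨fun h => hρ1 (by rw [h, inv_one]), ?_⟩
      have : x ≠ δ := fun h => k2 (by rw [h])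
      simp [part, k1.symm, this]
  have hδ1 : δ = 1 := by
    by_contra hne
    have := H δ
    rw [(key _ _ h1).2, (key _ _ h2).2, (key _ _ h3).2] at this
    exact part_self_ne hd (hδ hne) (by simpa using this)
  refine ⟨hδ1, ?_, (key _ _ h3).1⟩
  have := H 1
  rw [part_one_of_ne (key _ _ h1).1, part_one_of_ne (key _ _ h2).1, part_one_of_ne (key _ _ h3).1,
    hδ1, part_one] at this
  simpa using this

lemma four {a b c d α β γ δ : ℂ} (ha : ‖a‖ = 1) (hb : ‖b‖ = 1) (hc : ‖c‖ = 1) (hd : ‖d‖ = 1)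
    (hα : α ≠ 1 → α⁻¹ ≠ α) (hβ : β ≠ 1 → β⁻¹ ≠ β) (hγ : γ ≠ 1 → γ⁻¹ ≠ γ) (hδ : δ ≠ 1 → δ⁻¹ ≠ δ)
    (H : ∀ ρ, part α a ρ + part β b ρ + part γ c ρ + part δ d ρ = 0)
    (n1 : NC a b) (n2 : NC a c) (n3 : NC a d) (n4 : NC b c) (n5 : NC b d) (n6 : NC c d) :
    (α = 1 ∧ β = 1 ∧ γ = 1 ∧ δ = 1) ∨
    (Cub a b α β ∧ ((δ = 1 ∧ d + d⁻¹ = 0 ∧ γ ≠ 1) ∨ (γ = 1 ∧ c + c⁻¹ = 0 ∧ δ ≠ 1))) ∨
    (Cub c d γ δ ∧ ((β = 1 ∧ b + b⁻¹ = 0 ∧ α ≠ 1) ∨ (α = 1 ∧ a + a⁻¹ = 0 ∧ β ≠ 1))) := by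
  by_cases hall : α = 1 ∧ β = 1 ∧ γ = 1 ∧ δ = 1
  · exact Or.inl hall
  right
  obtain ⟨ρ, hρ, hne⟩ : ∃ ρ : ℂ, ρ⁻¹ ≠ ρ ∧
      ¬ (part α a ρ = 0 ∧ part β b ρ = 0 ∧ part γ c ρ = 0 ∧ part δ d ρ = 0) := by
    by_cases h1 : α = 1
    · by_cases h2 : β = 1
      · by_cases h3 : γ = 1
        · have h4 : δ ≠ 1 := fun h4 => hall ⟨h1, h2, h3, h4⟩
          exact ⟨δ, hδ h4, fun h => part_self_ne hd (hδ h4) h.2.2.2⟩
        · exact ⟨γ, hγ h3, fun h => part_self_ne hc (hγ h3) h.2.2.1⟩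
      · exact ⟨β, hβ h2, fun h => part_self_ne hb (hβ h2) h.2.1⟩
    · exact ⟨α, hα h1, fun h => part_self_ne ha (hα h1) h.1⟩
  rcases units4 (part_unit ha hρ) (part_unit hb hρ) (part_unit hc hρ) (part_unit hd hρ) (H ρ)
    (n1.part ha hb hρ) (n2.part ha hc hρ) (n3.part ha hd hρ) (n4.part hb hc hρ)
    (n5.part hb hd hρ) (n6.part hc hd hρ) with h | ⟨h1, h2, h3, h4⟩ | ⟨h1, h2, h3, h4⟩
  · exact absurd h hne
  · refine Or.inl ⟨cub_of hρ h1 h2 h3, ?_⟩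
    rcases h4 with ⟨h5, h6⟩ | ⟨h5, h6⟩
    · exact Or.inl (out_one hd hδ hρ H h1 h2 h5 h6)
    · exact Or.inr (out_one hc hγ hρ (fun ρ => by linear_combination H ρ) h1 h2 h6 h5)
  · refine Or.inr ⟨cub_of hρ h1 h2 h3, ?_⟩
    rcases h4 with ⟨h5, h6⟩ | ⟨h5, h6⟩
    · exact Or.inl (out_one hb hβ hρ (fun ρ => by linear_combination H ρ) h1 h2 h5 h6)
    · exact Or.inr (out_one ha hα hρ (fun ρ => by linear_combination H ρ) h1 h2 h6 h5)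

end Pool.Agent.Lib.MP_b1882c_co
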