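import Mathlib

/-! Transfer of polynomial identities between roots of unity, and splitting of vanishing sums. -/

open Polynomial Finset

namespace Pool.Agent.Lib.MP_b1882c_co

/-- `a` and `b` are the values of one integer polynomial at `ζ` and at `g`. -/
def Tr {S : Type} [CommRing S] (ζ : ℂ) (g : S) (a : ℂ) (b : S) : Prop :=
  ∃ P : ℤ[X], aeval ζ P = a ∧ aeval g P = b

namespace Tr

variable {S : Type} [CommRing S] {ζ : ℂ} {g : S} {a a' : ℂ} {b b' : S}

lemma add (h : Tr ζ g a b) (h' : Tr ζ g a' b') : Tr ζ g (a + a') (b + b') := by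
  obtain ⟨P, rfl, rfl⟩ := h
  obtain ⟨Q, rfl, rfl⟩ := h'
  exact ⟨P + Q, by simp, by simp⟩

lemma sub (h : Tr ζ g a b) (h' : Tr ζ g a' b') : Tr ζ g (a - a') (b - b') := by
  obtain ⟨P, rfl, rfl⟩ := h
  obtain ⟨Q, rfl, rfl⟩ := h'
  exact ⟨P - Q, by simp, by simp⟩

lemma mul (h : Tr ζ g a b) (h' : Tr ζ g a' b') : Tr ζ g (a * a') (b * b') := by
  obtain ⟨P, rfl, rfl⟩ := h
  obtain ⟨Q, rfl, rfl⟩ := h'
  exact ⟨P * Q, by simp, by simp⟩

lemma int (n : ℤ) : Tr ζ g (n : ℂ) (n : S) := ⟨C n, by simp, by simp⟩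

lemma gen_pow (n : ℕ) : Tr ζ g (ζ ^ n) (g ^ n) := ⟨X ^ n, by simp, by simp⟩

lemma sum {ι : Type} (s : Finset ι) {f : ι → ℂ} {f' : ι → S} (h : ∀ i ∈ s, Tr ζ g (f i) (f' i)) :
    Tr ζ g (∑ i ∈ s, f i) (∑ i ∈ s, f' i) := by
  classical
  induction s using Finset.induction_on with
  | empty => simpa using int (ζ := ζ) (g := g) 0
  | insert i s hi ih =>
    rw [sum_insert hi, sum_insert hi]
    exact (h i (mem_insert_self _ _)).add (ih fun j hj => h j (mem_insert_of_mem hj))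

lemma eq {N : ℕ} (hN : 0 < N) (hζ : IsPrimitiveRoot ζ N) (hg : aeval g (cyclotomic N ℤ) = 0)
    (h : Tr ζ g a b) (h' : Tr ζ g a' b') (e : a = a') : b = b' := by
  obtain ⟨P, h1, h2⟩ := h.sub h'
  rw [e, sub_self] at h1
  have h3 := minpoly.isIntegrallyClosed_dvd (hζ.isIntegral hN) h1
  rw [← cyclotomic_eq_minpoly hζ hN] at h3
  obtain ⟨Q, rfl⟩ := h3
  rw [map_mul, hg, zero_mul] at h2
  exact sub_eq_zero.1 h2.symm

end Tr

lemma aeval_cyclotomic_of_prim {S : Type} [CommRing S] [IsDomain S] {g : S} {N : ℕ} (hN : 0 < N)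
    (hg : IsPrimitiveRoot g N) : aeval g (cyclotomic N ℤ) = 0 := by
  have := hg.isRoot_cyclotomic hN
  rw [aeval_def, eval₂_eq_eval_map, map_cyclotomic]
  exact this

/-- Galois conjugation `x ↦ x ^ k` on the `N`-th roots of unity. -/
lemma exists_conj {N k : ℕ} (hN : 0 < N) (hk : k.Coprime N) :
    ∃ ζ g : ℂ, (∀ x : ℂ, x ^ N = 1 → Tr ζ g x (x ^ k)) ∧
      ∀ a a' b b', Tr ζ g a b → Tr ζ g a' b' → a = a' → b = b' := by
  have hζ := Complex.isPrimitiveRoot_exp N hN.ne'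
  set ζ := Complex.exp (2 * Real.pi * Complex.I / N)
  refine ⟨ζ, ζ ^ k, fun x hx => ?_, fun a a' b b' h h' e =>
    Tr.eq hN hζ (aeval_cyclotomic_of_prim hN (hζ.pow_of_coprime k hk)) h h' e⟩
  haveI : NeZero N := ⟨hN.ne'⟩
  obtain ⟨i, -, rfl⟩ := hζ.eq_pow_of_pow_eq_one hx
  have := Tr.gen_pow (ζ := ζ) (g := ζ ^ k) i
  rwa [← pow_mul, mul_comm k i, pow_mul] at this

lemma sum_conj {ι : Type} [Fintype ι] {N k : ℕ} (hN : 0 < N) (hk : k.Coprime N) (T : ι → ℂ)
    (ε : ι → ℤ) (hT : ∀ i, T i ^ N = 1) (h : ∑ i, (ε i : ℂ) * T i = 0) :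
    ∑ i, (ε i : ℂ) * T i ^ k = 0 := by
  obtain ⟨ζ, g, h1, h2⟩ := exists_conj hN hk
  have h3 := Tr.sum (ζ := ζ) (g := g) univ (f := fun i => (ε i : ℂ) * T i)
    (f' := fun i => (ε i : ℂ) * T i ^ k) fun i _ => (Tr.int (ε i)).mul (h1 _ (hT i))
  have := h2 _ _ _ _ h3 (Tr.int 0) (by simpa using h)
  simpa using this

lemma geom_ind {p : ℕ} {ξ : ℂ} (h : ξ ^ p = 1) [Decidable (ξ = 1)] :
    ∑ j ∈ range p, ξ ^ j = if ξ = 1 then (p : ℂ) else 0 := by
  split_ifs with h1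
  · simp [h1]
  · rw [geom_sum_eq h1, h]; simp

open scoped Classical in
/-- Splitting of a vanishing sum of `M * p`-th roots of unity according to their `M`-th powers. -/
lemma split_sum {ι : Type} [Fintype ι] {M p : ℕ} (hM : 0 < M) (hp : p.Prime)
    (hc : p ∣ M ∨ Fintype.card ι < p) (T : ι → ℂ) (ε : ι → ℤ) (hT : ∀ i, T i ^ (M * p) = 1)
    (h : ∑ i, (ε i : ℂ) * T i = 0) (ρ : ℂ) :
    ∑ i, (if T i ^ M = ρ then (ε i : ℂ) * T i else 0) = 0 := by
  have hN : 0 < M * p := Nat.mul_pos hM hp.pos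
  have hp0 : (p : ℂ) ≠ 0 := by exact_mod_cast hp.ne_zero
  set c : ℕ → ℂ := fun j => ∑ i, (ε i : ℂ) * T i * (T i ^ M) ^ j with hc_def
  have hcj : ∀ j, ¬ p ∣ 1 + j * M → c j = 0 := by
    intro j hj
    have hk : (1 + j * M).Coprime (M * p) := by
      apply Nat.Coprime.mul_right
      · simp
      · exact ((Nat.Prime.coprime_iff_not_dvd hp).2 hj).symm
    have := sum_conj hN hk T ε hT h
    rw [← this]
    refine sum_congr rfl fun i _ => ?_
    rw [pow_add, pow_one, mul_comm j M, pow_mul, mul_assoc]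
  have hS : ∀ ρ : ℂ, ρ ^ p = 1 →
      (p : ℂ) * ∑ i, (if T i ^ M = ρ then (ε i : ℂ) * T i else 0) =
        ∑ j ∈ range p, (ρ⁻¹) ^ j * c j := by
    intro ρ hρ
    have hρ0 : ρ ≠ 0 := by
      rintro rfl
      simp [hp.ne_zero] at hρ
    simp only [hc_def, mul_sum]
    rw [sum_comm]
    refine sum_congr rfl fun i _ => ?_
    have h1 : (ρ⁻¹ * T i ^ M) ^ p = 1 := by
      rw [mul_pow, inv_pow, hρ, ← pow_mul, hT i]; simp
    have h2 := geom_ind h1
    have h3 : (ρ⁻¹ * T i ^ M = 1) ↔ T i ^ M = ρ := by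
      rw [inv_mul_eq_one₀ hρ0, eq_comm]
    have h4 : ∑ j ∈ range p, ρ⁻¹ ^ j * ((ε i : ℂ) * T i * (T i ^ M) ^ j) =
        (ε i : ℂ) * T i * ∑ j ∈ range p, (ρ⁻¹ * T i ^ M) ^ j := by
      rw [mul_sum]
      refine sum_congr rfl fun j _ => ?_
      rw [mul_pow]; ring
    rw [h4, h2]
    by_cases h5 : T i ^ M = ρ
    · rw [if_pos h5, if_pos (h3.2 h5)]; ring
    · rw [if_neg h5, if_neg (fun h6 => h5 (h3.1 h6))]; ring
  have hall : ∀ j ∈ range p, c j = 0 := by
    by_cases hpM : p ∣ M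
    · intro j _
      apply hcj
      intro h1
      have h2 : p ∣ 1 := (Nat.dvd_add_left (Dvd.dvd.mul_left hpM j)).1 h1
      exact hp.one_lt.ne' (Nat.dvd_one.1 h2)
    have hcard := hc.resolve_left hpM
    intro j₀ hj₀
    by_cases hd : p ∣ 1 + j₀ * M
    swap
    · exact hcj _ hd
    have hother : ∀ j ∈ range p, j ≠ j₀ → c j = 0 := by
      intro j hj hne
      apply hcj
      intro hd'
      apply hne
      have h1 : j * M ≡ j₀ * M [MOD p] :=
        Nat.ModEq.add_left_cancel' 1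
          (((Nat.modEq_zero_iff_dvd).2 hd').trans ((Nat.modEq_zero_iff_dvd).2 hd).symm)
      have h2 : j ≡ j₀ [MOD p] :=
        Nat.ModEq.cancel_right_of_coprime ((Nat.Prime.coprime_iff_not_dvd hp).2 hpM) h1
      exact Nat.ModEq.eq_of_lt_of_lt h2 (mem_range.1 hj) (mem_range.1 hj₀)
    have hω := Complex.isPrimitiveRoot_exp p hp.ne_zero
    set ω := Complex.exp (2 * Real.pi * Complex.I / p)
    have hinj : #((range p).image fun j => ω ^ j) = p := by
      rw [card_image_of_injOn, card_range]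
      intro a ha b hb hab
      exact hω.pow_inj (mem_range.1 ha) (mem_range.1 hb) hab
    have hlt : #(univ.image fun i => T i ^ M) < #((range p).image fun j => ω ^ j) := by
      rw [hinj]
      exact card_image_le.trans_lt hcard
    obtain ⟨ρ₀, h1, h2⟩ := exists_mem_notMem_of_card_lt_card hlt
    obtain ⟨j, -, rfl⟩ := mem_image.1 h1
    have h3 : (ω ^ j) ^ p = 1 := by rw [← pow_mul, mul_comm, pow_mul, hω.pow_eq_one, one_pow]
    have h4 := hS _ h3
    rw [sum_eq_zero, mul_zero, sum_eq_single j₀] at h4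
    · have h5 : ((ω ^ j)⁻¹) ^ j₀ ≠ 0 :=
        pow_ne_zero _ (inv_ne_zero (pow_ne_zero _ (hω.ne_zero hp.ne_zero)))
      exact (mul_eq_zero.1 h4.symm).resolve_left h5
    · intro b hb hne
      rw [hother b hb hne, mul_zero]
    · intro h6; exact absurd hj₀ h6
    · intro i _
      rw [if_neg]
      intro h6
      exact h2 (mem_image.2 ⟨i, mem_univ _, h6⟩)
  by_cases hρ : ρ ^ p = 1
  · have h1 := hS ρ hρ
    rw [sum_eq_zero (s := range p) (fun j hj => by rw [hall j hj, mul_zero])] at h1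
    exact (mul_eq_zero.1 h1).resolve_left hp0
  · apply sum_eq_zero
    intro i _
    rw [if_neg]
    rintro rfl
    exact hρ (by rw [← pow_mul, hT i])

end Pool.Agent.Lib.MP_b1882c_co
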