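import Mathlib
import Pool.Agent.Lib.MP_b1882c_co.Transfer
import Pool.Agent.Lib.MP_b1882c_co.Integral
import Pool.Agent.Lib.MP_b1882c_co.Four

/-! Structure of nontrivial relations `cos a * cos b = cos c * cos d` at one prime. -/

namespace Pool.Agent.Lib.MP_b1882c_co

/-- real part strictly between zero and one -/
def Acute (x : ℂ) : Prop := 0 < x.re ∧ x.re < 1

/-- the one-parameter family, seen through the `M`-th powers -/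
def FamT (M : ℕ) (a b c d : ℂ) : Prop :=
  ((a ^ M = 1 ∧ a.re = 1 / 2 ∧ b ^ M ≠ 1) ∨ (b ^ M = 1 ∧ b.re = 1 / 2 ∧ a ^ M ≠ 1)) ∧
    c ^ M ≠ 1 ∧ d ^ M ≠ 1 ∧ c.re ^ 2 + d.re ^ 2 = 1

lemma odd_inv {p : ℕ} (hp : Odd p) {c : ℂ} (h : c ^ p = 1) : c ≠ 1 → c⁻¹ ≠ c := by
  intro h1 h2
  obtain ⟨k, rfl⟩ := hp
  have c0 : c ≠ 0 := by rintro rfl; simp at h
  have h3 : c ^ 2 = 1 := by field_simp at h2; linear_combination -h2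
  rw [pow_succ, pow_mul, h3, one_pow, one_mul] at h
  exact h1 h

lemma cub_pair {M p : ℕ} (hp : Odd p) {x y : ℂ} (nx : ‖x‖ = 1) (ny : ‖y‖ = 1)
    (hx : (x ^ M) ^ p = 1) (hy : (y ^ M) ^ p = 1) (ax : 0 < x.re) (ay : 0 < y.re) {s : ℂ}
    (hs : s * s = 1) (h : Cub (s * (x * y)) (s * (x * y⁻¹)) ((x * y) ^ M) ((x * y⁻¹) ^ M)) :
    (x ^ M = 1 ∧ x.re = 1 / 2 ∧ y ^ M ≠ 1) ∨ (y ^ M = 1 ∧ y.re = 1 / 2 ∧ x ^ M ≠ 1) := by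
  have x0 : x ≠ 0 := by rintro rfl; simp at nx
  have y0 : y ≠ 0 := by rintro rfl; simp at ny
  have s0 : s ≠ 0 := by rintro rfl; simp at hs
  have xM := pow_ne_zero M x0
  have yM := pow_ne_zero M y0
  have key : ∀ z : ℂ, ‖z‖ = 1 → 0 < z.re → z ^ 2 + (z ^ 2)⁻¹ = -1 → z.re = 1 / 2 := by
    intro z nz az hz
    have z0 : z ≠ 0 := by rintro rfl; simp at nz
    have e := add_inv_eq_re nz
    have h1 : (z + z⁻¹) ^ 2 = 1 := by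
      have : (z + z⁻¹) ^ 2 = z ^ 2 + (z ^ 2)⁻¹ + 2 := by field_simp; ring
      rw [this, hz]; ring
    rw [e] at h1
    have h2 : (2 * z.re) ^ 2 = 1 := by exact_mod_cast h1
    nlinarith
  obtain ⟨h1, ⟨h2, h3⟩ | ⟨h2, h3⟩⟩ := h
  · right
    rw [mul_pow, mul_pow, inv_pow] at h2
    have h4 : y ^ M = 1 := by
      by_contra h5
      exact odd_inv hp hy h5 (mul_left_cancel₀ xM h2).symm
    refine ⟨h4, key y ny ay ?_, ?_⟩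
    · rw [← h3]; field_simp
    · rwa [mul_pow, h4, mul_one] at h1
  · left
    rw [mul_pow, mul_pow, inv_pow, mul_inv, inv_inv] at h2
    have h4 : x ^ M = 1 := by
      by_contra h5
      exact odd_inv hp hx h5 (mul_right_cancel₀ yM h2).symm
    refine ⟨h4, key x nx ax ?_, ?_⟩
    · have : s * (x * y) * (s * (x * y⁻¹)) = x ^ 2 := by
        field_simp; linear_combination hs
      rw [← h3, this]
    · rwa [mul_pow, h4, one_mul] at h1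

lemma comp_pair {M : ℕ} {x y : ℂ} (nx : ‖x‖ = 1) (ny : ‖y‖ = 1) {s : ℂ} (hs : s * s = 1)
    (h : ((x * y⁻¹) ^ M = 1 ∧ s * (x * y⁻¹) + (s * (x * y⁻¹))⁻¹ = 0 ∧ (x * y) ^ M ≠ 1) ∨
      ((x * y) ^ M = 1 ∧ s * (x * y) + (s * (x * y))⁻¹ = 0 ∧ (x * y⁻¹) ^ M ≠ 1)) :
    x ^ M ≠ 1 ∧ y ^ M ≠ 1 ∧ x.re ^ 2 + y.re ^ 2 = 1 := by
  have x0 : x ≠ 0 := by rintro rfl; simp at nx
  have y0 : y ≠ 0 := by rintro rfl; simp at ny
  have s0 : s ≠ 0 := by rintro rfl; simp at hs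
  have yM := pow_ne_zero M y0
  have hprod : (s * (x * y⁻¹) + (s * (x * y⁻¹))⁻¹) * (s * (x * y) + (s * (x * y))⁻¹) =
      (x + x⁻¹) ^ 2 + (y + y⁻¹) ^ 2 - 4 := by
    have hs' : s⁻¹ = s := by field_simp; linear_combination -hs
    simp only [mul_inv, hs', inv_inv]
    field_simp
    linear_combination (x ^ 4 * y ^ 2 + x ^ 2 * y ^ 4 + x ^ 2 + y ^ 2) * hs
  have hre : x.re ^ 2 + y.re ^ 2 = 1 := by
    have h0 : (x + x⁻¹) ^ 2 + (y + y⁻¹) ^ 2 - 4 = 0 := by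
      rw [← hprod]
      rcases h with h | h
      · rw [h.2.1, zero_mul]
      · rw [h.2.1, mul_zero]
    rw [add_inv_eq_re nx, add_inv_eq_re ny] at h0
    have h1 : (2 * x.re) ^ 2 + (2 * y.re) ^ 2 - 4 = 0 := by exact_mod_cast h0
    linarith
  simp only [mul_pow, inv_pow] at h
  rcases h with ⟨h1, -, h2⟩ | ⟨h1, -, h2⟩
  · have h3 : x ^ M = y ^ M := by field_simp at h1; exact h1
    refine ⟨fun h4 => h2 ?_, fun h4 => h2 ?_, hre⟩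
    · rw [← h3, h4, one_mul]
    · rw [h3, h4, one_mul]
  · refine ⟨fun h4 => h2 ?_, fun h4 => h2 ?_, hre⟩
    · rw [h4, one_mul] at h1
      rw [h4, h1]; simp
    · rw [h4, mul_one] at h1
      rw [h4, h1]; simp

lemma nc_same {x y s : ℂ} (nx : ‖x‖ = 1) (ny : ‖y‖ = 1) (ax : 0 < x.re) (ay : 0 < y.re)
    (hs : s * s = 1) : NC (s * (x * y)) (s * (x * y⁻¹)) := by
  have x0 : x ≠ 0 := by rintro rfl; simp at nx
  have y0 : y ≠ 0 := by rintro rfl; simp at ny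
  have s0 : s ≠ 0 := by rintro rfl; simp at hs
  have hs' : s⁻¹ = s := by field_simp; linear_combination -hs
  have hx : x + x⁻¹ ≠ 0 := by
    rw [add_inv_eq_re nx]; exact_mod_cast (by linarith : 2 * x.re ≠ 0)
  have hy : y + y⁻¹ ≠ 0 := by
    rw [add_inv_eq_re ny]; exact_mod_cast (by linarith : 2 * y.re ≠ 0)
  constructor
  · have : s * (x * y) + s * (x * y⁻¹) = s * x * (y + y⁻¹) := by ring
    rw [this]; exact mul_ne_zero (mul_ne_zero s0 x0) hy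
  · have : s * (x * y) + (s * (x * y⁻¹))⁻¹ = s * y * (x + x⁻¹) := by
      simp only [mul_inv, hs', inv_inv]; ring
    rw [this]; exact mul_ne_zero (mul_ne_zero s0 y0) hx

lemma nc_of_ne {a c : ℂ} (h : a + a⁻¹ ≠ c + c⁻¹) : NC a (-1 * c) := by
  constructor
  · intro h1
    apply h
    have : a = c := by linear_combination h1
    rw [this]
  · intro h1
    apply h
    have : a = c⁻¹ := by
      rw [neg_one_mul, inv_neg] at h1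
      linear_combination h1
    rw [this, inv_inv, add_comm]

theorem fam {M p : ℕ} (hM : 0 < M) (hp : p.Prime) (hp2 : p ≠ 2) (hc : p ∣ M ∨ 11 ≤ p)
    {x₁ x₂ x₃ x₄ : ℂ} (h₁ : x₁ ^ (M * p) = 1) (h₂ : x₂ ^ (M * p) = 1) (h₃ : x₃ ^ (M * p) = 1)
    (h₄ : x₄ ^ (M * p) = 1) (a₁ : 0 < x₁.re) (a₂ : 0 < x₂.re) (a₃ : 0 < x₃.re) (a₄ : 0 < x₄.re)
    (e : x₁.re * x₂.re = x₃.re * x₄.re) (t₃ : x₁.re ≠ x₃.re) (t₄ : x₁.re ≠ x₄.re) :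
    (x₁ ^ M = 1 ∧ x₂ ^ M = 1 ∧ x₃ ^ M = 1 ∧ x₄ ^ M = 1) ∨ FamT M x₁ x₂ x₃ x₄ ∨
      FamT M x₃ x₄ x₁ x₂ := by
  classical
  have hN : M * p ≠ 0 := (Nat.mul_pos hM hp.pos).ne'
  have hodd : Odd p := hp.odd_of_ne_two hp2
  have n₁ := Complex.norm_eq_one_of_pow_eq_one h₁ hN
  have n₂ := Complex.norm_eq_one_of_pow_eq_one h₂ hN
  have n₃ := Complex.norm_eq_one_of_pow_eq_one h₃ hN
  have n₄ := Complex.norm_eq_one_of_pow_eq_one h₄ hN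
  have z₁ : x₁ ≠ 0 := by rintro rfl; simp at n₁
  have z₂ : x₂ ≠ 0 := by rintro rfl; simp at n₂
  have z₃ : x₃ ≠ 0 := by rintro rfl; simp at n₃
  have z₄ : x₄ ≠ 0 := by rintro rfl; simp at n₄
  have e₁ := add_inv_eq_re n₁
  have e₂ := add_inv_eq_re n₂
  have e₃ := add_inv_eq_re n₃
  have e₄ := add_inv_eq_re n₄
  have hy : (x₁ + x₁⁻¹) * (x₂ + x₂⁻¹) = (x₃ + x₃⁻¹) * (x₄ + x₄⁻¹) := by
    rw [e₁, e₂, e₃, e₄]
    have : (2 * x₁.re) * (2 * x₂.re) = (2 * x₃.re) * (2 * x₄.re) := by linear_combination 4 * e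
    exact_mod_cast this
  have hD : (x₃ + x₃⁻¹) ^ 2 + (x₄ + x₄⁻¹) ^ 2 - ((x₁ + x₁⁻¹) ^ 2 + (x₂ + x₂⁻¹) ^ 2) ≠ 0 := by
    rw [e₁, e₂, e₃, e₄]
    intro h
    have h' : (2 * x₃.re) ^ 2 + (2 * x₄.re) ^ 2 - ((2 * x₁.re) ^ 2 + (2 * x₂.re) ^ 2) = 0 := by
      exact_mod_cast h
    have h2 : (x₁.re - x₃.re) * (x₁.re - x₄.re) * ((x₁.re + x₃.re) * (x₁.re + x₄.re)) = 0 := by
      linear_combination (-x₁.re ^ 2 / 4) * h' - (x₁.re * x₂.re + x₃.re * x₄.re) * e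
    have h3 : (x₁.re + x₃.re) * (x₁.re + x₄.re) ≠ 0 := by positivity
    rcases mul_eq_zero.1 ((mul_eq_zero.1 h2).resolve_right h3) with h4 | h4
    · exact t₃ (sub_eq_zero.1 h4)
    · exact t₄ (sub_eq_zero.1 h4)
  have s12 : (x₁ * x₂ + (x₁ * x₂)⁻¹) + (x₁ * x₂⁻¹ + (x₁ * x₂⁻¹)⁻¹) = (x₁ + x₁⁻¹) * (x₂ + x₂⁻¹) := by
    simp only [mul_inv, inv_inv]; ring
  have s34 : (x₃ * x₄ + (x₃ * x₄)⁻¹) + (x₃ * x₄⁻¹ + (x₃ * x₄⁻¹)⁻¹) = (x₃ + x₃⁻¹) * (x₄ + x₄⁻¹) := by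
    simp only [mul_inv, inv_inv]; ring
  have p12 : (x₁ * x₂ + (x₁ * x₂)⁻¹) * (x₁ * x₂⁻¹ + (x₁ * x₂⁻¹)⁻¹) =
      (x₁ + x₁⁻¹) ^ 2 + (x₂ + x₂⁻¹) ^ 2 - 4 := by field_simp; ring
  have p34 : (x₃ * x₄ + (x₃ * x₄)⁻¹) * (x₃ * x₄⁻¹ + (x₃ * x₄⁻¹)⁻¹) =
      (x₃ + x₃⁻¹) ^ 2 + (x₄ + x₄⁻¹) ^ 2 - 4 := by field_simp; ring
  have hsplit : ∀ ρ, part ((x₁ * x₂) ^ M) (1 * (x₁ * x₂)) ρ +
      part ((x₁ * x₂⁻¹) ^ M) (1 * (x₁ * x₂⁻¹)) ρ + part ((x₃ * x₄) ^ M) (-1 * (x₃ * x₄)) ρ +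
      part ((x₃ * x₄⁻¹) ^ M) (-1 * (x₃ * x₄⁻¹)) ρ = 0 := by
    intro ρ
    have := split_sum (ι := Fin 8) hM hp (hc.imp id fun h => by simp; omega)
      ![x₁ * x₂, (x₁ * x₂)⁻¹, x₁ * x₂⁻¹, (x₁ * x₂⁻¹)⁻¹, x₃ * x₄, (x₃ * x₄)⁻¹, x₃ * x₄⁻¹,
        (x₃ * x₄⁻¹)⁻¹] ![1, 1, 1, 1, -1, -1, -1, -1]
      (by intro i; fin_cases i <;> simp [mul_pow, h₁, h₂, h₃, h₄])
      (by
        simp only [Fin.sum_univ_eight]
        simp only [Matrix.cons_val]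
        push_cast
        linear_combination s12 - s34 + hy) ρ
    simp only [Fin.sum_univ_eight] at this
    simp only [Matrix.cons_val, inv_pow] at this
    push_cast at this
    simp only [part, one_mul, neg_one_mul, inv_neg] at this ⊢
    linear_combination this
  have hcl : ∀ x y : ℂ, x ^ (M * p) = 1 → y ^ (M * p) = 1 →
      ((x * y) ^ M) ^ p = 1 ∧ ((x * y⁻¹) ^ M) ^ p = 1 := by
    intro x y hx hy
    rw [← pow_mul, ← pow_mul, mul_pow, mul_pow, inv_pow, hx, hy]; simp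
  have g₁ : (x₁ ^ M) ^ p = 1 := by rw [← pow_mul, h₁]
  have g₂ : (x₂ ^ M) ^ p = 1 := by rw [← pow_mul, h₂]
  have g₃ : (x₃ ^ M) ^ p = 1 := by rw [← pow_mul, h₃]
  have g₄ : (x₄ ^ M) ^ p = 1 := by rw [← pow_mul, h₄]
  have hf := four (by simp [n₁, n₂]) (by simp [n₁, n₂]) (by simp [n₃, n₄]) (by simp [n₃, n₄])
    (odd_inv hodd (hcl _ _ h₁ h₂).1) (odd_inv hodd (hcl _ _ h₁ h₂).2)
    (odd_inv hodd (hcl _ _ h₃ h₄).1) (odd_inv hodd (hcl _ _ h₃ h₄).2) hsplit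
    (nc_same n₁ n₂ a₁ a₂ (by ring))
    (nc_of_ne fun h => hD (by
      rw [one_mul] at h
      linear_combination p12 - p34 - (x₁ * x₂ + (x₁ * x₂)⁻¹) * (s12 - s34 + hy) +
        (x₁ * x₂ + (x₁ * x₂)⁻¹ - (x₃ * x₄⁻¹ + (x₃ * x₄⁻¹)⁻¹)) * h))
    (nc_of_ne fun h => hD (by
      rw [one_mul] at h
      linear_combination p12 - p34 - (x₁ * x₂ + (x₁ * x₂)⁻¹) * (s12 - s34 + hy) +
        (x₁ * x₂ + (x₁ * x₂)⁻¹ - (x₃ * x₄ + (x₃ * x₄)⁻¹)) * h))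
    (nc_of_ne fun h => hD (by
      rw [one_mul] at h
      linear_combination p12 - p34 - (x₁ * x₂⁻¹ + (x₁ * x₂⁻¹)⁻¹) * (s12 - s34 + hy) +
        (x₁ * x₂⁻¹ + (x₁ * x₂⁻¹)⁻¹ - (x₃ * x₄⁻¹ + (x₃ * x₄⁻¹)⁻¹)) * h))
    (nc_of_ne fun h => hD (by
      rw [one_mul] at h
      linear_combination p12 - p34 - (x₁ * x₂⁻¹ + (x₁ * x₂⁻¹)⁻¹) * (s12 - s34 + hy) +
        (x₁ * x₂⁻¹ + (x₁ * x₂⁻¹)⁻¹ - (x₃ * x₄ + (x₃ * x₄)⁻¹)) * h))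
    (nc_same n₃ n₄ a₃ a₄ (by ring))
  have one_of : ∀ x y : ℂ, x ≠ 0 → y ≠ 0 → (x ^ M) ^ p = 1 → (x * y) ^ M = 1 →
      (x * y⁻¹) ^ M = 1 → x ^ M = 1 ∧ y ^ M = 1 := by
    intro x y x0 y0 hx h1 h2
    rw [mul_pow] at h1 h2
    rw [inv_pow] at h2
    have yM := pow_ne_zero M y0
    have h3 : x ^ M = y ^ M := by field_simp at h2; exact h2
    have h4 : x ^ M = 1 := by
      by_contra h5
      apply odd_inv hodd hx h5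
      rw [← h3] at h1
      exact inv_eq_of_mul_eq_one_right h1
    exact ⟨h4, h3 ▸ h4⟩
  rcases hf with ⟨k1, k2, k3, k4⟩ | ⟨k1, k2⟩ | ⟨k1, k2⟩
  · left
    obtain ⟨l1, l2⟩ := one_of _ _ z₁ z₂ g₁ k1 k2
    obtain ⟨l3, l4⟩ := one_of _ _ z₃ z₄ g₃ k3 k4
    exact ⟨l1, l2, l3, l4⟩
  · exact Or.inr (Or.inl ⟨cub_pair hodd n₁ n₂ g₁ g₂ a₁ a₂ (by ring) k1,
      comp_pair n₃ n₄ (by ring) k2⟩)
  · exact Or.inr (Or.inr ⟨cub_pair hodd n₃ n₄ g₃ g₄ a₃ a₄ (by ring) k1,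
      comp_pair n₁ n₂ (by ring) k2⟩)

end Pool.Agent.Lib.MP_b1882c_co
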