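import Mathlib

/-! The finite check modulo the prime `1000002361` for angles that are multiples of `π / 210`. -/

namespace Pool.Agent.Lib.MP_b1882c_co

/-- index `k` and the residue of `g ^ k + g ^ (420 - k)` -/
def vals : List (ℕ × ℕ) := [
  (1, 568783695), (2, 880999176), (3, 958949323), (4, 604313859), (5, 172642105),
  (6, 949925175), (7, 187485845), (8, 955547782), (9, 807064891), (10, 48692437),
  (11, 39515146), (12, 636956396), (13, 65603997), (14, 84185924), (15, 801239596),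
  (16, 928249595), (17, 183252622), (18, 442297679), (19, 8891129), (20, 823193100),
  (21, 645607144), (22, 76834391), (23, 989921717), (24, 518115202), (25, 264929371),
  (26, 260929493), (27, 497142774), (28, 66729441), (29, 909483474), (30, 475497200),
  (31, 925799072), (32, 273167387), (33, 970405786), (34, 184085598), (35, 448668506),
  (36, 973973625), (37, 866937981), (38, 988255228), (39, 194835827), (40, 967106279),
  (41, 910172215), (42, 301093134), (43, 48975855), (44, 702156130), (45, 117275080),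
  (46, 143532275), (47, 860189781), (48, 750219994), (49, 923233398), (50, 905992434),
  (51, 676503566), (52, 570820968), (53, 133315182), (54, 218429280), (55, 513658859),
  (56, 783095152), (57, 962822720), (58, 558513478), (59, 736291002), (60, 392697865),
  (61, 584971519), (62, 98480004), (63, 725448254), (64, 142009322), (65, 462531941),
  (66, 183600868), (67, 87004506), (68, 382802455), (69, 659414639), (70, 1),
  (71, 909371417), (72, 498196721), (73, 871944817), (74, 420712991), (75, 710112525),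
  (76, 807915853), (77, 462039952), (78, 857067778), (79, 222093372), (80, 655996933),
  (81, 303226505), (82, 78442918), (83, 102783638), (84, 301093133), (85, 287580737),
  (86, 709820315), (87, 49937440), (88, 871479072), (89, 332389924), (90, 917203027),
  (91, 722376107), (92, 326616758), (93, 129731936), (94, 374582927), (95, 147654291),
  (96, 558775724), (97, 448166919), (98, 765638668), (99, 999313620), (100, 508393282),
  (101, 730963245), (102, 284914520), (103, 103467805), (104, 210114334)]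

/-- all nontrivial coincidences of products -/
def quads : List (ℕ × ℕ × ℕ × ℕ) := [
  (1, 70, 52, 53), (1, 70, 53, 52), (1, 104, 70, 103), (1, 104, 103, 70), (2, 103, 70, 101),
  (2, 103, 101, 70), (3, 70, 51, 54), (3, 70, 54, 51), (3, 102, 70, 99), (3, 102, 99, 70),
  (4, 101, 70, 97), (4, 101, 97, 70), (5, 65, 30, 60), (5, 65, 60, 30), (5, 70, 50, 55),
  (5, 70, 55, 50), (5, 100, 70, 95), (5, 100, 95, 70), (6, 99, 70, 93), (6, 99, 93, 70),
  (7, 49, 28, 42), (7, 49, 42, 28), (7, 70, 49, 56), (7, 70, 56, 49), (7, 77, 42, 70),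
  (7, 77, 70, 42), (7, 91, 56, 84), (7, 91, 84, 56), (7, 98, 70, 91), (7, 98, 91, 70),
  (8, 97, 70, 89), (8, 97, 89, 70), (9, 70, 48, 57), (9, 70, 57, 48), (9, 96, 70, 87),
  (9, 96, 87, 70), (10, 95, 70, 85), (10, 95, 85, 70), (11, 70, 47, 58), (11, 70, 58, 47),
  (11, 94, 70, 83), (11, 94, 83, 70), (12, 93, 70, 81), (12, 93, 81, 70), (13, 70, 46, 59),
  (13, 70, 59, 46), (13, 92, 70, 79), (13, 92, 79, 70), (14, 56, 42, 42), (14, 84, 49, 77),
  (14, 84, 77, 49), (14, 91, 70, 77), (14, 91, 77, 70), (15, 70, 45, 60), (15, 70, 60, 45),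
  (15, 90, 70, 75), (15, 90, 75, 70), (16, 89, 70, 73), (16, 89, 73, 70), (17, 70, 44, 61),
  (17, 70, 61, 44), (17, 88, 70, 71), (17, 88, 71, 70), (18, 87, 69, 70), (18, 87, 70, 69),
  (19, 70, 43, 62), (19, 70, 62, 43), (19, 86, 67, 70), (19, 86, 70, 67), (20, 85, 65, 70),
  (20, 85, 70, 65), (21, 70, 42, 63), (21, 70, 63, 42), (21, 84, 63, 70), (21, 84, 70, 63),
  (22, 83, 61, 70), (22, 83, 70, 61), (23, 70, 41, 64), (23, 70, 64, 41), (23, 82, 59, 70),
  (23, 82, 70, 59), (24, 81, 57, 70), (24, 81, 70, 57), (25, 70, 40, 65), (25, 70, 65, 40),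
  (25, 80, 55, 70), (25, 80, 70, 55), (25, 95, 60, 90), (25, 95, 90, 60), (26, 79, 53, 70),
  (26, 79, 70, 53), (27, 70, 39, 66), (27, 70, 66, 39), (27, 78, 51, 70), (27, 78, 70, 51),
  (28, 42, 7, 49), (28, 42, 49, 7), (28, 77, 49, 70), (28, 77, 70, 49), (28, 98, 84, 84),
  (29, 70, 38, 67), (29, 70, 67, 38), (29, 76, 47, 70), (29, 76, 70, 47), (30, 60, 5, 65),
  (30, 60, 65, 5), (30, 75, 45, 70), (30, 75, 70, 45), (30, 90, 55, 85), (30, 90, 85, 55),
  (31, 70, 37, 68), (31, 70, 68, 37), (31, 74, 43, 70), (31, 74, 70, 43), (32, 73, 41, 70),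
  (32, 73, 70, 41), (33, 70, 36, 69), (33, 70, 69, 36), (33, 72, 39, 70), (33, 72, 70, 39),
  (34, 71, 37, 70), (34, 71, 70, 37), (36, 69, 33, 70), (36, 69, 70, 33), (37, 68, 31, 70),
  (37, 68, 70, 31), (37, 70, 34, 71), (37, 70, 71, 34), (38, 67, 29, 70), (38, 67, 70, 29),
  (39, 66, 27, 70), (39, 66, 70, 27), (39, 70, 33, 72), (39, 70, 72, 33), (40, 65, 25, 70),
  (40, 65, 70, 25), (41, 64, 23, 70), (41, 64, 70, 23), (41, 70, 32, 73), (41, 70, 73, 32),
  (42, 28, 7, 49), (42, 28, 49, 7), (42, 42, 14, 56), (42, 42, 56, 14), (42, 63, 21, 70),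
  (42, 63, 70, 21), (42, 70, 7, 77), (42, 70, 77, 7), (42, 84, 70, 70), (42, 98, 77, 91),
  (42, 98, 91, 77), (43, 62, 19, 70), (43, 62, 70, 19), (43, 70, 31, 74), (43, 70, 74, 31),
  (44, 61, 17, 70), (44, 61, 70, 17), (45, 60, 15, 70), (45, 60, 70, 15), (45, 70, 30, 75),
  (45, 70, 75, 30), (46, 59, 13, 70), (46, 59, 70, 13), (47, 58, 11, 70), (47, 58, 70, 11),
  (47, 70, 29, 76), (47, 70, 76, 29), (48, 57, 9, 70), (48, 57, 70, 9), (49, 7, 28, 42),
  (49, 7, 42, 28), (49, 56, 7, 70), (49, 56, 70, 7), (49, 70, 28, 77), (49, 70, 77, 28),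
  (49, 77, 14, 84), (49, 77, 84, 14), (49, 91, 70, 84), (49, 91, 84, 70), (50, 55, 5, 70),
  (50, 55, 70, 5), (51, 54, 3, 70), (51, 54, 70, 3), (51, 70, 27, 78), (51, 70, 78, 27),
  (52, 53, 1, 70), (52, 53, 70, 1), (53, 52, 1, 70), (53, 52, 70, 1), (53, 70, 26, 79),
  (53, 70, 79, 26), (54, 51, 3, 70), (54, 51, 70, 3), (55, 50, 5, 70), (55, 50, 70, 5),
  (55, 70, 25, 80), (55, 70, 80, 25), (55, 85, 30, 90), (55, 85, 90, 30), (56, 14, 42, 42),
  (56, 49, 7, 70), (56, 49, 70, 7), (56, 84, 7, 91), (56, 84, 91, 7), (57, 48, 9, 70),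
  (57, 48, 70, 9), (57, 70, 24, 81), (57, 70, 81, 24), (58, 47, 11, 70), (58, 47, 70, 11),
  (59, 46, 13, 70), (59, 46, 70, 13), (59, 70, 23, 82), (59, 70, 82, 23), (60, 30, 5, 65),
  (60, 30, 65, 5), (60, 45, 15, 70), (60, 45, 70, 15), (60, 90, 25, 95), (60, 90, 95, 25),
  (61, 44, 17, 70), (61, 44, 70, 17), (61, 70, 22, 83), (61, 70, 83, 22), (62, 43, 19, 70),
  (62, 43, 70, 19), (63, 42, 21, 70), (63, 42, 70, 21), (63, 70, 21, 84), (63, 70, 84, 21),
  (64, 41, 23, 70), (64, 41, 70, 23), (65, 5, 30, 60), (65, 5, 60, 30), (65, 40, 25, 70),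
  (65, 40, 70, 25), (65, 70, 20, 85), (65, 70, 85, 20), (66, 39, 27, 70), (66, 39, 70, 27),
  (67, 38, 29, 70), (67, 38, 70, 29), (67, 70, 19, 86), (67, 70, 86, 19), (68, 37, 31, 70),
  (68, 37, 70, 31), (69, 36, 33, 70), (69, 36, 70, 33), (69, 70, 18, 87), (69, 70, 87, 18),
  (70, 1, 52, 53), (70, 1, 53, 52), (70, 3, 51, 54), (70, 3, 54, 51), (70, 5, 50, 55),
  (70, 5, 55, 50), (70, 7, 49, 56), (70, 7, 56, 49), (70, 9, 48, 57), (70, 9, 57, 48),
  (70, 11, 47, 58), (70, 11, 58, 47), (70, 13, 46, 59), (70, 13, 59, 46), (70, 15, 45, 60),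
  (70, 15, 60, 45), (70, 17, 44, 61), (70, 17, 61, 44), (70, 19, 43, 62), (70, 19, 62, 43),
  (70, 21, 42, 63), (70, 21, 63, 42), (70, 23, 41, 64), (70, 23, 64, 41), (70, 25, 40, 65),
  (70, 25, 65, 40), (70, 27, 39, 66), (70, 27, 66, 39), (70, 29, 38, 67), (70, 29, 67, 38),
  (70, 31, 37, 68), (70, 31, 68, 37), (70, 33, 36, 69), (70, 33, 69, 36), (70, 37, 34, 71),
  (70, 37, 71, 34), (70, 39, 33, 72), (70, 39, 72, 33), (70, 41, 32, 73), (70, 41, 73, 32),
  (70, 42, 7, 77), (70, 42, 77, 7), (70, 43, 31, 74), (70, 43, 74, 31), (70, 45, 30, 75),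
  (70, 45, 75, 30), (70, 47, 29, 76), (70, 47, 76, 29), (70, 49, 28, 77), (70, 49, 77, 28),
  (70, 51, 27, 78), (70, 51, 78, 27), (70, 53, 26, 79), (70, 53, 79, 26), (70, 55, 25, 80),
  (70, 55, 80, 25), (70, 57, 24, 81), (70, 57, 81, 24), (70, 59, 23, 82), (70, 59, 82, 23),
  (70, 61, 22, 83), (70, 61, 83, 22), (70, 63, 21, 84), (70, 63, 84, 21), (70, 65, 20, 85),
  (70, 65, 85, 20), (70, 67, 19, 86), (70, 67, 86, 19), (70, 69, 18, 87), (70, 69, 87, 18),
  (70, 70, 42, 84), (70, 70, 84, 42), (70, 71, 17, 88), (70, 71, 88, 17), (70, 73, 16, 89),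
  (70, 73, 89, 16), (70, 75, 15, 90), (70, 75, 90, 15), (70, 77, 14, 91), (70, 77, 91, 14),
  (70, 79, 13, 92), (70, 79, 92, 13), (70, 81, 12, 93), (70, 81, 93, 12), (70, 83, 11, 94),
  (70, 83, 94, 11), (70, 84, 49, 91), (70, 84, 91, 49), (70, 85, 10, 95), (70, 85, 95, 10),
  (70, 87, 9, 96), (70, 87, 96, 9), (70, 89, 8, 97), (70, 89, 97, 8), (70, 91, 7, 98),
  (70, 91, 98, 7), (70, 93, 6, 99), (70, 93, 99, 6), (70, 95, 5, 100), (70, 95, 100, 5),
  (70, 97, 4, 101), (70, 97, 101, 4), (70, 99, 3, 102), (70, 99, 102, 3), (70, 101, 2, 103),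
  (70, 101, 103, 2), (70, 103, 1, 104), (70, 103, 104, 1), (71, 34, 37, 70), (71, 34, 70, 37),
  (71, 70, 17, 88), (71, 70, 88, 17), (72, 33, 39, 70), (72, 33, 70, 39), (73, 32, 41, 70),
  (73, 32, 70, 41), (73, 70, 16, 89), (73, 70, 89, 16), (74, 31, 43, 70), (74, 31, 70, 43),
  (75, 30, 45, 70), (75, 30, 70, 45), (75, 70, 15, 90), (75, 70, 90, 15), (76, 29, 47, 70),
  (76, 29, 70, 47), (77, 7, 42, 70), (77, 7, 70, 42), (77, 28, 49, 70), (77, 28, 70, 49),
  (77, 49, 14, 84), (77, 49, 84, 14), (77, 70, 14, 91), (77, 70, 91, 14), (77, 91, 42, 98),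
  (77, 91, 98, 42), (78, 27, 51, 70), (78, 27, 70, 51), (79, 26, 53, 70), (79, 26, 70, 53),
  (79, 70, 13, 92), (79, 70, 92, 13), (80, 25, 55, 70), (80, 25, 70, 55), (81, 24, 57, 70),
  (81, 24, 70, 57), (81, 70, 12, 93), (81, 70, 93, 12), (82, 23, 59, 70), (82, 23, 70, 59),
  (83, 22, 61, 70), (83, 22, 70, 61), (83, 70, 11, 94), (83, 70, 94, 11), (84, 14, 49, 77),
  (84, 14, 77, 49), (84, 21, 63, 70), (84, 21, 70, 63), (84, 42, 70, 70), (84, 56, 7, 91),
  (84, 56, 91, 7), (84, 70, 49, 91), (84, 70, 91, 49), (84, 84, 28, 98), (84, 84, 98, 28),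
  (85, 20, 65, 70), (85, 20, 70, 65), (85, 55, 30, 90), (85, 55, 90, 30), (85, 70, 10, 95),
  (85, 70, 95, 10), (86, 19, 67, 70), (86, 19, 70, 67), (87, 18, 69, 70), (87, 18, 70, 69),
  (87, 70, 9, 96), (87, 70, 96, 9), (88, 17, 70, 71), (88, 17, 71, 70), (89, 16, 70, 73),
  (89, 16, 73, 70), (89, 70, 8, 97), (89, 70, 97, 8), (90, 15, 70, 75), (90, 15, 75, 70),
  (90, 30, 55, 85), (90, 30, 85, 55), (90, 60, 25, 95), (90, 60, 95, 25), (91, 7, 56, 84),
  (91, 7, 84, 56), (91, 14, 70, 77), (91, 14, 77, 70), (91, 49, 70, 84), (91, 49, 84, 70),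
  (91, 70, 7, 98), (91, 70, 98, 7), (91, 77, 42, 98), (91, 77, 98, 42), (92, 13, 70, 79),
  (92, 13, 79, 70), (93, 12, 70, 81), (93, 12, 81, 70), (93, 70, 6, 99), (93, 70, 99, 6),
  (94, 11, 70, 83), (94, 11, 83, 70), (95, 10, 70, 85), (95, 10, 85, 70), (95, 25, 60, 90),
  (95, 25, 90, 60), (95, 70, 5, 100), (95, 70, 100, 5), (96, 9, 70, 87), (96, 9, 87, 70),
  (97, 8, 70, 89), (97, 8, 89, 70), (97, 70, 4, 101), (97, 70, 101, 4), (98, 7, 70, 91),
  (98, 7, 91, 70), (98, 28, 84, 84), (98, 42, 77, 91), (98, 42, 91, 77), (99, 6, 70, 93),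
  (99, 6, 93, 70), (99, 70, 3, 102), (99, 70, 102, 3), (100, 5, 70, 95), (100, 5, 95, 70),
  (101, 4, 70, 97), (101, 4, 97, 70), (101, 70, 2, 103), (101, 70, 103, 2), (102, 3, 70, 99),
  (102, 3, 99, 70), (103, 2, 70, 101), (103, 2, 101, 70), (103, 70, 1, 104), (103, 70, 104, 1),
  (104, 1, 70, 103), (104, 1, 103, 70)]

def allPairs : List (ℕ × ℕ × ℕ) :=
  vals.flatMap fun s => vals.map fun t => (s.1, t.1, s.2 * t.2 % 1000002361)

def leaf (L : List (ℕ × ℕ × ℕ)) : Bool :=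
  L.all fun s => L.all fun t => !(Nat.beq s.2.2 t.2.2) || Nat.beq s.1 t.1 || Nat.beq s.1 t.2.1 ||
    quads.any fun u => Nat.beq u.1 s.1 && Nat.beq u.2.1 s.2.1 && Nat.beq u.2.2.1 t.1 &&
      Nat.beq u.2.2.2 t.2.1

def splitBit (d : ℕ) (k : List (ℕ × ℕ × ℕ) → List (ℕ × ℕ × ℕ) → Bool) :
    List (ℕ × ℕ × ℕ) → List (ℕ × ℕ × ℕ) → List (ℕ × ℕ × ℕ) → Bool
  | [], A, B => k A B
  | s :: L, A, B => cond (s.2.2.testBit d) (splitBit d k L (s :: A) B) (splitBit d k L A (s :: B))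

def chk : ℕ → List (ℕ × ℕ × ℕ) → Bool
  | 0, L => leaf L
  | d + 1, L => splitBit d (fun A B => chk d A && chk d B) L [] []

lemma splitBit_spec (d : ℕ) (k : List (ℕ × ℕ × ℕ) → List (ℕ × ℕ × ℕ) → Bool) :
    ∀ L A B, splitBit d k L A B = true → ∃ A' B', k A' B' = true ∧ (∀ s ∈ A, s ∈ A') ∧
      (∀ s ∈ B, s ∈ B') ∧ ∀ s ∈ L, (s.2.2.testBit d = true → s ∈ A') ∧
        (s.2.2.testBit d = false → s ∈ B') := by
  intro L
  induction L with
  | nil => intro A B h; exact ⟨A, B, h, fun _ h => h, fun _ h => h, by simp⟩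
  | cons s L ih =>
    intro A B h
    rw [splitBit] at h
    cases hb : s.2.2.testBit d with
    | true =>
      rw [hb, cond_true] at h
      obtain ⟨A', B', h1, h2, h3, h4⟩ := ih _ _ h
      refine ⟨A', B', h1, fun t ht => h2 t (List.mem_cons_of_mem _ ht), h3, fun t ht => ?_⟩
      rcases List.mem_cons.1 ht with rfl | ht
      · exact ⟨fun _ => h2 _ List.mem_cons_self, fun h5 => by simp [hb] at h5⟩
      · exact h4 t ht
    | false =>
      rw [hb, cond_false] at h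
      obtain ⟨A', B', h1, h2, h3, h4⟩ := ih _ _ h
      refine ⟨A', B', h1, h2, fun t ht => h3 t (List.mem_cons_of_mem _ ht), fun t ht => ?_⟩
      rcases List.mem_cons.1 ht with rfl | ht
      · exact ⟨fun h5 => by simp [hb] at h5, fun _ => h3 _ List.mem_cons_self⟩
      · exact h4 t ht

lemma chk_spec : ∀ d L, chk d L = true → ∀ s ∈ L, ∀ t ∈ L, s.2.2 = t.2.2 → s.1 ≠ t.1 →
    s.1 ≠ t.2.1 → (s.1, s.2.1, t.1, t.2.1) ∈ quads := by
  intro d
  induction d with
  | zero =>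
    intro L h s hs t ht e n1 n2
    rw [chk, leaf, List.all_eq_true] at h
    have h1 := h s hs
    rw [List.all_eq_true] at h1
    have h2 := h1 t ht
    simp only [Bool.or_eq_true, Bool.not_eq_true', Nat.beq_eq, List.any_eq_true,
      Bool.and_eq_true] at h2
    rcases h2 with ((h3 | h3) | h3) | ⟨u, hu, ⟨⟨⟨h3, h4⟩, h5⟩, h6⟩⟩
    · rw [e, Nat.beq_refl] at h3; exact absurd h3 (by simp)
    · exact absurd h3 n1
    · exact absurd h3 n2
    · rw [← h3, ← h4, ← h5, ← h6]; exact hu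
  | succ d ih =>
    intro L h s hs t ht e n1 n2
    rw [chk] at h
    obtain ⟨A, B, h1, -, -, h4⟩ := splitBit_spec _ _ _ _ _ h
    rw [Bool.and_eq_true] at h1
    cases hb : s.2.2.testBit d with
    | true => exact ih A h1.1 s ((h4 s hs).1 hb) t ((h4 t ht).1 (e ▸ hb)) e n1 n2
    | false => exact ih B h1.2 s ((h4 s hs).2 hb) t ((h4 t ht).2 (e ▸ hb)) e n1 n2

theorem chk_ok : chk 12 allPairs = true := by decide +kernel

lemma mem_quads {a b c d va vb vc vd : ℕ} (ha : (a, va) ∈ vals) (hb : (b, vb) ∈ vals)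
    (hc : (c, vc) ∈ vals) (hd : (d, vd) ∈ vals)
    (e : va * vb % 1000002361 = vc * vd % 1000002361) (n1 : a ≠ c) (n2 : a ≠ d) :
    (a, b, c, d) ∈ quads :=
  chk_spec 12 allPairs chk_ok (a, b, va * vb % 1000002361)
    (List.mem_flatMap.2 ⟨_, ha, List.mem_map.2 ⟨_, hb, rfl⟩⟩) (c, d, vc * vd % 1000002361)
    (List.mem_flatMap.2 ⟨_, hc, List.mem_map.2 ⟨_, hd, rfl⟩⟩) e n1 n2

theorem vals_ok : ∀ k ∈ List.range' 1 104, ∃ s ∈ vals, s.1 = k ∧
    (132031079 ^ k + 132031079 ^ (420 - k)) % 1000002361 = s.2 := by decide +kernel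

theorem triple_ok : (quads.all fun s => quads.all fun t =>
    !(Nat.beq s.1 t.1 && Nat.beq s.2.1 t.2.1) || Nat.beq s.2.2.1 t.2.2.1 ||
      Nat.beq s.2.2.1 t.2.2.2) = true := by decide +kernel

lemma no_triple {a b c d e f : ℕ} (h1 : (a, b, c, d) ∈ quads) (h2 : (a, b, e, f) ∈ quads) :
    c = e ∨ c = f := by
  have h := triple_ok
  rw [List.all_eq_true] at h
  have h3 := h _ h1
  rw [List.all_eq_true] at h3
  simpa using h3 _ h2

def look (k : ℕ) : ℕ := (vals.getD (k - 1) (0, 0)).2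

theorem look_ok : ∀ s ∈ vals, look s.1 = s.2 := by decide +kernel

theorem cubic_ok : ∀ t ∈ quads, t.1 = t.2.1 ∨
    look t.1 * look t.1 * look t.2.2.1 % 1000002361 ≠
      look t.2.1 * look t.2.1 * look t.2.2.2 % 1000002361 := by decide +kernel

theorem nine_ok : (quads.all fun s => quads.all fun t =>
    !(Nat.beq s.1 t.1 && Nat.beq s.2.2.2 t.2.2.2) || Nat.beq s.2.2.1 t.2.2.1 ||
      quads.all fun u => !(Nat.beq s.1 u.1 && Nat.beq s.2.2.1 u.2.2.1) ||
        Nat.beq s.2.2.2 u.2.2.2 || quads.all fun v =>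
          !(Nat.beq s.1 v.1 && Nat.beq t.2.2.1 v.2.2.1 && Nat.beq u.2.2.2 v.2.2.2)) = true := by
  decide +kernel

lemma no_nine {k11 k12 k13 k21 k22 k23 k31 k32 k33 : ℕ} (h1 : (k11, k22, k12, k21) ∈ quads)
    (h2 : (k11, k23, k13, k21) ∈ quads) (h3 : (k11, k32, k12, k31) ∈ quads)
    (h4 : (k11, k33, k13, k31) ∈ quads) : k12 = k13 ∨ k21 = k31 := by
  have h := nine_ok
  rw [List.all_eq_true] at h
  have h5 := h _ h1
  rw [List.all_eq_true] at h5
  have h6 := h5 _ h2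
  simp only [Nat.beq_refl, Bool.and_self, Bool.not_true, Bool.false_or, Bool.or_eq_true,
    Nat.beq_eq, List.all_eq_true] at h6
  rcases h6 with h6 | h6
  · exact Or.inl h6
  have h7 := h6 _ h3
  simp only [Nat.beq_refl, Bool.and_self, Bool.not_true, Bool.false_eq_true, false_or] at h7
  rcases h7 with h7 | h7
  · exact Or.inr h7
  simpa using h7 _ h4

def noDiv (q : ℕ) : ℕ → Bool
  | 0 => true
  | m + 1 => !(Nat.beq (q % (m + 2)) 0) && noDiv q m

lemma noDiv_spec (q : ℕ) : ∀ n, noDiv q n = true → ∀ m < n, ¬ (m + 2) ∣ q := by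
  intro n
  induction n with
  | zero => intro _ m hm; omega
  | succ n ih =>
    intro h m hm
    rw [noDiv, Bool.and_eq_true] at h
    rcases Nat.lt_succ_iff_lt_or_eq.1 hm with h1 | rfl
    · exact ih h.2 m h1
    · intro h2
      have h3 := h.1
      rw [Nat.mod_eq_zero_of_dvd h2] at h3
      simp at h3

theorem noDiv_ok : noDiv 1000002361 31630 = true := by decide +kernel

theorem prime_q : Nat.Prime 1000002361 := by
  rw [Nat.prime_def_le_sqrt]
  refine ⟨by norm_num, fun m h2 hm => ?_⟩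
  have h3 : m < 31630 := by
    rw [Nat.le_sqrt] at hm
    by_contra h4
    have h5 : 31630 ≤ m := by omega
    have := Nat.mul_le_mul h5 h5
    omega
  have := noDiv_spec _ _ noDiv_ok (m - 2) (by omega)
  rwa [Nat.sub_add_cancel h2] at this

theorem pow_g : 132031079 ^ 420 % 1000002361 = 1 ∧ 132031079 ^ 210 % 1000002361 ≠ 1 ∧
    132031079 ^ 140 % 1000002361 ≠ 1 ∧ 132031079 ^ 84 % 1000002361 ≠ 1 ∧
    132031079 ^ 60 % 1000002361 ≠ 1 := by decide +kernel

end Pool.Agent.Lib.MP_b1882c_co
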