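import Mathlib
import Pool.Agent.Lib.MP_b1882c_co.Transfer
import Pool.Agent.Lib.MP_b1882c_co.Integral
import Pool.Agent.Lib.MP_b1882c_co.Finite

/-! From `420`-th roots of unity to the finite table, and the descent to level `420`. -/

namespace Pool.Agent.Lib.MP_b1882c_co

noncomputable def z420 : ℂ := Complex.exp (2 * Real.pi * Complex.I / (420 : ℕ))

lemma z420_prim : IsPrimitiveRoot z420 420 := Complex.isPrimitiveRoot_exp 420 (by norm_num)

def gq : ZMod 1000002361 := ((132031079 : ℕ) : ZMod 1000002361)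

lemma gq_prim : IsPrimitiveRoot gq 420 := by
  have key : ∀ n : ℕ, gq ^ n = 1 ↔ 132031079 ^ n % 1000002361 = 1 := by
    intro n
    rw [gq, ← Nat.cast_pow, ← Nat.cast_one, ZMod.natCast_eq_natCast_iff']
  obtain ⟨h1, h2, h3, h4, h5⟩ := pow_g
  have h : orderOf gq = 420 := by
    apply orderOf_eq_of_pow_and_pow_div_prime (by norm_num) ((key _).2 h1)
    intro p hp hd
    have h6 : p ∣ 2 * 2 * 3 * 5 * 7 := hd
    rw [Ne, key]
    rcases (Nat.Prime.dvd_mul hp).1 h6 with h6 | h6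
    · rcases (Nat.Prime.dvd_mul hp).1 h6 with h6 | h6
      · rcases (Nat.Prime.dvd_mul hp).1 h6 with h6 | h6
        · have : p = 2 := by
            rcases (Nat.Prime.dvd_mul hp).1 h6 with h6 | h6 <;>
              exact (Nat.prime_dvd_prime_iff_eq hp Nat.prime_two).1 h6
          subst this; exact h2
        · rw [(Nat.prime_dvd_prime_iff_eq hp Nat.prime_three).1 h6]; exact h3
      · rw [(Nat.prime_dvd_prime_iff_eq hp Nat.prime_five).1 h6]; exact h4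
    · rw [(Nat.prime_dvd_prime_iff_eq hp Nat.prime_seven).1 h6]; exact h5
  rw [← h]
  exact IsPrimitiveRoot.orderOf gq

lemma tr_eq {a a' : ℂ} {b b' : ZMod 1000002361} (h : Tr z420 gq a b) (h' : Tr z420 gq a' b')
    (e : a = a') : b = b' := by
  have : Fact (Nat.Prime 1000002361) := ⟨prime_q⟩
  exact Tr.eq (by norm_num) z420_prim (aeval_cyclotomic_of_prim (by norm_num) gq_prim) h h' e

/-- `r` is the cosine with table index `k` and residue `v` -/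
def Idx (r : ℝ) (k v : ℕ) : Prop :=
  (k, v) ∈ vals ∧ r = (z420 ^ k).re ∧ Tr z420 gq ((2 * r : ℝ) : ℂ) (v : ZMod 1000002361)

lemma z420_inv {k : ℕ} (hk : k ≤ 420) : z420 ^ (420 - k) = (z420 ^ k)⁻¹ := by
  apply eq_inv_of_mul_eq_one_left
  rw [← pow_add, Nat.sub_add_cancel hk, z420_prim.pow_eq_one]

lemma z420_norm (k : ℕ) : ‖z420 ^ k‖ = 1 := by
  rw [norm_pow, z420_prim.norm'_eq_one (by norm_num), one_pow]

lemma exists_idx {x : ℂ} (hx : x ^ 420 = 1) (h0 : 0 < x.re) (h1 : x.re < 1) :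
    ∃ k v, Idx x.re k v := by
  obtain ⟨m, hm, rfl⟩ := z420_prim.eq_pow_of_pow_eq_one hx
  obtain ⟨k, hk, e⟩ : ∃ k ≤ 210, (z420 ^ m).re = (z420 ^ k).re := by
    by_cases h : m ≤ 210
    · exact ⟨m, h, rfl⟩
    · refine ⟨420 - m, by omega, ?_⟩
      rw [z420_inv hm.le, Complex.inv_eq_conj (z420_norm m), Complex.conj_re]
  rw [e] at h0 h1 ⊢
  have hcos : (z420 ^ k).re = Real.cos (k * (2 * Real.pi / 420)) := by
    rw [z420, ← Complex.exp_nat_mul, ← Complex.exp_ofReal_mul_I_re]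
    congr 2
    push_cast; ring
  have k1 : 1 ≤ k := by
    by_contra h
    have : k = 0 := by omega
    subst this
    simp at h1
  have k2 : k ≤ 104 := by
    by_contra h
    have h2 : (105 : ℝ) ≤ k := by exact_mod_cast (by omega : 105 ≤ k)
    have h3 : (k : ℝ) ≤ 210 := by exact_mod_cast hk
    have := Real.pi_pos
    have h4 := Real.cos_nonpos_of_pi_div_two_le_of_le (x := k * (2 * Real.pi / 420))
      (by nlinarith) (by nlinarith)
    linarith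
  obtain ⟨s, hs, rfl, hv⟩ := vals_ok k (List.mem_range'_1.2 ⟨k1, by omega⟩)
  refine ⟨s.1, s.2, hs, rfl, ?_⟩
  rw [← add_inv_eq_re (z420_norm _), ← z420_inv (by omega), ← hv, ZMod.natCast_mod]
  push_cast
  exact (Tr.gen_pow _).add (Tr.gen_pow _)

lemma Idx.ne {r s : ℝ} {k l v w : ℕ} (h : Idx r k v) (h' : Idx s l w) (n : r ≠ s) : k ≠ l := by
  rintro rfl
  exact n (h.2.1.trans h'.2.1.symm)

lemma Idx.eq {r s : ℝ} {k l v w : ℕ} (h : Idx r k v) (h' : Idx s l w) (n : k = l) : r = s := by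
  by_contra hne
  exact h.ne h' hne n

lemma idx_quad {r₁ r₂ r₃ r₄ : ℝ} {k₁ k₂ k₃ k₄ v₁ v₂ v₃ v₄ : ℕ} (h₁ : Idx r₁ k₁ v₁)
    (h₂ : Idx r₂ k₂ v₂) (h₃ : Idx r₃ k₃ v₃) (h₄ : Idx r₄ k₄ v₄) (e : r₁ * r₂ = r₃ * r₄)
    (n₃ : r₁ ≠ r₃) (n₄ : r₁ ≠ r₄) : (k₁, k₂, k₃, k₄) ∈ quads := by
  refine mem_quads h₁.1 h₂.1 h₃.1 h₄.1 ?_ (h₁.ne h₃ n₃) (h₁.ne h₄ n₄)
  rw [← ZMod.natCast_eq_natCast_iff']
  push_cast
  refine tr_eq (h₁.2.2.mul h₂.2.2) (h₃.2.2.mul h₄.2.2) ?_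
  have : (2 * r₁) * (2 * r₂) = (2 * r₃) * (2 * r₄) := by linear_combination 4 * e
  exact_mod_cast this

lemma idx_cubic {r₁ r₂ r₃ r₄ : ℝ} {k₁ k₂ k₃ k₄ v₁ v₂ v₃ v₄ : ℕ} (h₁ : Idx r₁ k₁ v₁)
    (h₂ : Idx r₂ k₂ v₂) (h₃ : Idx r₃ k₃ v₃) (h₄ : Idx r₄ k₄ v₄) (hq : (k₁, k₂, k₃, k₄) ∈ quads)
    (e : r₁ * r₁ * r₃ = r₂ * r₂ * r₄) : r₁ = r₂ := by
  rcases cubic_ok _ hq with h | h
  · exact h₁.eq h₂ h
  exfalso
  apply h
  have l₁ := look_ok _ h₁.1
  have l₂ := look_ok _ h₂.1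
  have l₃ := look_ok _ h₃.1
  have l₄ := look_ok _ h₄.1
  simp only at l₁ l₂ l₃ l₄ ⊢
  rw [l₁, l₂, l₃, l₄, ← ZMod.natCast_eq_natCast_iff']
  push_cast
  refine tr_eq ((h₁.2.2.mul h₁.2.2).mul h₃.2.2) ((h₂.2.2.mul h₂.2.2).mul h₄.2.2) ?_
  have : (2 * r₁) * (2 * r₁) * (2 * r₃) = (2 * r₂) * (2 * r₂) * (2 * r₄) := by
    linear_combination 8 * e
  exact_mod_cast this

theorem descent {ι : Type} [Fintype ι] (x : ι → ℂ) (hx : ∀ i, RU (x i))
    (hodd : ∀ M p : ℕ, 0 < M → p.Prime → p ≠ 2 → (p ∣ M ∨ 11 ≤ p) →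
      (∀ i, x i ^ (M * p) = 1) → ∀ i, x i ^ M = 1)
    (htwo : ∀ m : ℕ, 0 < m → (∀ i, x i ^ (4 * m * 2) = 1) → ∀ i, x i ^ (4 * m) = 1) :
    ∀ i, x i ^ 420 = 1 := by
  classical
  have hex : ∃ N, 0 < N ∧ ∀ i, x i ^ N = 1 := by
    choose n hn hn' using hx
    refine ⟨∏ i, n i, Finset.prod_pos fun i _ => hn i, fun i => ?_⟩
    obtain ⟨c, hc⟩ := Finset.dvd_prod_of_mem n (Finset.mem_univ i)
    rw [hc, pow_mul, hn', one_pow]
  obtain ⟨hN, hN'⟩ := Nat.find_spec hex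
  have hmin : ∀ M, 0 < M → (∀ i, x i ^ M = 1) → Nat.find hex ≤ M :=
    fun M h1 h2 => Nat.find_min' hex ⟨h1, h2⟩
  generalize Nat.find hex = N at *
  have hdvd : N ∣ 420 := by
    rw [Nat.dvd_iff_prime_pow_dvd_dvd]
    intro p k hp hk
    rcases Nat.eq_zero_or_pos k with rfl | hk0
    · simp
    by_cases h2 : p = 2
    · subst h2
      by_cases h3 : k ≤ 2
      · exact (pow_dvd_pow 2 h3).trans (by norm_num)
      exfalso
      obtain ⟨m, hm⟩ : 2 ^ 3 ∣ N := (pow_dvd_pow 2 (by omega)).trans hk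
      have hm0 : 0 < m := by
        rcases Nat.eq_zero_or_pos m with rfl | h
        · omega
        · exact h
      have := hmin (4 * m) (by omega) (htwo m hm0 (by rwa [show 4 * m * 2 = N by omega]))
      omega
    obtain ⟨M, hM⟩ : p ∣ N := (dvd_pow_self p hk0.ne').trans hk
    have hM0 : 0 < M := by
      rcases Nat.eq_zero_or_pos M with rfl | h
      · omega
      · exact h
    have hno : ¬ (p ∣ M ∨ 11 ≤ p) := by
      intro hc
      have h1 := hmin M hM0 (hodd M p hM0 hp h2 hc (by rwa [mul_comm, ← hM]))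
      have h3 := hp.two_le
      nlinarith
    push Not at hno
    have hk1 : k = 1 := by
      by_contra h3
      apply hno.1
      have h4 : p ^ 2 ∣ p * M := hM ▸ (pow_dvd_pow p (by omega)).trans hk
      rw [sq] at h4
      exact Nat.dvd_of_mul_dvd_mul_left hp.pos h4
    subst hk1
    have h5 := hno.2
    have h6 := hp.two_le
    interval_cases p <;> first | (norm_num; done) | (exfalso; norm_num at hp)
  intro i
  obtain ⟨c, hc⟩ := hdvd
  rw [hc, pow_mul, hN', one_pow]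

end Pool.Agent.Lib.MP_b1882c_co
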