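import Mathlib
import Pool.Agent.Lib.MP_b1882c_co.Transfer
import Pool.Agent.Lib.MP_b1882c_co.Integral

/-! The prime two. -/

namespace Pool.Agent.Lib.MP_b1882c_co

lemma re_conj3 {N k : ℕ} (hN : 0 < N) (hk : k.Coprime N) {x₁ x₂ x₃ x₄ x₅ x₆ : ℂ}
    (h₁ : x₁ ^ N = 1) (h₂ : x₂ ^ N = 1) (h₃ : x₃ ^ N = 1) (h₄ : x₄ ^ N = 1) (h₅ : x₅ ^ N = 1)
    (h₆ : x₆ ^ N = 1) (e : x₁.re * x₂.re * x₃.re = x₄.re * x₅.re * x₆.re) :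
    (x₁ ^ k).re * (x₂ ^ k).re * (x₃ ^ k).re = (x₄ ^ k).re * (x₅ ^ k).re * (x₆ ^ k).re := by
  obtain ⟨ζ, g, t1, t2⟩ := exists_conj hN hk
  have key : ∀ x : ℂ, x ^ N = 1 →
      Tr ζ g ((2 * x.re : ℝ) : ℂ) ((2 * (x ^ k).re : ℝ) : ℂ) := by
    intro x hx
    have nx := Complex.norm_eq_one_of_pow_eq_one hx hN.ne'
    rw [← add_inv_eq_re nx, ← add_inv_eq_re (a := x ^ k) (by rw [norm_pow, nx, one_pow]),
      ← inv_pow]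
    exact (t1 x hx).add (t1 x⁻¹ (by rw [inv_pow, hx, inv_one]))
  have := t2 _ _ _ _ (((key _ h₁).mul (key _ h₂)).mul (key _ h₃))
    (((key _ h₄).mul (key _ h₅)).mul (key _ h₆)) (by
      have : (2 * x₁.re) * (2 * x₂.re) * (2 * x₃.re) = (2 * x₄.re) * (2 * x₅.re) * (2 * x₆.re) := by
        linear_combination 8 * e
      exact_mod_cast this)
  have h : (2 * (x₁ ^ k).re) * (2 * (x₂ ^ k).re) * (2 * (x₃ ^ k).re) =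
      (2 * (x₄ ^ k).re) * (2 * (x₅ ^ k).re) * (2 * (x₆ ^ k).re) := by exact_mod_cast this
  linear_combination h / 8

lemma re_conj2 {N k : ℕ} (hN : 0 < N) (hk : k.Coprime N) {x₁ x₂ x₃ x₄ : ℂ}
    (h₁ : x₁ ^ N = 1) (h₂ : x₂ ^ N = 1) (h₃ : x₃ ^ N = 1) (h₄ : x₄ ^ N = 1)
    (e : x₁.re * x₂.re = x₃.re * x₄.re) :
    (x₁ ^ k).re * (x₂ ^ k).re = (x₃ ^ k).re * (x₄ ^ k).re := by
  have := re_conj3 hN hk h₁ h₂ (one_pow N) h₃ h₄ (one_pow N) (by simpa using e)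
  simpa using this

lemma coprime_quarter (m : ℕ) : (1 + 2 * m).Coprime (4 * m * 2) := by
  have h1 : (1 + 2 * m).Coprime m := by simp
  have h2 : (1 + 2 * m).Coprime 2 := by simp
  have h3 : 4 * m * 2 = m * 2 ^ 3 := by ring
  rw [h3]
  exact h1.mul_right (h2.pow_right 3)

lemma coprime_half (m : ℕ) : (1 + 4 * m).Coprime (4 * m * 2) := by
  have h1 : (1 + 4 * m).Coprime m := by simp
  have h2 : (1 + 4 * m).Coprime 2 := by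
    rw [show 1 + 4 * m = 1 + 2 * m * 2 by ring]; simp
  have h3 : 4 * m * 2 = m * 2 ^ 3 := by ring
  rw [h3]
  exact h1.mul_right (h2.pow_right 3)

lemma twist {m : ℕ} (hm : 0 < m) {x : ℂ} (hx : x ^ (4 * m * 2) = 1) :
    (x ^ (4 * m) = 1 ∧ (x ^ (1 + 2 * m)).re ^ 2 = x.re ^ 2 ∧ (x ^ (1 + 4 * m)).re = x.re) ∨
    (x ^ (4 * m) ≠ 1 ∧ (x ^ (1 + 2 * m)).re ^ 2 = 1 - x.re ^ 2 ∧
      (x ^ (1 + 4 * m)).re = -x.re) := by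
  have nx := Complex.norm_eq_one_of_pow_eq_one hx (by omega)
  have hn : x.re ^ 2 + x.im ^ 2 = 1 := by
    have := Complex.sq_norm x
    rw [nx, Complex.normSq_apply] at this
    nlinarith
  have e1 : x ^ (4 * m) = (x ^ (2 * m)) ^ 2 := by ring
  rw [pow_mul] at hx
  rw [pow_add, pow_add, pow_one]
  rcases sq_eq_one_iff.1 hx with h | h
  · left
    refine ⟨h, ?_, by rw [h, mul_one]⟩
    rw [e1] at h
    rcases sq_eq_one_iff.1 h with h' | h' <;> rw [h'] <;> simp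
  · right
    refine ⟨by rw [h]; norm_num, ?_, by rw [h]; simp⟩
    rw [e1, ← Complex.I_sq] at h
    rcases sq_eq_sq_iff_eq_or_eq_neg.1 h with h' | h' <;> rw [h'] <;> simp <;> linarith

theorem two {m : ℕ} (hm : 0 < m) {x₁ x₂ x₃ x₄ : ℂ} (h₁ : x₁ ^ (4 * m * 2) = 1)
    (h₂ : x₂ ^ (4 * m * 2) = 1) (h₃ : x₃ ^ (4 * m * 2) = 1) (h₄ : x₄ ^ (4 * m * 2) = 1)
    (a₁ : 0 < x₁.re) (a₂ : 0 < x₂.re) (a₃ : 0 < x₃.re) (a₄ : 0 < x₄.re)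
    (e : x₁.re * x₂.re = x₃.re * x₄.re) (t₃ : x₁.re ≠ x₃.re) (t₄ : x₁.re ≠ x₄.re) :
    (x₁ ^ (4 * m) = 1 ∧ x₂ ^ (4 * m) = 1 ∧ x₃ ^ (4 * m) = 1 ∧ x₄ ^ (4 * m) = 1) ∨
    (x₁ ^ (4 * m) ≠ 1 ∧ x₂ ^ (4 * m) ≠ 1 ∧ x₃ ^ (4 * m) = 1 ∧ x₄ ^ (4 * m) = 1 ∧
      x₁.re ^ 2 + x₂.re ^ 2 = 1) ∨
    (x₁ ^ (4 * m) = 1 ∧ x₂ ^ (4 * m) = 1 ∧ x₃ ^ (4 * m) ≠ 1 ∧ x₄ ^ (4 * m) ≠ 1 ∧
      x₃.re ^ 2 + x₄.re ^ 2 = 1) := by
  have hN : 0 < 4 * m * 2 := by omega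
  have c1 := re_conj2 hN (coprime_quarter m) h₁ h₂ h₃ h₄ e
  have c2 := re_conj2 hN (coprime_half m) h₁ h₂ h₃ h₄ e
  have c3 : (x₁ ^ (1 + 2 * m)).re ^ 2 * (x₂ ^ (1 + 2 * m)).re ^ 2 =
      (x₃ ^ (1 + 2 * m)).re ^ 2 * (x₄ ^ (1 + 2 * m)).re ^ 2 := by
    rw [← mul_pow, ← mul_pow, c1]
  have hp : 0 < x₁.re * x₂.re := mul_pos a₁ a₂
  have e2 : x₁.re ^ 2 * x₂.re ^ 2 = x₃.re ^ 2 * x₄.re ^ 2 := by rw [← mul_pow, ← mul_pow, e]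
  have t₃' : x₂.re ^ 2 ≠ x₄.re ^ 2 := by
    intro h
    have h' : x₂.re = x₄.re := (pow_left_inj₀ a₂.le a₄.le two_ne_zero).1 h
    rw [h'] at e
    exact t₃ (mul_right_cancel₀ a₄.ne' e)
  have t₄' : x₂.re ^ 2 ≠ x₃.re ^ 2 := by
    intro h
    have h' : x₂.re = x₃.re := (pow_left_inj₀ a₂.le a₃.le two_ne_zero).1 h
    rw [h', mul_comm x₃.re x₄.re] at e
    exact t₄ (mul_right_cancel₀ a₃.ne' e)
  have t₃'' : x₁.re ^ 2 ≠ x₃.re ^ 2 := fun h => t₃ ((pow_left_inj₀ a₁.le a₃.le two_ne_zero).1 h)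
  have t₄'' : x₁.re ^ 2 ≠ x₄.re ^ 2 := fun h => t₄ ((pow_left_inj₀ a₁.le a₄.le two_ne_zero).1 h)
  rcases twist hm h₁ with ⟨u1, v1, w1⟩ | ⟨u1, v1, w1⟩ <;>
    rcases twist hm h₂ with ⟨u2, v2, w2⟩ | ⟨u2, v2, w2⟩ <;>
    rcases twist hm h₃ with ⟨u3, v3, w3⟩ | ⟨u3, v3, w3⟩ <;>
    rcases twist hm h₄ with ⟨u4, v4, w4⟩ | ⟨u4, v4, w4⟩ <;>
    rw [v1, v2, v3, v4] at c3 <;> rw [w1, w2, w3, w4] at c2
  · exact Or.inl ⟨u1, u2, u3, u4⟩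
  · exfalso; linarith
  · exfalso; linarith
  · exact Or.inr (Or.inr ⟨u1, u2, u3, u4, by linarith⟩)
  · exfalso; linarith
  · exact absurd (by linarith) t₃''
  · exact absurd (by linarith) t₄''
  · exfalso; linarith
  · exfalso; linarith
  · exact absurd (by linarith) t₄'
  · exact absurd (by linarith) t₃'
  · exfalso; linarith
  · exact Or.inr (Or.inl ⟨u1, u2, u3, u4, by linarith⟩)
  · exfalso; linarith
  · exfalso; linarith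
  · exfalso
    have h : (x₁.re ^ 2 - x₃.re ^ 2) * (x₁.re ^ 2 - x₄.re ^ 2) = 0 := by
      linear_combination (-x₁.re ^ 2) * c3 + (x₁.re ^ 2 - 1) * e2
    rcases mul_eq_zero.1 h with h | h
    · exact t₃'' (sub_eq_zero.1 h)
    · exact t₄'' (sub_eq_zero.1 h)

end Pool.Agent.Lib.MP_b1882c_co
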