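import Mathlib
import Pool.Agent.Lib.MP_b1882c_co.Fam
import Pool.Agent.Lib.MP_b1882c_co.Two
import Pool.Agent.Lib.MP_b1882c_co.Index

/-! The two trigonometric Diophantine systems have no solution. -/

namespace Pool.Agent.Lib.MP_b1882c_co

lemma ofNatI (n : ℕ) [n.AtLeastTwo] : IsIntegral ℤ (OfNat.ofNat n : ℂ) := isIntegral_natCast n

/-- all four or exactly one -/
def E1 (a b c d : Prop) : Prop :=
  (a ∧ b ∧ c ∧ d) ∨ (((a ∧ ¬ b) ∨ (b ∧ ¬ a)) ∧ ¬ c ∧ ¬ d) ∨ (((c ∧ ¬ d) ∨ (d ∧ ¬ c)) ∧ ¬ a ∧ ¬ b)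

/-- all four or exactly one of the two pairs -/
def E2 (a b c d : Prop) : Prop :=
  (a ∧ b ∧ c ∧ d) ∨ (¬ a ∧ ¬ b ∧ c ∧ d) ∨ (a ∧ b ∧ ¬ c ∧ ¬ d)

lemma E1_nine (z : Fin 3 → Fin 3 → Prop)
    (h : ∀ i i' j j', i ≠ i' → j ≠ j' → E1 (z i j) (z i' j') (z i j') (z i' j)) : ∀ i j, z i j := by
  have h1 := h 0 1 0 1 (by decide) (by decide)
  have h2 := h 0 1 0 2 (by decide) (by decide)
  have h3 := h 0 1 1 2 (by decide) (by decide)
  have h4 := h 0 2 0 1 (by decide) (by decide)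
  have h5 := h 0 2 0 2 (by decide) (by decide)
  have h6 := h 0 2 1 2 (by decide) (by decide)
  have h7 := h 1 2 0 1 (by decide) (by decide)
  have h8 := h 1 2 0 2 (by decide) (by decide)
  have h9 := h 1 2 1 2 (by decide) (by decide)
  clear h
  simp only [Fin.forall_fin_succ, IsEmpty.forall_iff, and_true]
  change (z 0 0 ∧ z 0 1 ∧ z 0 2) ∧ (z 1 0 ∧ z 1 1 ∧ z 1 2) ∧ (z 2 0 ∧ z 2 1 ∧ z 2 2)
  unfold E1 at *
  grind (splits := 60)

lemma E2_nine (z : Fin 3 → Fin 3 → Prop)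
    (h : ∀ i i' j j', i ≠ i' → j ≠ j' → E2 (z i j) (z i' j') (z i j') (z i' j)) : ∀ i j, z i j := by
  have h1 := h 0 1 0 1 (by decide) (by decide)
  have h2 := h 0 1 0 2 (by decide) (by decide)
  have h3 := h 0 1 1 2 (by decide) (by decide)
  have h4 := h 0 2 0 1 (by decide) (by decide)
  have h5 := h 0 2 0 2 (by decide) (by decide)
  have h6 := h 0 2 1 2 (by decide) (by decide)
  have h7 := h 1 2 0 1 (by decide) (by decide)
  have h8 := h 1 2 0 2 (by decide) (by decide)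
  have h9 := h 1 2 1 2 (by decide) (by decide)
  clear h
  simp only [Fin.forall_fin_succ, IsEmpty.forall_iff, and_true]
  change (z 0 0 ∧ z 0 1 ∧ z 0 2) ∧ (z 1 0 ∧ z 1 1 ∧ z 1 2) ∧ (z 2 0 ∧ z 2 1 ∧ z 2 2)
  unfold E2 at *
  grind (splits := 60)

/-- There is no rank one `3 × 3` matrix of cosines of rational acute angles with distinct rows
and columns. -/
theorem no_nine_cos (x : Fin 3 → Fin 3 → ℂ) (hx : ∀ i j, RU (x i j)) (h0 : ∀ i j, 0 < (x i j).re)
    (h1 : ∀ i j, (x i j).re < 1)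
    (hr : ∀ i i' j j', (x i j).re * (x i' j').re = (x i j').re * (x i' j).re)
    (hc : ∀ i j j', j ≠ j' → (x i j).re ≠ (x i j').re)
    (hl : ∀ i i' j, i ≠ i' → (x i j).re ≠ (x i' j).re) : False := by
  have hN := descent (ι := Fin 3 × Fin 3) (fun t => x t.1 t.2) (fun t => hx _ _)
    (by
      intro M p hM hp hp2 hcond hpow t
      refine E1_nine (fun i j => x i j ^ M = 1) (fun i i' j j' hi hj => ?_) t.1 t.2
      rcases fam hM hp hp2 hcond (hpow (i, j)) (hpow (i', j')) (hpow (i, j')) (hpow (i', j))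
        (h0 _ _) (h0 _ _) (h0 _ _) (h0 _ _) (hr i i' j j') (hc _ _ _ hj) (hl _ _ _ hi)
        with h | h | h
      · exact Or.inl h
      · unfold FamT at h; unfold E1; tauto
      · unfold FamT at h; unfold E1; tauto)
    (by
      intro m hm hpow t
      refine E2_nine (fun i j => x i j ^ (4 * m) = 1) (fun i i' j j' hi hj => ?_) t.1 t.2
      have := two hm (hpow (i, j)) (hpow (i', j')) (hpow (i, j')) (hpow (i', j))
        (h0 _ _) (h0 _ _) (h0 _ _) (h0 _ _) (hr i i' j j') (hc _ _ _ hj) (hl _ _ _ hi)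
      unfold E2; tauto)
  have hi : ∀ i j, ∃ k v, Idx (x i j).re k v := fun i j => exists_idx (hN (i, j)) (h0 _ _) (h1 _ _)
  choose k v hkv using hi
  have hq : ∀ i j, i ≠ 0 → j ≠ 0 → (k 0 0, k i j, k 0 j, k i 0) ∈ quads := fun i j hi hj =>
    idx_quad (hkv _ _) (hkv _ _) (hkv _ _) (hkv _ _) (hr 0 i 0 j) (hc _ _ _ hj.symm)
      (hl _ _ _ hi.symm)
  rcases no_nine (hq 1 1 (by decide) (by decide)) (hq 1 2 (by decide) (by decide))
    (hq 2 1 (by decide) (by decide)) (hq 2 2 (by decide) (by decide)) with h | h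
  · exact (hkv _ _).ne (hkv _ _) (hc 0 1 2 (by decide)) h
  · exact (hkv _ _).ne (hkv _ _) (hl 1 2 0 (by decide)) h

lemma no_cubic {x : ℂ} (hx : RU x) : 4 * x.re ^ 2 + (4 * x.re ^ 2) ^ 3 ≠ 4 := by
  intro h
  have x0 := hx.ne_zero
  have e := add_inv_eq_re hx.norm
  have h1 : (x + x⁻¹) ^ 2 + ((x + x⁻¹) ^ 2) ^ 3 = 4 := by
    rw [e]
    have : (2 * x.re) ^ 2 + ((2 * x.re) ^ 2) ^ 3 = 4 := by linear_combination h
    exact_mod_cast this
  have h2 : (1 - -x ^ 12) / 2 = -(3 * x ^ 10 + 8 * x ^ 8 + 9 * x ^ 6 + 8 * x ^ 4 + 3 * x ^ 2) := by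
    field_simp at h1
    linear_combination h1 / 2
  have hI := hx.isIntegral
  have h3 : IsIntegral ℤ ((1 - -x ^ 12) / 2) := by
    rw [h2]
    exact ((((((ofNatI 3).mul (hI.pow 10)).add ((ofNatI 8).mul (hI.pow 8))).add
      ((ofNatI 9).mul (hI.pow 6))).add ((ofNatI 8).mul (hI.pow 4))).add
      ((ofNatI 3).mul (hI.pow 2))).neg
  have h4 : (x ^ 6 + (x ^ 6)⁻¹) = (x + x⁻¹) ^ 6 - 6 * (x + x⁻¹) ^ 4 + 9 * (x + x⁻¹) ^ 2 - 2 := by
    field_simp; ring
  have h5 : (x ^ 6 + (x ^ 6)⁻¹) ^ 2 = 0 ∨ (x ^ 6 + (x ^ 6)⁻¹) ^ 2 = 4 := by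
    rcases half (hx.pow 12).neg h3 with h6 | h6
    · left; field_simp; linear_combination (x ^ 12 + 1) * (-h6)
    · right; field_simp; linear_combination (x ^ 12 - 1) * (-h6)
  rw [h4, e] at h5
  set s := 4 * x.re ^ 2 with hs
  have h6 : (((2 * x.re : ℝ) : ℂ) ^ 6 - 6 * ((2 * x.re : ℝ) : ℂ) ^ 4 + 9 * ((2 * x.re : ℝ) : ℂ) ^ 2 - 2)
      = ((s ^ 3 - 6 * s ^ 2 + 9 * s - 2 : ℝ) : ℂ) := by rw [hs]; push_cast; ring
  rw [h6] at h5
  have hs0 : 0 ≤ s := by positivity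
  have hs1 : 1.3 < s := by
    by_contra h7
    have h8 : s ≤ 1.3 := not_lt.1 h7
    have := pow_le_pow_left₀ hs0 h8 3
    norm_num at this h8
    linarith
  have hs2 : s < 1.4 := by
    by_contra h7
    have h8 : 1.4 ≤ s := not_lt.1 h7
    have := pow_le_pow_left₀ (by norm_num) h8 3
    norm_num at this h8
    linarith
  have h9 : s ^ 3 - 6 * s ^ 2 + 9 * s - 2 = -6 * s ^ 2 + 8 * s + 2 := by linear_combination h
  rw [h9] at h5
  rcases h5 with h5 | h5
  · have h10 : (-6 * s ^ 2 + 8 * s + 2) ^ 2 = 0 := by exact_mod_cast h5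
    have := pow_eq_zero_iff (two_ne_zero) |>.1 h10
    nlinarith
  · have h10 : (-6 * s ^ 2 + 8 * s + 2) ^ 2 = 4 := by exact_mod_cast h5
    have h11 : s * (4 - 3 * s) * (-6 * s ^ 2 + 8 * s + 4) = 0 := by linear_combination h10 / 2
    rcases mul_eq_zero.1 h11 with h12 | h12
    · rcases mul_eq_zero.1 h12 with h13 | h13
      · linarith
      · have : s = 4 / 3 := by linarith
        rw [this] at h; norm_num at h
    · nlinarith

lemma no_quartic {x : ℂ} (hx : RU x) : (4 * x.re ^ 2) ^ 3 * (4 - 4 * x.re ^ 2) ≠ 1 := by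
  intro h
  have x0 := hx.ne_zero
  have e := add_inv_eq_re hx.norm
  have h1 : ((x + x⁻¹) ^ 2) ^ 3 * (4 - (x + x⁻¹) ^ 2) = 1 := by
    rw [e]
    have : ((2 * x.re) ^ 2) ^ 3 * (4 - (2 * x.re) ^ 2) = 1 := by linear_combination h
    exact_mod_cast this
  have h2 : (1 - -x ^ 24) / 2 = (x ^ 8 + 1) * (-2 * x ^ 14 - 2 * x ^ 12 + 2 * x ^ 10 + 4 * x ^ 8 +
      2 * x ^ 6 - 2 * x ^ 4 - 2 * x ^ 2) := by
    field_simp at h1
    linear_combination (-(x ^ 8 + 1) / 2) * h1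
  have hI := hx.isIntegral
  have h2' : IsIntegral ℤ (2 : ℂ) := ofNatI 2
  have h3 : IsIntegral ℤ ((1 - -x ^ 24) / 2) := by
    rw [h2]
    exact ((hI.pow 8).add isIntegral_one).mul
      (((((((h2'.neg.mul (hI.pow 14)).sub (h2'.mul (hI.pow 12))).add (h2'.mul (hI.pow 10))).add
        ((ofNatI 4).mul (hI.pow 8))).add (h2'.mul (hI.pow 6))).sub
        (h2'.mul (hI.pow 4))).sub (h2'.mul (hI.pow 2)))
  have h4 : (x ^ 8 + (x ^ 8)⁻¹) = ((x + x⁻¹) ^ 2) ^ 4 - 8 * ((x + x⁻¹) ^ 2) ^ 3 +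
      20 * ((x + x⁻¹) ^ 2) ^ 2 - 16 * (x + x⁻¹) ^ 2 + 2 := by
    field_simp; ring
  have h5 : ((x ^ 8 + (x ^ 8)⁻¹) + 2) * ((x ^ 8 + (x ^ 8)⁻¹) - 1) ^ 2 = 0 ∨
      ((x ^ 8 + (x ^ 8)⁻¹) - 2) * ((x ^ 8 + (x ^ 8)⁻¹) + 1) ^ 2 = 0 := by
    rcases half (hx.pow 24).neg h3 with h6 | h6
    · left; field_simp; linear_combination (x ^ 24 + 1) * (-h6)
    · right; field_simp; linear_combination (x ^ 24 - 1) * (-h6)
  rw [h4, e] at h5
  set s := 4 * x.re ^ 2 with hs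
  have h6 : ((((2 * x.re : ℝ) : ℂ) ^ 2) ^ 4 - 8 * (((2 * x.re : ℝ) : ℂ) ^ 2) ^ 3 +
      20 * (((2 * x.re : ℝ) : ℂ) ^ 2) ^ 2 - 16 * ((2 * x.re : ℝ) : ℂ) ^ 2 + 2)
      = ((s ^ 4 - 8 * s ^ 3 + 20 * s ^ 2 - 16 * s + 2 : ℝ) : ℂ) := by rw [hs]; push_cast; ring
  rw [h6] at h5
  have h7 : (s ^ 4 - 8 * s ^ 3 + 20 * s ^ 2 - 16 * s + 2 + 2) *
      (s ^ 4 - 8 * s ^ 3 + 20 * s ^ 2 - 16 * s + 2 - 1) ^ 2 = 0 ∨
      (s ^ 4 - 8 * s ^ 3 + 20 * s ^ 2 - 16 * s + 2 - 2) *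
      (s ^ 4 - 8 * s ^ 3 + 20 * s ^ 2 - 16 * s + 2 + 1) ^ 2 = 0 := by exact_mod_cast h5
  have h8 : (1 : ℝ) = 0 := by
    rcases h7 with h7 | h7 <;> rcases mul_eq_zero.1 h7 with h8 | h8
    · linear_combination ((1275/49) + (-3312/49) * s + (1612/49) * s ^ 2 + (-220/49) * s ^ 3) * h +
        ((331/49) + (496/49) * s + (732/49) * s ^ 2 + (-220/49) * s ^ 3) * h8
    · have h9 := pow_eq_zero_iff two_ne_zero |>.1 h8
      linear_combination ((-9/8) + (15/8) * s + (-7/8) * s ^ 2 + (1/8) * s ^ 3) * h +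
        ((-1/8) + (-1/8) * s + (-3/8) * s ^ 2 + (1/8) * s ^ 3) * h9
    · linear_combination ((-1) + (272/225) * s + (-28/75) * s ^ 2 + (4/225) * s ^ 3) * h +
        ((-17/225) + (-16/225) * s + (-68/225) * s ^ 2 + (4/225) * s ^ 3) * h8
    · have h9 := pow_eq_zero_iff two_ne_zero |>.1 h8
      linear_combination ((-55/26) + (172/39) * s + (-27/13) * s ^ 2 + (11/39) * s ^ 3) * h +
        ((-29/78) + (-20/39) * s + (-37/39) * s ^ 2 + (11/39) * s ^ 3) * h9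
  exact one_ne_zero h8

lemma swap_sq {a b c d : ℝ} (ha : 0 < a) (hb : 0 < b) (hc : 0 < c) (e : a ^ 2 * c = b ^ 2 * d)
    (e' : b ^ 2 * c = a ^ 2 * d) : a = b := by
  have h : (a ^ 2 - b ^ 2) * ((a ^ 2 + b ^ 2) * c) = 0 := by
    linear_combination a ^ 2 * e - b ^ 2 * e'
  have h1 : (a ^ 2 + b ^ 2) * c ≠ 0 := by positivity
  exact (pow_left_inj₀ ha.le hb.le two_ne_zero).1
    (sub_eq_zero.1 ((mul_eq_zero.1 h).resolve_right h1))

theorem no_hex_distinct {u₁ v₁ u₂ v₂ u₃ v₃ : ℂ}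
    (hx : ∀ i, RU (![u₁, v₁, u₂, v₂, u₃, v₃] i)) (h0 : ∀ i, 0 < (![u₁, v₁, u₂, v₂, u₃, v₃] i).re)
    (h1 : ∀ i, (![u₁, v₁, u₂, v₂, u₃, v₃] i).re < 1)
    (e12 : u₁.re * v₁.re = u₂.re * v₂.re) (e13 : u₁.re * v₁.re = u₃.re * v₃.re)
    (e : u₁.re * u₂.re * u₃.re = v₁.re * v₂.re * v₃.re)
    (n1 : u₁.re ≠ v₁.re) (n2 : u₂.re ≠ v₂.re) (n3 : u₃.re ≠ v₃.re)
    (m12 : u₁.re ≠ u₂.re) (l12 : u₁.re ≠ v₂.re) (m13 : u₁.re ≠ u₃.re) (l13 : u₁.re ≠ v₃.re)
    (m23 : u₂.re ≠ u₃.re) (l23 : u₂.re ≠ v₃.re) : False := by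
  have e23 := e12.symm.trans e13
  have a0 : 0 < u₁.re := h0 0
  have a1 : 0 < v₁.re := h0 1
  have a2 : 0 < u₂.re := h0 2
  have a3 : 0 < v₂.re := h0 3
  have a4 : 0 < u₃.re := h0 4
  have a5 : 0 < v₃.re := h0 5
  have hN := descent (ι := Fin 6) _ hx
    (by
      intro M p hM hp hp2 hcond hpow
      have f12 := fam hM hp hp2 hcond (hpow 0) (hpow 1) (hpow 2) (hpow 3) a0 a1 a2 a3 e12 m12 l12
      have f13 := fam hM hp hp2 hcond (hpow 0) (hpow 1) (hpow 4) (hpow 5) a0 a1 a4 a5 e13 m13 l13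
      have f23 := fam hM hp hp2 hcond (hpow 2) (hpow 3) (hpow 4) (hpow 5) a2 a3 a4 a5 e23 m23 l23
      simp only [Fin.forall_fin_succ, IsEmpty.forall_iff, and_true, Fin.succ_zero_eq_one]
      simp only [FamT, Matrix.cons_val] at f12 f13 f23
      change u₁ ^ M = 1 ∧ v₁ ^ M = 1 ∧ u₂ ^ M = 1 ∧ v₂ ^ M = 1 ∧ u₃ ^ M = 1 ∧ v₃ ^ M = 1
      tauto)
    (by
      intro m hm hpow
      have f12 := two hm (hpow 0) (hpow 1) (hpow 2) (hpow 3) a0 a1 a2 a3 e12 m12 l12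
      have f13 := two hm (hpow 0) (hpow 1) (hpow 4) (hpow 5) a0 a1 a4 a5 e13 m13 l13
      have f23 := two hm (hpow 2) (hpow 3) (hpow 4) (hpow 5) a2 a3 a4 a5 e23 m23 l23
      have c := re_conj3 (by omega) (coprime_quarter m) (hpow 0) (hpow 2) (hpow 4) (hpow 1) (hpow 3)
        (hpow 5) e
      have t0 := twist hm (hpow 0)
      have t1 := twist hm (hpow 1)
      have t2 := twist hm (hpow 2)
      have t3 := twist hm (hpow 3)
      have t4 := twist hm (hpow 4)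
      have t5 := twist hm (hpow 5)
      simp only [Fin.forall_fin_succ, IsEmpty.forall_iff, and_true, Fin.succ_zero_eq_one]
      simp only [Matrix.cons_val] at f12 f13 f23 c t0 t1 t2 t3 t4 t5
      change u₁ ^ (4 * m) = 1 ∧ v₁ ^ (4 * m) = 1 ∧ u₂ ^ (4 * m) = 1 ∧ v₂ ^ (4 * m) = 1 ∧
        u₃ ^ (4 * m) = 1 ∧ v₃ ^ (4 * m) = 1
      have c2 : (u₁ ^ (1 + 2 * m)).re ^ 2 * (u₂ ^ (1 + 2 * m)).re ^ 2 * (u₃ ^ (1 + 2 * m)).re ^ 2 =
          (v₁ ^ (1 + 2 * m)).re ^ 2 * (v₂ ^ (1 + 2 * m)).re ^ 2 * (v₃ ^ (1 + 2 * m)).re ^ 2 := by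
        rw [← mul_pow, ← mul_pow, c, mul_pow, mul_pow]
      have e2 : u₁.re ^ 2 * u₂.re ^ 2 * u₃.re ^ 2 = v₁.re ^ 2 * v₂.re ^ 2 * v₃.re ^ 2 := by
        rw [← mul_pow, ← mul_pow, e, mul_pow, mul_pow]
      have ev : ∀ {x : ℂ} {A B : Prop}, (x ^ (4 * m) = 1 ∧ A) ∨ (x ^ (4 * m) ≠ 1 ∧ B) →
          x ^ (4 * m) = 1 → A := fun h h' => h.elim (fun h => h.2) fun h => absurd h' h.1
      have od : ∀ {x : ℂ} {A B : Prop}, (x ^ (4 * m) = 1 ∧ A) ∨ (x ^ (4 * m) ≠ 1 ∧ B) →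
          x ^ (4 * m) ≠ 1 → B := fun h h' => h.elim (fun h => absurd h.1 h') fun h => h.2
      rcases f12 with f12 | f12 | f12
      · rcases f13 with f13 | f13 | f13
        · exact ⟨f12.1, f12.2.1, f12.2.2.1, f12.2.2.2, f13.2.2.1, f13.2.2.2⟩
        · exact absurd f12.1 f13.1
        · exfalso
          rw [(ev t0 f12.1).1, (ev t1 f12.2.1).1, (ev t2 f12.2.2.1).1, (ev t3 f12.2.2.2).1,
            (od t4 f13.2.2.1).1, (od t5 f13.2.2.2.1).1] at c2
          have k := f13.2.2.2.2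
          exact n3 (swap_sq (c := u₁.re ^ 2 * u₂.re ^ 2) (d := v₁.re ^ 2 * v₂.re ^ 2) a4 a5
            (by positivity) (by linear_combination e2)
            (by linear_combination c2 + (u₁.re ^ 2 * u₂.re ^ 2 - v₁.re ^ 2 * v₂.re ^ 2) * k))
      · rcases f13 with f13 | f13 | f13
        · exact absurd f13.1 f12.1
        · exfalso
          rw [(od t0 f12.1).1, (od t1 f12.2.1).1, (ev t2 f12.2.2.1).1, (ev t3 f12.2.2.2.1).1,
            (ev t4 f13.2.2.1).1, (ev t5 f13.2.2.2.1).1] at c2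
          have k := f12.2.2.2.2
          exact n1 (swap_sq (c := u₂.re ^ 2 * u₃.re ^ 2) (d := v₂.re ^ 2 * v₃.re ^ 2) a0 a1
            (by positivity) (by linear_combination e2)
            (by linear_combination c2 + (u₂.re ^ 2 * u₃.re ^ 2 - v₂.re ^ 2 * v₃.re ^ 2) * k))
        · exact absurd f13.1 f12.1
      · rcases f23 with f23 | f23 | f23
        · exact absurd f23.1 f12.2.2.1
        · exfalso
          rw [(ev t0 f12.1).1, (ev t1 f12.2.1).1, (od t2 f12.2.2.1).1, (od t3 f12.2.2.2.1).1,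
            (ev t4 f23.2.2.1).1, (ev t5 f23.2.2.2.1).1] at c2
          have k := f12.2.2.2.2
          exact n2 (swap_sq (c := u₁.re ^ 2 * u₃.re ^ 2) (d := v₁.re ^ 2 * v₃.re ^ 2) a2 a3
            (by positivity) (by linear_combination e2)
            (by linear_combination c2 + (u₁.re ^ 2 * u₃.re ^ 2 - v₁.re ^ 2 * v₃.re ^ 2) * k))
        · exact absurd f23.1 f12.2.2.1)
  have hi : ∀ i, ∃ k v, Idx (![u₁, v₁, u₂, v₂, u₃, v₃] i).re k v :=
    fun i => exists_idx (hN i) (h0 _) (h1 _)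
  choose k v hkv using hi
  rcases no_triple (idx_quad (hkv 0) (hkv 1) (hkv 2) (hkv 3) e12 m12 l12)
    (idx_quad (hkv 0) (hkv 1) (hkv 4) (hkv 5) e13 m13 l13) with h | h
  · exact (hkv 2).ne (hkv 4) m23 h
  · exact (hkv 2).ne (hkv 5) l23 h

theorem no_hex_double {u v u' v' : ℂ}
    (hx : ∀ i, RU (![u, v, u', v'] i)) (h0 : ∀ i, 0 < (![u, v, u', v'] i).re)
    (h1 : ∀ i, (![u, v, u', v'] i).re < 1)
    (e1 : u.re * v.re = u'.re * v'.re) (e : u.re * u.re * u'.re = v.re * v.re * v'.re)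
    (n : u.re ≠ v.re) : False := by
  have a0 : 0 < u.re := h0 0
  have a1 : 0 < v.re := h0 1
  have a2 : 0 < u'.re := h0 2
  have a3 : 0 < v'.re := h0 3
  have r0 : RU u := hx 0
  have r1 : RU v := hx 1
  have r2 : RU u' := hx 2
  have r3 : RU v' := hx 3
  have m : u.re ≠ u'.re := by
    intro h
    rw [← h] at e1 e
    have h2 := mul_left_cancel₀ a0.ne' e1
    rw [← h2] at e
    exact n ((pow_left_inj₀ a0.le a1.le three_ne_zero).1 (by linear_combination e))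
  have l : u.re ≠ v'.re := by
    intro h
    rw [← h, mul_comm u'.re] at e1
    have h2 := mul_left_cancel₀ a0.ne' e1
    rw [← h2, ← h] at e
    have h3 : u.re * v.re * (u.re - v.re) = 0 := by linear_combination e
    exact n (sub_eq_zero.1 ((mul_eq_zero.1 h3).resolve_left (by positivity)))
  have hN := descent (ι := Fin 4) _ hx
    (by
      intro M p hM hp hp2 hcond hpow
      have f := fam hM hp hp2 hcond (hpow 0) (hpow 1) (hpow 2) (hpow 3) a0 a1 a2 a3 e1 m l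
      simp only [Fin.forall_fin_succ, IsEmpty.forall_iff, and_true, Fin.succ_zero_eq_one]
      simp only [FamT, Matrix.cons_val] at f
      change u ^ M = 1 ∧ v ^ M = 1 ∧ u' ^ M = 1 ∧ v' ^ M = 1
      rcases f with f | ⟨f | f, -, -, k⟩ | ⟨f | f, -, -, k⟩
      · exact f
      all_goals exfalso
      · have h := f.2.1
        rw [h] at e1 e
        have h2 : v.re = 2 * u'.re * v'.re := by linear_combination 2 * e1
        rw [h2] at e
        have h3 : u'.re * (16 * u'.re * v'.re ^ 3 - 1) = 0 := by linear_combination (-4) * e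
        have h4 := (mul_eq_zero.1 h3).resolve_left a2.ne'
        apply no_quartic r3
        linear_combination (16 * u'.re * v'.re ^ 3 + 1) * h4 - 256 * v'.re ^ 6 * k
      · have h := f.2.1
        rw [h] at e1 e
        have h2 : u.re = 2 * u'.re * v'.re := by linear_combination 2 * e1
        rw [h2] at e
        have h3 : v'.re * (16 * v'.re * u'.re ^ 3 - 1) = 0 := by linear_combination 4 * e
        have h4 := (mul_eq_zero.1 h3).resolve_left a3.ne'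
        apply no_quartic r2
        linear_combination (16 * v'.re * u'.re ^ 3 + 1) * h4 - 256 * u'.re ^ 6 * k
      · have h := f.2.1
        rw [h] at e1 e
        have h2 : v'.re = 2 * u.re * v.re := by linear_combination (-2) * e1
        rw [h2] at e
        have h3 : u.re * (u.re - 4 * v.re ^ 3) = 0 := by linear_combination 2 * e
        have h4 := (mul_eq_zero.1 h3).resolve_left a0.ne'
        apply no_cubic r1
        linear_combination 4 * k - 4 * (u.re + 4 * v.re ^ 3) * h4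
      · have h := f.2.1
        rw [h] at e1 e
        have h2 : u'.re = 2 * u.re * v.re := by linear_combination (-2) * e1
        rw [h2] at e
        have h3 : v.re * (v.re - 4 * u.re ^ 3) = 0 := by linear_combination (-2) * e
        have h4 := (mul_eq_zero.1 h3).resolve_left a1.ne'
        apply no_cubic r0
        linear_combination 4 * k - 4 * (v.re + 4 * u.re ^ 3) * h4)
    (by
      intro m' hm hpow
      have f := two hm (hpow 0) (hpow 1) (hpow 2) (hpow 3) a0 a1 a2 a3 e1 m l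
      have c := re_conj3 (by omega) (coprime_quarter m') (hpow 0) (hpow 0) (hpow 2) (hpow 1)
        (hpow 1) (hpow 3) e
      have t0 := twist hm (hpow 0)
      have t1 := twist hm (hpow 1)
      have t2 := twist hm (hpow 2)
      have t3 := twist hm (hpow 3)
      simp only [Fin.forall_fin_succ, IsEmpty.forall_iff, and_true, Fin.succ_zero_eq_one]
      simp only [Matrix.cons_val] at f c t0 t1 t2 t3
      change u ^ (4 * m') = 1 ∧ v ^ (4 * m') = 1 ∧ u' ^ (4 * m') = 1 ∧ v' ^ (4 * m') = 1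
      have c2 : (u ^ (1 + 2 * m')).re ^ 2 * (u ^ (1 + 2 * m')).re ^ 2 * (u' ^ (1 + 2 * m')).re ^ 2 =
          (v ^ (1 + 2 * m')).re ^ 2 * (v ^ (1 + 2 * m')).re ^ 2 * (v' ^ (1 + 2 * m')).re ^ 2 := by
        rw [← mul_pow, ← mul_pow, c, mul_pow, mul_pow]
      have e2 : u.re ^ 2 * u.re ^ 2 * u'.re ^ 2 = v.re ^ 2 * v.re ^ 2 * v'.re ^ 2 := by
        rw [← mul_pow, ← mul_pow, e, mul_pow, mul_pow]
      have ev : ∀ {x : ℂ} {A B : Prop}, (x ^ (4 * m') = 1 ∧ A) ∨ (x ^ (4 * m') ≠ 1 ∧ B) →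
          x ^ (4 * m') = 1 → A := fun h h' => h.elim (fun h => h.2) fun h => absurd h' h.1
      have od : ∀ {x : ℂ} {A B : Prop}, (x ^ (4 * m') = 1 ∧ A) ∨ (x ^ (4 * m') ≠ 1 ∧ B) →
          x ^ (4 * m') ≠ 1 → B := fun h h' => h.elim (fun h => absurd h.1 h') fun h => h.2
      rcases f with f | f | f
      · exact f
      · exfalso
        rw [(od t0 f.1).1, (od t1 f.2.1).1, (ev t2 f.2.2.1).1, (ev t3 f.2.2.2.1).1] at c2
        have k := f.2.2.2.2
        have k1 : 1 - u.re ^ 2 = v.re ^ 2 := by linear_combination -k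
        have k2 : 1 - v.re ^ 2 = u.re ^ 2 := by linear_combination -k
        rw [k1, k2] at c2
        have := swap_sq (a := u.re ^ 2) (b := v.re ^ 2) (c := u'.re ^ 2) (d := v'.re ^ 2)
          (by positivity) (by positivity) (by positivity) (by linear_combination e2)
          (by linear_combination c2)
        exact n ((pow_left_inj₀ a0.le a1.le two_ne_zero).1 this)
      · exfalso
        rw [(ev t0 f.1).1, (ev t1 f.2.1).1, (od t2 f.2.2.1).1, (od t3 f.2.2.2.1).1] at c2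
        have k := f.2.2.2.2
        have k1 : 1 - u'.re ^ 2 = v'.re ^ 2 := by linear_combination -k
        have k2 : 1 - v'.re ^ 2 = u'.re ^ 2 := by linear_combination -k
        rw [k1, k2] at c2
        have h2 := swap_sq (a := u'.re) (b := v'.re) (c := u.re ^ 2 * u.re ^ 2)
          (d := v.re ^ 2 * v.re ^ 2) a2 a3 (by positivity) (by linear_combination e2)
          (by linear_combination c2)
        rw [h2] at e
        have h3 := mul_right_cancel₀ a3.ne' e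
        exact n ((pow_left_inj₀ a0.le a1.le two_ne_zero).1 (by linear_combination h3)))
  have hi : ∀ i, ∃ k w, Idx (![u, v, u', v'] i).re k w :=
    fun i => exists_idx (hN i) (h0 _) (h1 _)
  choose k w hkv using hi
  exact n (idx_cubic (hkv 0) (hkv 1) (hkv 2) (hkv 3)
    (idx_quad (hkv 0) (hkv 1) (hkv 2) (hkv 3) e1 m l) e)

end Pool.Agent.Lib.MP_b1882c_co
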