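import Mathlib
import Pool.Agent.Lib.MP_b1882c_co.Trig
import Pool.Agent.Lib.MP_b1882c_co.Kron

/-! Real-number versions of the arithmetic obstructions. -/

open scoped ComplexConjugate

namespace Pool.Agent.Lib.MP_b1882c_co

/-- cosine of a rational angle -/
def RC (r : ℝ) : Prop := ∃ e : ℂ, RU e ∧ e.re = r

lemma RC.mem_KK {r : ℝ} (h : RC r) : (r : ℂ) ∈ KK := by
  obtain ⟨e, he, rfl⟩ := h
  exact he.re_mem_KK

lemma RC.integral {r : ℝ} (h : RC r) : IsIntegral ℤ ((2 * r : ℝ) : ℂ) := by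
  obtain ⟨e, he, rfl⟩ := h
  rw [← add_inv_eq_re he.norm]
  exact he.isIntegral.add he.inv.isIntegral

lemma eq_or_conj {a b : ℂ} (hn : ‖a‖ = ‖b‖) (hr : a.re = b.re) : a = b ∨ a = conj b := by
  have h1 := Complex.sq_norm a
  have h2 := Complex.sq_norm b
  rw [hn, h2, Complex.normSq_apply, Complex.normSq_apply, hr] at h1
  have h3 : (a.im - b.im) * (a.im + b.im) = 0 := by linear_combination -h1
  rcases mul_eq_zero.1 h3 with h4 | h4
  · exact Or.inl (Complex.ext hr (by linarith))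
  · exact Or.inr (Complex.ext (by simpa using hr) (by simp; linarith))

lemma RC.ru {e : ℂ} (he : ‖e‖ = 1) (h : RC e.re) : RU e := by
  obtain ⟨e', h1, h2⟩ := h
  rcases eq_or_conj (he.trans h1.norm.symm) h2.symm with h3 | h3
  · exact h3 ▸ h1
  · rw [h3, ← Complex.inv_eq_conj h1.norm]; exact h1.inv

/-- equal up to inversion and roots of unity -/
def Sim (A B : ℂ) : Prop := RU (A / B) ∨ RU (A * B)

lemma Sim.re {e z : ℂ} (he : ‖e‖ = 1) (hz : ‖z‖ = 1) (h : Sim (e ^ 2) (z ^ 2)) :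
    ∃ ζ : ℂ, RU ζ ∧ e.re = (z * ζ).re := by
  have z0 : z ≠ 0 := by rintro rfl; simp at hz
  have e0 : e ≠ 0 := by rintro rfl; simp at he
  rcases h with h | h
  · refine ⟨e / z, RU.of_pow two_pos (by rwa [div_pow]), ?_⟩
    congr 1; field_simp
  · refine ⟨(e * z)⁻¹, (RU.of_pow two_pos (by rwa [mul_pow])).inv, ?_⟩
    have : z * (e * z)⁻¹ = conj e := by rw [← Complex.inv_eq_conj he]; field_simp
    rw [this, Complex.conj_re]

lemma Sim.symm {A B : ℂ} (h : Sim A B) : Sim B A := by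
  rcases h with h | h
  · exact Or.inl (by rw [← inv_div]; exact h.inv)
  · exact Or.inr (by rwa [mul_comm])

lemma Sim.trans {A B C : ℂ} (hB : B ≠ 0) (h : Sim A B) (h' : Sim B C) : Sim A C := by
  rcases h with h | h <;> rcases h' with h' | h'
  · exact Or.inl (by have := h.mul h'; rwa [div_mul_div_cancel₀ hB] at this)
  · exact Or.inr (by
      have := h.mul h'
      rwa [← mul_assoc, div_mul_cancel₀ _ hB] at this)
  · exact Or.inr (by
      have := h.div h'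
      have e : A * B / (B / C) = A * C := by
        rw [div_div_eq_mul_div]; field_simp
      rwa [e] at this)
  · exact Or.inl (by
      have := h.div h'
      have e : A * B / (B * C) = A / C := by
        rw [mul_comm A B, mul_div_mul_left _ _ hB]
      rwa [e] at this)

lemma Sim.ru {A B : ℂ} (h : Sim A B) (hB : RU B) : RU A := by
  rcases h with h | h
  · have := h.mul hB
    rwa [div_mul_cancel₀ _ hB.ne_zero] at this
  · have := h.div hB
    rwa [mul_div_cancel_right₀ _ hB.ne_zero] at this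

lemma cos_mul_cos' {a b c : ℝ} (ha : RC a) (hb : RC b) (hc : RC c) (ha0 : 0 < a) (ha1 : a < 1)
    (hb0 : 0 < b) (hb1 : b < 1) (h : a * b = c) : a ^ 2 = 1 / 2 := by
  obtain ⟨x, hx, rfl⟩ := ha
  obtain ⟨y, hy, rfl⟩ := hb
  obtain ⟨z, hz, rfl⟩ := hc
  exact cos_mul_cos hx hy hz ha0 ha1 hb0 hb1 h

lemma hex_double {u v u' v' : ℝ} (r1 : RC u) (r2 : RC v) (r3 : RC u') (r4 : RC v')
    (p1 : 0 < u) (p2 : 0 < v) (p3 : 0 < u') (p4 : 0 < v')
    (q1 : u < 1) (q2 : v < 1) (q3 : u' < 1) (q4 : v' < 1)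
    (e1 : u * v = u' * v') (e : u * u * u' = v * v * v') (n : u ≠ v) : False := by
  obtain ⟨x1, h1, rfl⟩ := r1
  obtain ⟨x2, h2, rfl⟩ := r2
  obtain ⟨x3, h3, rfl⟩ := r3
  obtain ⟨x4, h4, rfl⟩ := r4
  refine no_hex_double (u := x1) (v := x2) (u' := x3) (v' := x4) ?_ ?_ ?_ e1 e n <;> intro i <;>
    fin_cases i <;> assumption

lemma hex {c u₁ v₁ u₂ v₂ u₃ v₃ : ℝ} (hc : 0 < c) (r1 : RC u₁) (r2 : RC v₁) (r3 : RC u₂)
    (r4 : RC v₂) (r5 : RC u₃) (r6 : RC v₃) (p1 : 0 < u₁) (p2 : 0 < v₁) (p3 : 0 < u₂) (p4 : 0 < v₂)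
    (p5 : 0 < u₃) (p6 : 0 < v₃) (q1 : u₁ < 1) (q2 : v₁ < 1) (q3 : u₂ < 1) (q4 : v₂ < 1)
    (q5 : u₃ < 1) (q6 : v₃ < 1) (e1 : u₁ * v₁ = c ^ 2) (e2 : u₂ * v₂ = c ^ 2)
    (e3 : u₃ * v₃ = c ^ 2) (eu : u₁ * u₂ * u₃ = c ^ 3) (ev : v₁ * v₂ * v₃ = c ^ 3)
    (n1 : u₁ ≠ c) (n2 : u₂ ≠ c) (n3 : u₃ ≠ c) : False := by
  have key : ∀ u v : ℝ, 0 < u → u * v = c ^ 2 → u ≠ c → u ≠ v := by
    rintro u v hu e n rfl
    exact n ((pow_left_inj₀ hu.le hc.le two_ne_zero).1 (by linear_combination e))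
  have key2 : ∀ a b b' d : ℝ, b * b' = c ^ 2 → a * b * d = c ^ 3 → d ≠ c → a ≠ b' := by
    rintro a b b' d e e' n rfl
    apply n
    have : c ^ 2 * (d - c) = 0 := by linear_combination e' - d * e
    exact sub_eq_zero.1 ((mul_eq_zero.1 this).resolve_left (by positivity))
  by_cases m12 : u₁ = u₂
  · have : v₁ = v₂ := mul_left_cancel₀ p1.ne' (by rw [e1, m12, e2])
    subst m12 this
    exact hex_double r1 r2 r5 r6 p1 p2 p5 p6 q1 q2 q5 q6 (e1.trans e3.symm) (eu.trans ev.symm)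
      (key _ _ p1 e1 n1)
  by_cases m13 : u₁ = u₃
  · have : v₁ = v₃ := mul_left_cancel₀ p1.ne' (by rw [e1, m13, e3])
    subst m13 this
    exact hex_double r1 r2 r3 r4 p1 p2 p3 p4 q1 q2 q3 q4 (e1.trans e2.symm)
      (by linear_combination eu - ev) (key _ _ p1 e1 n1)
  by_cases m23 : u₂ = u₃
  · have : v₂ = v₃ := mul_left_cancel₀ p3.ne' (by rw [e2, m23, e3])
    subst m23 this
    exact hex_double r3 r4 r1 r2 p3 p4 p1 p2 q3 q4 q1 q2 (e2.trans e1.symm)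
      (by linear_combination eu - ev) (key _ _ p3 e2 n2)
  have l12 := key2 u₁ u₂ v₂ u₃ e2 eu n3
  have l13 := key2 u₁ u₃ v₃ u₂ e3 (by linear_combination eu) n2
  have l23 := key2 u₂ u₃ v₃ u₁ e3 (by linear_combination eu) n1
  have k1 := key _ _ p1 e1 n1
  have k2 := key _ _ p3 e2 n2
  have k3 := key _ _ p5 e3 n3
  obtain ⟨x1, h1, rfl⟩ := r1
  obtain ⟨x2, h2, rfl⟩ := r2
  obtain ⟨x3, h3, rfl⟩ := r3
  obtain ⟨x4, h4, rfl⟩ := r4
  obtain ⟨x5, h5, rfl⟩ := r5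
  obtain ⟨x6, h6, rfl⟩ := r6
  refine no_hex_distinct (u₁ := x1) (v₁ := x2) (u₂ := x3) (v₂ := x4) (u₃ := x5) (v₃ := x6)
    ?_ ?_ ?_ (e1.trans e2.symm) (e1.trans e3.symm) (eu.trans ev.symm) k1 k2 k3 m12 l12 m13 l13
    m23 l23 <;> intro i <;> fin_cases i <;> assumption

lemma third : ∀ i j : Fin 3, ∃ k, k ≠ i ∧ k ≠ j := by decide

/-- The final obstruction when there is no tangent incidence. -/
theorem final_A (a b : Fin 3 → ℝ) (ha : ∀ i, 0 < a i) (hb : ∀ j, 0 < b j)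
    (ia : Function.Injective a) (ib : Function.Injective b) (h1 : ∀ i j, a i * b j < 1)
    (hoff : ∀ i j, i ≠ j → RC (a i * b j)) {z : ℂ} (hz : ‖z‖ = 1)
    (hdiag : ∀ i, ∃ ζ : ℂ, RU ζ ∧ a i * b i = (z * ζ).re) : False := by
  have hp : ∀ i j, 0 < a i * b j := fun i j => mul_pos (ha i) (hb j)
  have hc : ∀ i j j', j ≠ j' → a i * b j ≠ a i * b j' :=
    fun i j j' hj h => hj (ib (mul_left_cancel₀ (ha i).ne' h))
  have hl : ∀ i i' j, i ≠ i' → a i * b j ≠ a i' * b j :=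
    fun i i' j hi h => hi (ia (mul_right_cancel₀ (hb j).ne' h))
  by_cases hall : ∀ i j, a i * b i = a j * b j
  · have e1 := hall 1 0
    have e2 := hall 2 0
    refine hex (c := a 0 * b 0) (u₁ := a 0 * b 1) (v₁ := a 1 * b 0) (u₂ := a 1 * b 2)
      (v₂ := a 2 * b 1) (u₃ := a 2 * b 0) (v₃ := a 0 * b 2) (hp _ _)
      (hoff _ _ (by decide)) (hoff _ _ (by decide)) (hoff _ _ (by decide)) (hoff _ _ (by decide))
      (hoff _ _ (by decide)) (hoff _ _ (by decide)) (hp _ _) (hp _ _) (hp _ _) (hp _ _) (hp _ _)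
      (hp _ _) (h1 _ _) (h1 _ _) (h1 _ _) (h1 _ _) (h1 _ _) (h1 _ _) ?_ ?_ ?_ ?_ ?_
      (hc _ _ _ (by decide)) (e1 ▸ hc _ _ _ (by decide)) (hl _ _ _ (by decide))
    · linear_combination (a 0 * b 0) * e1
    · linear_combination (a 2 * b 2) * e1 + (a 0 * b 0) * e2
    · linear_combination (a 0 * b 0) * e2
    · linear_combination (a 0 * b 0) * (a 2 * b 2) * e1 + (a 0 * b 0) ^ 2 * e2
    · linear_combination (a 0 * b 0) * (a 2 * b 2) * e1 + (a 0 * b 0) ^ 2 * e2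
  push Not at hall
  obtain ⟨i, j, hij⟩ := hall
  have hne : i ≠ j := by rintro rfl; exact hij rfl
  obtain ⟨k, hki, hkj⟩ := third i j
  obtain ⟨ζi, ri, ei⟩ := hdiag i
  obtain ⟨ζj, rj, ej⟩ := hdiag j
  have hK : ∀ s t : Fin 3, s ≠ t → ((a s * b t : ℝ) : ℂ) ∈ KK := fun s t h => (hoff s t h).mem_KK
  have e : a i * b i * ((a j * b k) * (a k * b j)) = a j * b j * ((a i * b k) * (a k * b i)) := by
    ring
  have hzr : RU z := by
    refine free_angle (β := (a j * b k) * (a k * b j)) (γ := (a i * b k) * (a k * b i)) hz rj ri rj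
      (mul_pos (hp _ _) (hp _ _)) (mul_pos (hp _ _) (hp _ _)) ?_ ?_ ?_ (by rw [← ei, ← ej, e]) ?_
    · intro h
      rw [h] at e
      exact hij (mul_right_cancel₀ (mul_pos (hp _ _) (hp _ _)).ne' e)
    · rw [Complex.ofReal_mul]; exact mul_mem (hK _ _ hkj.symm) (hK _ _ hkj)
    · rw [Complex.ofReal_mul]; exact mul_mem (hK _ _ hki.symm) (hK _ _ hki)
    · rw [← ei, ← ej]
      have : ((4 * (a j * b j) * (a i * b i) : ℝ) : ℂ) =
          ((2 * (a i * b j) : ℝ) : ℂ) * ((2 * (a j * b i) : ℝ) : ℂ) := by push_cast; ring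
      rw [this]
      exact (hoff _ _ hne).integral.mul (hoff _ _ hne.symm).integral
  have hall : ∀ i j, RC (a i * b j) := by
    intro s t
    by_cases h : s = t
    · subst h
      obtain ⟨ζ, h2, h3⟩ := hdiag s
      exact ⟨z * ζ, hzr.mul h2, h3.symm⟩
    · exact hoff s t h
  choose x hx hx' using hall
  refine no_nine_cos x hx ?_ ?_ ?_ ?_ ?_ <;> simp only [hx']
  · exact hp
  · exact h1
  · intro i i' j j'; ring
  · exact hc
  · exact hl

end Pool.Agent.Lib.MP_b1882c_co
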