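import Mathlib
import Pool.Agent.Lib.MP_b1882c_co.Alg

/-! Configurations of points and poles of lines in the complex plane. -/

open scoped ComplexConjugate

namespace Pool.Agent.Lib.MP_b1882c_co

/-- incidence of a point and the pole of a line -/
def inc (x q : ℂ) : Prop := (q * conj x).re = 1

lemma inc_comm {x q : ℂ} : inc x q ↔ inc q x := by
  unfold inc
  simp only [Complex.mul_re, Complex.conj_re, Complex.conj_im]
  constructor <;> intro h <;> linarith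

lemma inc.ne_left {x q : ℂ} (h : inc x q) : x ≠ 0 := by rintro rfl; simp [inc] at h

lemma inc.ne_right {x q : ℂ} (h : inc x q) : q ≠ 0 := by rintro rfl; simp [inc] at h

/-- square of the direction -/
noncomputable def dir (z : ℂ) : ℂ := z / conj z

lemma dir_norm {z : ℂ} (h : z ≠ 0) : ‖dir z‖ = 1 := by
  rw [dir, norm_div, Complex.norm_conj, div_self (norm_ne_zero_iff.2 h)]

lemma dir_ne {z : ℂ} (h : z ≠ 0) : dir z ≠ 0 := by
  intro h1; have := dir_norm h; simp [h1] at this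

lemma dir_rot {h z : ℂ} (hh : ‖h‖ = 1) : dir (h * z) = h ^ 2 * dir z := by
  have h0 : h ≠ 0 := by rintro rfl; simp at hh
  rw [dir, dir, map_mul, ← Complex.inv_eq_conj hh]
  simp only [div_eq_mul_inv, mul_inv, inv_inv]; ring

lemma dir_refl {u z : ℂ} (hu : ‖u‖ = 1) : dir (u * conj z) = u ^ 2 / dir z := by
  rw [dir_rot hu, dir, dir, Complex.conj_conj, div_div_eq_mul_div, mul_div_assoc]

lemma inc_rot {h x q : ℂ} (hh : ‖h‖ = 1) (hi : inc x q) : inc (h * x) (h * q) := by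
  have h0 : h ≠ 0 := by rintro rfl; simp at hh
  unfold inc at *
  rw [map_mul, ← Complex.inv_eq_conj hh, ← hi]
  congr 1; field_simp

lemma inc_refl {u x q : ℂ} (hu : ‖u‖ = 1) (hi : inc x q) : inc (u * conj x) (u * conj q) := by
  apply inc_rot hu
  unfold inc at *
  rw [← map_mul, Complex.conj_re, hi]

lemma inc_mirror {x q : ℂ} (hi : inc x q) : inc x (dir x * conj q) := by
  have x0 := hi.ne_left
  have := inc_refl (dir_norm x0) hi
  rwa [dir, div_mul_cancel₀ _ ((map_ne_zero _).2 x0)] at this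

lemma inc_two {x q q' : ℂ} (h : inc x q) (h' : inc x q') (hn : ‖q'‖ = ‖q‖) :
    q' = q ∨ q' = dir x * conj q := by
  have x0 : conj x ≠ 0 := (map_ne_zero _).2 h.ne_left
  rcases eq_or_conj (a := q' * conj x) (b := q * conj x) (by simp [hn]) (h'.trans h.symm)
    with h1 | h1
  · exact Or.inl (mul_right_cancel₀ x0 h1)
  · right
    rw [map_mul, Complex.conj_conj] at h1
    rw [dir]; field_simp; linear_combination h1

lemma inc_ge {x q : ℂ} (h : inc x q) : 1 ≤ ‖q‖ * ‖x‖ := by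
  have := Complex.re_le_norm (q * conj x)
  rwa [h, norm_mul, Complex.norm_conj] at this

lemma inc_tangent {x q : ℂ} (h : inc x q) (ht : ‖q‖ * ‖x‖ = 1) : q * conj x = 1 := by
  rcases eq_or_conj (a := q * conj x) (b := 1) (by simp [ht]) (by rw [h]; simp) with h1 | h1
  · exact h1
  · simpa using h1

lemma tangent_of_fixed {x q : ℂ} (h : inc x q) (hf : dir x * conj q = q) : ‖q‖ * ‖x‖ = 1 := by
  have x0 : conj x ≠ 0 := (map_ne_zero _).2 h.ne_left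
  have h1 : conj (q * conj x) = q * conj x := by
    rw [map_mul, Complex.conj_conj]
    rw [dir] at hf
    field_simp at hf
    linear_combination hf
  have h2 : q * conj x = 1 := by
    rw [← Complex.conj_eq_iff_re.1 h1, h]; simp
  have := congrArg (fun z => ‖z‖) h2
  simpa using this

lemma mirror_eq {x q : ℂ} (h : inc x q) : dir x * conj q = (dir q / dir x)⁻¹ * q := by
  have x0 := h.ne_left
  have q0 := h.ne_right
  have x1 : conj x ≠ 0 := (map_ne_zero _).2 x0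
  have q1 : conj q ≠ 0 := (map_ne_zero _).2 q0
  simp only [dir]; field_simp

lemma exists_unit {x q : ℂ} (h : inc x q) :
    ∃ e : ℂ, ‖e‖ = 1 ∧ e.re = ‖q‖⁻¹ * ‖x‖⁻¹ ∧ e ^ 2 = dir q / dir x := by
  have x0 := h.ne_left
  have q0 := h.ne_right
  have x1 : conj x ≠ 0 := (map_ne_zero _).2 x0
  have q1 : conj q ≠ 0 := (map_ne_zero _).2 q0
  have n1 : ‖q‖ ≠ 0 := norm_ne_zero_iff.2 q0
  have n2 : ‖x‖ ≠ 0 := norm_ne_zero_iff.2 x0
  refine ⟨((‖q‖⁻¹ * ‖x‖⁻¹ : ℝ) : ℂ) * (q * conj x), ?_, ?_, ?_⟩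
  · simp only [norm_mul, Complex.norm_real, Complex.norm_conj, norm_inv, norm_norm]
    field_simp
  · rw [Complex.re_ofReal_mul, h, mul_one]
  · have e1 : ((‖q‖ : ℝ) : ℂ) ^ 2 = q * conj q := by
      rw [Complex.mul_conj, Complex.normSq_eq_norm_sq]; push_cast; rfl
    have e2 : ((‖x‖ : ℝ) : ℂ) ^ 2 = x * conj x := by
      rw [Complex.mul_conj, Complex.normSq_eq_norm_sq]; push_cast; rfl
    have e3 : (((‖q‖⁻¹ * ‖x‖⁻¹ : ℝ) : ℂ)) ^ 2 = (q * conj q)⁻¹ * (x * conj x)⁻¹ := by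
      rw [← e1, ← e2]; push_cast; ring
    rw [mul_pow, e3]
    simp only [dir]; field_simp

/-- same orbit -/
def Orb (H R : Set ℂ) (z z' : ℂ) : Prop := (∃ h ∈ H, z' = h * z) ∨ ∃ u ∈ R, z' = u * conj z

/-- The data of a `5`-configuration with at most three orbits of points and of lines. -/
structure Cfg where
  P : Set ℂ
  W : Set ℂ
  H : Set ℂ
  R : Set ℂ
  p : Fin 3 → ℂ
  w : Fin 3 → ℂ
  H_ru : ∀ h ∈ H, RU h
  H_mul : ∀ h ∈ H, ∀ h' ∈ H, h * h' ∈ H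
  H_inv : ∀ h ∈ H, h⁻¹ ∈ H
  R_norm : ∀ u ∈ R, ‖u‖ = 1
  R_div : ∀ u ∈ R, ∀ u' ∈ R, u / u' ∈ H
  HR : ∀ h ∈ H, ∀ u ∈ R, h * u ∈ R
  HP : ∀ h ∈ H, ∀ q ∈ P, h * q ∈ P
  RP : ∀ u ∈ R, ∀ q ∈ P, u * conj q ∈ P
  HW : ∀ h ∈ H, ∀ q ∈ W, h * q ∈ W
  RW : ∀ u ∈ R, ∀ q ∈ W, u * conj q ∈ W
  pP : ∀ i, p i ∈ P
  wW : ∀ i, w i ∈ W
  orbP : ∀ q ∈ P, ∃ i, Orb H R (p i) q
  orbW : ∀ q ∈ W, ∃ i, Orb H R (w i) q
  cardP : ∀ x ∈ W, {q ∈ P | inc x q}.ncard = 5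
  cardW : ∀ x ∈ P, {q ∈ W | inc x q}.ncard = 5

namespace Cfg

/-- exchange of points and lines -/
def dual (C : Cfg) : Cfg :=
  { C with
    P := C.W, W := C.P, p := C.w, w := C.p, HP := C.HW, RP := C.RW, HW := C.HP, RW := C.RP,
    pP := C.wW, wW := C.pP, orbP := C.orbW, orbW := C.orbP, cardP := C.cardW, cardW := C.cardP }

variable (C : Cfg)

lemma orb_norm {z z' : ℂ} (h : Orb C.H C.R z z') : ‖z'‖ = ‖z‖ := by
  rcases h with ⟨h, hh, rfl⟩ | ⟨u, hu, rfl⟩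
  · rw [norm_mul, (C.H_ru h hh).norm, one_mul]
  · rw [norm_mul, C.R_norm u hu, one_mul, Complex.norm_conj]

lemma orb_euclid {z z' z'' : ℂ} (h : Orb C.H C.R z z') (h' : Orb C.H C.R z z'') :
    Orb C.H C.R z' z'' := by
  rcases h with ⟨h, hh, rfl⟩ | ⟨u, hu, rfl⟩ <;> rcases h' with ⟨h', hh', rfl⟩ | ⟨u', hu', rfl⟩
  · have := (C.H_ru h hh).ne_zero
    exact Or.inl ⟨h' * h⁻¹, C.H_mul _ hh' _ (C.H_inv _ hh), by field_simp⟩
  · have := (C.H_ru h hh).ne_zero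
    refine Or.inr ⟨h * u', C.HR _ hh _ hu', ?_⟩
    rw [map_mul, ← Complex.inv_eq_conj (C.H_ru h hh).norm]; field_simp
  · have n := C.R_norm u hu
    have : u ≠ 0 := by rintro rfl; simp at n
    refine Or.inr ⟨h' * u, C.HR _ hh' _ hu, ?_⟩
    rw [map_mul, Complex.conj_conj, ← Complex.inv_eq_conj n]; field_simp
  · have n := C.R_norm u hu
    have : u ≠ 0 := by rintro rfl; simp at n
    exact Or.inl ⟨u' / u, C.R_div _ hu' _ hu, by field_simp⟩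

/-- points of class `i` on the line with pole `x` -/
def N (i : Fin 3) (x : ℂ) : Set ℂ := {q ∈ C.P | inc x q ∧ ‖q‖ = ‖C.p i‖}

lemma N_le (i : Fin 3) (x : ℂ) : (C.N i x).Finite ∧ (C.N i x).ncard ≤ 2 := by
  rcases (C.N i x).eq_empty_or_nonempty with h | ⟨q, hq⟩
  · rw [h]; simp
  have hsub : C.N i x ⊆ {q, dir x * conj q} := fun q' hq' =>
    inc_two hq.2.1 hq'.2.1 (hq'.2.2.trans hq.2.2.symm)
  exact ⟨(Set.toFinite _).subset hsub,
    (Set.ncard_le_ncard hsub).trans ((Set.ncard_insert_le _ _).trans (by simp))⟩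

lemma cover (x : ℂ) {i j k : Fin 3} (h : ∀ l, l = i ∨ l = j ∨ l = k) :
    {q ∈ C.P | inc x q} = C.N i x ∪ C.N j x ∪ C.N k x := by
  ext q
  constructor
  · rintro ⟨h1, h2⟩
    obtain ⟨l, hl⟩ := C.orbP q h1
    rcases h l with rfl | rfl | rfl
    · exact Or.inl (Or.inl ⟨h1, h2, C.orb_norm hl⟩)
    · exact Or.inl (Or.inr ⟨h1, h2, C.orb_norm hl⟩)
    · exact Or.inr ⟨h1, h2, C.orb_norm hl⟩
  · rintro ((h1 | h1) | h1) <;> exact ⟨h1.1, h1.2.1⟩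

lemma five_le {x : ℂ} (hx : x ∈ C.W) {i j k : Fin 3} (h : ∀ l, l = i ∨ l = j ∨ l = k) :
    5 ≤ (C.N i x).ncard + (C.N j x).ncard + (C.N k x).ncard := by
  rw [← C.cardP x hx, C.cover x h]
  exact (Set.ncard_union_le _ _).trans (Nat.add_le_add_right (Set.ncard_union_le _ _) _)

lemma third' : ∀ i j : Fin 3, i ≠ j → ∃ k, ∀ l, l = i ∨ l = j ∨ l = k := by decide

lemma third'' : ∀ i : Fin 3, ∃ j k, ∀ l, l = i ∨ l = j ∨ l = k := by decide

lemma r_inj {i j : Fin 3} (h : ‖C.p i‖ = ‖C.p j‖) : i = j := by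
  by_contra hne
  obtain ⟨k, hk⟩ := third' i j hne
  have h1 := C.cardP _ (C.wW 0)
  have h2 : C.N j (C.w 0) = C.N i (C.w 0) := by simp only [N, h]
  rw [C.cover _ hk, h2, Set.union_self] at h1
  have h3 := Set.ncard_union_le (C.N i (C.w 0)) (C.N k (C.w 0))
  have h4 := (C.N_le i (C.w 0)).2
  have h5 := (C.N_le k (C.w 0)).2
  omega

lemma orb_of_norm {i : Fin 3} {q : ℂ} (hq : q ∈ C.P) (h : ‖q‖ = ‖C.p i‖) :
    Orb C.H C.R (C.p i) q := by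
  obtain ⟨l, hl⟩ := C.orbP q hq
  rwa [C.r_inj ((C.orb_norm hl).symm.trans h)] at hl

lemma N_nonempty {x : ℂ} (hx : x ∈ C.W) (i : Fin 3) : (C.N i x).Nonempty := by
  obtain ⟨j, k, h⟩ := third'' i
  have h1 := C.five_le hx h
  have h4 := (C.N_le j x).2
  have h5 := (C.N_le k x).2
  exact Set.nonempty_of_ncard_ne_zero (by omega)

/-- lines of class `j` carry two points of class `i` -/
def A2 (i j : Fin 3) : Prop :=
  ∃ x ∈ C.W, ‖x‖ = ‖C.w j‖ ∧ ∃ q ∈ C.N i x, ∃ q' ∈ C.N i x, q ≠ q'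

lemma A2_all {i j : Fin 3} (h : C.A2 i j) {x : ℂ} (hx : x ∈ C.W) (hn : ‖x‖ = ‖C.w j‖) :
    ∃ q ∈ C.N i x, ∃ q' ∈ C.N i x, q ≠ q' := by
  obtain ⟨y, hy, hyn, q, hq, q', hq', hne⟩ := h
  rcases C.orb_euclid (C.dual.orb_of_norm hy hyn) (C.dual.orb_of_norm hx hn) with
    ⟨h, hh, rfl⟩ | ⟨u, hu, rfl⟩
  · have n := (C.H_ru h hh).norm
    refine ⟨h * q, ⟨C.HP _ hh _ hq.1, inc_rot n hq.2.1, by simp [n, hq.2.2]⟩,
      h * q', ⟨C.HP _ hh _ hq'.1, inc_rot n hq'.2.1, by simp [n, hq'.2.2]⟩, fun e => hne ?_⟩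
    exact mul_left_cancel₀ (C.H_ru h hh).ne_zero e
  · have n := C.R_norm u hu
    have u0 : u ≠ 0 := by rintro rfl; simp at n
    refine ⟨u * conj q, ⟨C.RP _ hu _ hq.1, inc_refl n hq.2.1, by simp [n, hq.2.2]⟩,
      u * conj q', ⟨C.RP _ hu _ hq'.1, inc_refl n hq'.2.1, by simp [n, hq'.2.2]⟩, fun e => hne ?_⟩
    exact (starRingEnd ℂ).injective (mul_left_cancel₀ u0 e)

lemma notA2_unique {i i' j : Fin 3} (h : ¬ C.A2 i j) (h' : ¬ C.A2 i' j) : i = i' := by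
  by_contra hne
  obtain ⟨k, hk⟩ := third' i i' hne
  have h1 := C.five_le (C.wW j) hk
  have key : ∀ l, ¬ C.A2 l j → (C.N l (C.w j)).ncard ≤ 1 := by
    intro l hl
    rw [Set.ncard_le_one (C.N_le _ _).1]
    intro a ha b hb
    by_contra hab
    exact hl ⟨_, C.wW j, rfl, a, ha, b, hb, hab⟩
  have h2 := key i h
  have h3 := key i' h'
  have h4 := (C.N_le k (C.w j)).2
  omega

lemma exists_notA2 (j : Fin 3) : ∃ i, ¬ C.A2 i j := by
  by_contra hall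
  push Not at hall
  have key : ∀ l, 2 ≤ (C.N l (C.w j)).ncard := by
    intro l
    obtain ⟨q, hq, q', hq', hne⟩ := C.A2_all (hall l) (C.wW j) rfl
    exact (Set.one_lt_ncard (C.N_le _ _).1).2 ⟨q, hq, q', hq', hne⟩
  have hd : ∀ l l', l ≠ l' → Disjoint (C.N l (C.w j)) (C.N l' (C.w j)) := by
    intro l l' hne
    rw [Set.disjoint_left]
    intro a ha ha'
    exact hne (C.r_inj (ha.2.2.symm.trans ha'.2.2))
  have h1 := C.cardP _ (C.wW j)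
  rw [C.cover _ (i := 0) (j := 1) (k := 2) (by decide),
    Set.ncard_union_eq (Set.disjoint_union_left.2 ⟨hd _ _ (by decide), hd _ _ (by decide)⟩)
      ((C.N_le _ _).1.union (C.N_le _ _).1) (C.N_le _ _).1,
    Set.ncard_union_eq (hd _ _ (by decide)) (C.N_le _ _).1 (C.N_le _ _).1] at h1
  have := key 0
  have := key 1
  have := key 2
  omega

lemma mirror_mem {i j : Fin 3} (h : C.A2 i j) {x q : ℂ} (hx : x ∈ C.W) (hn : ‖x‖ = ‖C.w j‖)
    (hq : q ∈ C.N i x) : dir x * conj q ∈ C.P ∧ dir x * conj q ≠ q := by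
  obtain ⟨a, ha, b, hb, hne⟩ := C.A2_all h hx hn
  have h1 := inc_two hq.2.1 ha.2.1 (ha.2.2.trans hq.2.2.symm)
  have h2 := inc_two hq.2.1 hb.2.1 (hb.2.2.trans hq.2.2.symm)
  rcases h1 with h1 | h1 <;> rcases h2 with h2 | h2
  · exact absurd (h1.trans h2.symm) hne
  · exact ⟨h2 ▸ hb.1, fun e => hne (h1.trans (h2.trans e).symm)⟩
  · exact ⟨h1 ▸ ha.1, fun e => hne ((h1.trans e).trans h2.symm)⟩
  · exact absurd (h1.trans h2.symm) hne

lemma rot_or_refl {i j : Fin 3} (h : C.A2 i j) {x q : ℂ} (hx : x ∈ C.W) (hn : ‖x‖ = ‖C.w j‖)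
    (hq : q ∈ C.N i x) : dir q / dir x ∈ C.H ∨ dir x ∈ C.R := by
  have h1 := (C.mirror_mem h hx hn hq).1
  have h2 : ‖dir x * conj q‖ = ‖C.p i‖ := by simp [dir_norm hq.2.1.ne_left, hq.2.2]
  rcases C.orb_euclid (C.orb_of_norm hq.1 hq.2.2) (C.orb_of_norm h1 h2) with
    ⟨h, hh, e⟩ | ⟨u, hu, e⟩
  · left
    rw [mirror_eq hq.2.1] at e
    rw [← inv_inv (dir q / dir x), mul_right_cancel₀ hq.2.1.ne_right e]
    exact C.H_inv _ hh
  · right
    rwa [mul_right_cancel₀ ((map_ne_zero _).2 hq.2.1.ne_right) e]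

lemma tangent_of_mem {i j : Fin 3} (h : ¬ C.A2 i j) {x q : ℂ} (hx : x ∈ C.W)
    (hn : ‖x‖ = ‖C.w j‖) (hq : q ∈ C.N i x) (hm : dir x * conj q ∈ C.P) :
    ‖C.p i‖ * ‖C.w j‖ = 1 := by
  rw [← hn, ← hq.2.2]
  apply tangent_of_fixed hq.2.1
  by_contra hne
  exact h ⟨x, hx, hn, _, ⟨hm, inc_mirror hq.2.1, by simp [dir_norm hq.2.1.ne_left, hq.2.2]⟩,
    q, hq, hne⟩

lemma tangent_of_refl {j : Fin 3} {x : ℂ} (hx : x ∈ C.W) (hn : ‖x‖ = ‖C.w j‖)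
    (hR : dir x ∈ C.R) : ∃ i, ‖C.p i‖ * ‖C.w j‖ = 1 := by
  obtain ⟨i, hi⟩ := C.exists_notA2 j
  obtain ⟨q, hq⟩ := C.N_nonempty hx i
  exact ⟨i, C.tangent_of_mem hi hx hn hq (C.RP _ hR _ hq.1)⟩

lemma one_le (i j : Fin 3) : 1 ≤ ‖C.p i‖ * ‖C.w j‖ := by
  obtain ⟨q, hq⟩ := C.N_nonempty (C.wW j) i
  rw [← hq.2.2]
  exact inc_ge hq.2.1

lemma notA2_of_tangent {i j : Fin 3} (ht : ‖C.p i‖ * ‖C.w j‖ = 1) : ¬ C.A2 i j := by
  rintro ⟨x, -, hn, q, hq, q', hq', hne⟩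
  have h1 := inc_tangent hq.2.1 (by rw [hq.2.2, hn, ht])
  have h2 := inc_tangent hq'.2.1 (by rw [hq'.2.2, hn, ht])
  exact hne (mul_right_cancel₀ ((map_ne_zero _).2 hq.2.1.ne_left) (h1.trans h2.symm))

lemma refl_of_A2_notB2 {i j : Fin 3} (h : C.A2 i j) (h' : ¬ C.dual.A2 j i) : dir (C.w j) ∈ C.R := by
  obtain ⟨q, hq⟩ := C.N_nonempty (C.wW j) i
  obtain ⟨h1, h3⟩ := C.mirror_mem h (C.wW j) rfl hq
  have x0 := hq.2.1.ne_left
  have h2 : ‖dir (C.w j) * conj q‖ = ‖C.p i‖ := by simp [dir_norm x0, hq.2.2]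
  have uniq : ∀ y ∈ C.W, ‖y‖ = ‖C.w j‖ → inc y (dir (C.w j) * conj q) → y = C.w j := by
    intro y hy hyn hi
    by_contra hne
    exact h' ⟨_, h1, h2, y, ⟨hy, inc_comm.1 hi, hyn⟩, C.w j,
      ⟨C.wW j, inc_comm.1 (inc_mirror hq.2.1), rfl⟩, hne⟩
  rcases C.orb_euclid (C.orb_of_norm hq.1 hq.2.2) (C.orb_of_norm h1 h2) with
    ⟨h, hh, e⟩ | ⟨u, hu, e⟩
  · exfalso
    have n := (C.H_ru h hh).norm
    have := uniq _ (C.HW _ hh _ (C.wW j)) (by simp [n]) (e ▸ inc_rot n hq.2.1)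
    have h4 : h = 1 := mul_right_cancel₀ x0 (this.trans (one_mul _).symm)
    exact h3 (by rw [e, h4, one_mul])
  · rwa [mul_right_cancel₀ ((map_ne_zero _).2 hq.2.1.ne_right) e]

end Cfg

end Pool.Agent.Lib.MP_b1882c_co
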