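import Mathlib
import Pool.Agent.Lib.MP_b1882c_co.Cfg

/-! No configuration data exist. -/

open scoped ComplexConjugate

namespace Pool.Agent.Lib.MP_b1882c_co

namespace Cfg

variable (C : Cfg)

lemma p_ne (i : Fin 3) : C.p i ≠ 0 := by
  obtain ⟨q, hq⟩ := C.dual.N_nonempty (C.pP i) 0
  exact hq.2.1.ne_left

lemma w_ne (j : Fin 3) : C.w j ≠ 0 := C.dual.p_ne j

lemma a_pos (i : Fin 3) : 0 < ‖C.p i‖⁻¹ := inv_pos.2 (norm_pos_iff.2 (C.p_ne i))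

lemma b_pos (j : Fin 3) : 0 < ‖C.w j‖⁻¹ := inv_pos.2 (norm_pos_iff.2 (C.w_ne j))

lemma lt_one {i j : Fin 3} (h : ‖C.p i‖ * ‖C.w j‖ ≠ 1) : ‖C.p i‖⁻¹ * ‖C.w j‖⁻¹ < 1 := by
  rw [← mul_inv]
  exact inv_lt_one_of_one_lt₀ (lt_of_le_of_ne (C.one_le i j) h.symm)

lemma rc_of {i j : Fin 3} {x q : ℂ} (hn : ‖x‖ = ‖C.w j‖) (hq : q ∈ C.N i x)
    (h : RU (dir q / dir x)) : RC (‖C.p i‖⁻¹ * ‖C.w j‖⁻¹) := by
  obtain ⟨e, -, h2, h3⟩ := exists_unit hq.2.1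
  exact ⟨e, RU.of_pow two_pos (h3 ▸ h), by rw [h2, hn, hq.2.2]⟩

lemma rc_of_A2 {i j : Fin 3} (h : C.A2 i j) (hR : dir (C.w j) ∉ C.R) :
    RC (‖C.p i‖⁻¹ * ‖C.w j‖⁻¹) := by
  obtain ⟨q, hq⟩ := C.N_nonempty (C.wW j) i
  exact C.rc_of rfl hq (C.H_ru _ ((C.rot_or_refl h (C.wW j) rfl hq).resolve_right hR))

lemma exists_K : ∃ K : ℂ, ‖K‖ = 1 ∧ ∀ u ∈ C.R, u ^ 2 / K ∈ C.H := by
  rcases C.R.eq_empty_or_nonempty with h | ⟨u₀, h⟩
  · exact ⟨1, by simp, by simp [h]⟩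
  · refine ⟨u₀ ^ 2, by simp [C.R_norm _ h], fun u hu => ?_⟩
    rw [← div_pow, sq]
    exact C.H_mul _ (C.R_div _ hu _ h) _ (C.R_div _ hu _ h)

lemma one_mem_H : (1 : ℂ) ∈ C.H := by
  rcases C.orb_of_norm (C.pP 0) rfl with ⟨h, hh, -⟩ | ⟨u, hu, -⟩
  · rw [← mul_inv_cancel₀ (C.H_ru h hh).ne_zero]
    exact C.H_mul _ hh _ (C.H_inv _ hh)
  · have n := C.R_norm u hu
    have : u ≠ 0 := by rintro rfl; simp at n
    rw [← div_self this]
    exact C.R_div _ hu _ hu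

/-- direction class of `z` modulo the rotations -/
def Tt (X K z : ℂ) : Prop := dir z / X ∈ C.H ∨ dir z * X / K ∈ C.H

lemma Tt_mul {X K z z' h : ℂ} (hh : h ∈ C.H) (e : dir z' = h * dir z) (t : C.Tt X K z) :
    C.Tt X K z' := by
  rcases t with t | t
  · exact Or.inl (by rw [e, mul_div_assoc]; exact C.H_mul _ hh _ t)
  · exact Or.inr (by rw [e, mul_assoc, mul_div_assoc]; exact C.H_mul _ hh _ t)

lemma Tt_orb {X K z z' : ℂ} (hK : ∀ u ∈ C.R, u ^ 2 / K ∈ C.H) (K0 : K ≠ 0)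
    (h : Orb C.H C.R z z') (t : C.Tt X K z) : C.Tt X K z' := by
  rcases h with ⟨h, hh, rfl⟩ | ⟨u, hu, rfl⟩
  · exact C.Tt_mul (by rw [sq]; exact C.H_mul _ hh _ hh) (dir_rot (C.H_ru h hh).norm) t
  · have e := dir_refl (z := z) (C.R_norm u hu)
    rcases t with t | t
    · right
      have : dir (u * conj z) * X / K = u ^ 2 / K * (dir z / X)⁻¹ := by
        rw [e, inv_div]; ring
      rw [this]
      exact C.H_mul _ (hK u hu) _ (C.H_inv _ t)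
    · left
      have : dir (u * conj z) / X = u ^ 2 / K * (dir z * X / K)⁻¹ := by
        rw [e, inv_div, div_mul_div_cancel₀ K0, div_div]
      rw [this]
      exact C.H_mul _ (hK u hu) _ (C.H_inv _ t)

theorem no_tangent (hnt : ∀ i j, ‖C.p i‖ * ‖C.w j‖ ≠ 1) : False := by
  have hnR : ∀ x ∈ C.W, ∀ j, ‖x‖ = ‖C.w j‖ → dir x ∉ C.R := fun x hx j hn hR => by
    obtain ⟨i, hi⟩ := C.tangent_of_refl hx hn hR
    exact hnt i j hi
  have hnR' : ∀ i, dir (C.p i) ∉ C.R := fun i hR => by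
    obtain ⟨j, hj⟩ := C.dual.tangent_of_refl (C.pP i) rfl hR
    exact hnt i j (by rw [mul_comm]; exact hj)
  choose s hs using C.dual.exists_notA2
  have hs1 : ∀ i, ¬ C.A2 i (s i) := fun i h =>
    hnR _ (C.wW _) _ rfl (C.refl_of_A2_notB2 h (hs i))
  have hs2 : ∀ i j, i ≠ j → C.A2 i (s j) := fun i j hne => by
    by_contra h
    exact hne (C.notA2_unique h (hs1 j))
  have sinj : Function.Injective s := fun i j h => by
    by_contra hne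
    exact hs1 i (h ▸ hs2 i j hne)
  obtain ⟨K, nK, hK⟩ := C.exists_K
  have K0 : K ≠ 0 := by rintro rfl; simp at nK
  set X := dir (C.p 0) with hX
  have nX : ‖X‖ = 1 := dir_norm (C.p_ne 0)
  have X0 : X ≠ 0 := dir_ne (C.p_ne 0)
  have link : ∀ i j, C.A2 i j → (C.Tt X K (C.p i) ↔ C.Tt X K (C.w j)) := by
    intro i j h
    obtain ⟨q, hq⟩ := C.N_nonempty (C.wW j) i
    have h1 := (C.rot_or_refl h (C.wW j) rfl hq).resolve_right (hnR _ (C.wW j) j rfl)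
    have d1 := dir_ne hq.2.1.ne_left
    have d2 := dir_ne hq.2.1.ne_right
    have o1 := C.orb_of_norm hq.1 hq.2.2
    have o2 := C.orb_euclid o1 (C.orb_of_norm (C.pP i) rfl)
    constructor
    · intro t
      exact C.Tt_mul (C.H_inv _ h1) (by field_simp) (C.Tt_orb hK K0 o1 t)
    · intro t
      exact C.Tt_orb hK K0 o2 (C.Tt_mul h1 (by field_simp) t)
  have tp0 : C.Tt X K (C.p 0) := Or.inl (by rw [← hX, div_self X0]; exact C.one_mem_H)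
  have tw1 := (link _ _ (hs2 0 1 (by decide))).1 tp0
  have tw2 := (link _ _ (hs2 0 2 (by decide))).1 tp0
  have tp1 := (link _ _ (hs2 1 2 (by decide))).2 tw2
  have tp2 := (link _ _ (hs2 2 1 (by decide))).2 tw1
  have tw0 := (link _ _ (hs2 1 0 (by decide))).1 tp1
  have tp : ∀ i, C.Tt X K (C.p i) := by intro i; fin_cases i <;> assumption
  have tw : ∀ i, C.Tt X K (C.w (s i)) := by intro i; fin_cases i <;> assumption
  obtain ⟨z, hz⟩ := IsAlgClosed.exists_pow_nat_eq (X ^ 2 / K) two_pos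
  have nz : ‖z‖ = 1 := by
    have : ‖z‖ ^ 2 = 1 := by rw [← norm_pow, hz]; simp [nX, nK]
    exact (pow_eq_one_iff_of_nonneg (norm_nonneg _) two_ne_zero).1 this
  refine final_A (fun i => ‖C.p i‖⁻¹) (fun j => ‖C.w (s j)‖⁻¹) C.a_pos (fun j => C.b_pos _)
    (fun i j h => C.r_inj (inv_injective h)) (fun i j h => sinj (C.dual.r_inj (inv_injective h)))
    (fun i j => C.lt_one (hnt _ _))
    (fun i j h => C.rc_of_A2 (hs2 i j h) (hnR _ (C.wW _) _ rfl)) nz fun i => ?_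
  obtain ⟨q, hq⟩ := C.N_nonempty (C.wW (s i)) i
  have d1 := dir_ne hq.2.1.ne_left
  have d2 := dir_ne hq.2.1.ne_right
  have hE : dir q / dir (C.w (s i)) ∉ C.H := fun h =>
    hnt _ _ (C.tangent_of_mem (hs1 i) (C.wW _) rfl hq (by
      rw [mirror_eq hq.2.1]; exact C.HP _ (C.H_inv _ h) _ hq.1))
  obtain ⟨e, h1, h2, h3⟩ := exists_unit hq.2.1
  rw [hq.2.2] at h2
  rw [← h2]
  apply Sim.re h1 nz
  rw [h3, hz]
  rcases C.Tt_orb hK K0 (C.orb_of_norm hq.1 hq.2.2) (tp i) with t | t <;>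
    rcases tw i with t' | t'
  · exfalso
    apply hE
    have := C.H_mul _ t _ (C.H_inv _ t')
    convert this using 1
    field_simp
  · left
    have := C.H_ru _ (C.H_mul _ t _ (C.H_inv _ t'))
    convert this using 1
    field_simp
  · right
    have := C.H_ru _ (C.H_mul _ t _ (C.H_inv _ t'))
    convert this using 1
    field_simp
  · exfalso
    apply hE
    have := C.H_mul _ t _ (C.H_inv _ t')
    convert this using 1
    field_simp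

lemma tangent_unique {i j i' j' : Fin 3} (h : ‖C.p i‖ * ‖C.w j‖ = 1)
    (h' : ‖C.p i'‖ * ‖C.w j'‖ = 1) : i = i' ∧ j = j' := by
  have h1 := C.one_le i j'
  have h2 := C.one_le i' j
  have p1 := norm_pos_iff.2 (C.p_ne i)
  have p2 := norm_pos_iff.2 (C.p_ne i')
  have h3 : ‖C.w j‖ ≤ ‖C.w j'‖ := le_of_mul_le_mul_left (h.trans_le h1) p1
  have h4 : ‖C.w j'‖ ≤ ‖C.w j‖ := le_of_mul_le_mul_left (h'.trans_le h2) p2
  have h5 : j = j' := C.dual.r_inj (le_antisymm h3 h4)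
  subst h5
  exact ⟨C.r_inj (mul_right_cancel₀ (norm_ne_zero_iff.2 (C.w_ne j)) (h.trans h'.symm)), rfl⟩

lemma sim_orb {D z z' : ℂ} (hD : D ∈ C.R) (z0 : z ≠ 0) (h : Orb C.H C.R z z') :
    Sim (dir z' / D) (dir z / D) := by
  have n := C.R_norm _ hD
  have D0 : D ≠ 0 := by rintro rfl; simp at n
  have d := dir_ne z0
  rcases h with ⟨h, hh, rfl⟩ | ⟨u, hu, rfl⟩
  · left
    rw [dir_rot (C.H_ru h hh).norm]
    convert (C.H_ru h hh).pow 2 using 1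
    field_simp
  · right
    rw [dir_refl (C.R_norm u hu)]
    convert (C.H_ru _ (C.R_div _ hu _ hD)).pow 2 using 1
    field_simp

lemma angle {D : ℂ} (hD : D ∈ C.R) (i j : Fin 3) : ∃ e A : ℂ, ‖e‖ = 1 ∧
    e.re = ‖C.p i‖⁻¹ * ‖C.w j‖⁻¹ ∧ e ^ 2 = A / (dir (C.w j) / D) ∧ Sim A (dir (C.p i) / D) := by
  have n := C.R_norm _ hD
  have D0 : D ≠ 0 := by rintro rfl; simp at n
  obtain ⟨q, hq⟩ := C.N_nonempty (C.wW j) i
  obtain ⟨e, h1, h2, h3⟩ := exists_unit hq.2.1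
  refine ⟨e, dir q / D, h1, by rw [h2, hq.2.2], by rw [h3, div_div_div_cancel_right₀ D0],
    C.sim_orb hD (C.p_ne i) (C.orb_of_norm hq.1 hq.2.2)⟩

theorem tangent {i₀ j₀ : Fin 3} (ht : ‖C.p i₀‖ * ‖C.w j₀‖ = 1) : False := by
  have ht' : ‖C.dual.p j₀‖ * ‖C.dual.w i₀‖ = 1 := by rw [mul_comm]; exact ht
  have hA : ∀ i, i ≠ i₀ → C.A2 i j₀ := fun i hi => by
    by_contra h
    exact hi (C.notA2_unique h (C.notA2_of_tangent ht))
  have hB : ∀ j, j ≠ j₀ → C.dual.A2 j i₀ := fun j hj => by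
    by_contra h
    exact hj (C.dual.notA2_unique h (C.dual.notA2_of_tangent ht'))
  have rA : ∀ i j, j ≠ j₀ → C.A2 i j → RC (‖C.p i‖⁻¹ * ‖C.w j‖⁻¹) := fun i j hj h =>
    C.rc_of_A2 h fun hR => by
      obtain ⟨i', hi'⟩ := C.tangent_of_refl (C.wW j) rfl hR
      exact hj (C.tangent_unique hi' ht).2
  have rB : ∀ i j, i ≠ i₀ → C.dual.A2 j i → RC (‖C.p i‖⁻¹ * ‖C.w j‖⁻¹) := fun i j hi h => by
    rw [mul_comm]
    exact C.dual.rc_of_A2 h fun hR => by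
      obtain ⟨j', hj'⟩ := C.dual.tangent_of_refl (C.pP i) rfl hR
      exact hi (C.dual.tangent_unique hj' ht').2
  obtain ⟨i₁, n₁, -⟩ := third i₀ i₀
  obtain ⟨i₂, n₂, n₁₂⟩ := third i₀ i₁
  obtain ⟨j₁, m₁, -⟩ := third j₀ j₀
  obtain ⟨j₂, m₂, m₁₂⟩ := third j₀ j₁
  have exB : ∀ i, i ≠ i₀ → ∃ j, j ≠ j₀ ∧ RC (‖C.p i‖⁻¹ * ‖C.w j‖⁻¹) := by
    intro i hi
    by_cases h : C.dual.A2 j₁ i
    · exact ⟨j₁, m₁, rB i j₁ hi h⟩
    · refine ⟨j₂, m₂, rB i j₂ hi ?_⟩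
      by_contra h'
      exact m₁₂ (C.dual.notA2_unique h' h)
  have exA : ∀ j, j ≠ j₀ → ∃ i, i ≠ i₀ ∧ RC (‖C.p i‖⁻¹ * ‖C.w j‖⁻¹) := by
    intro j hj
    by_cases h : C.A2 i₁ j
    · exact ⟨i₁, n₁, rA i₁ j hj h⟩
    · refine ⟨i₂, n₂, rA i₂ j hj ?_⟩
      by_contra h'
      exact n₁₂ (C.notA2_unique h' h)
  have e₀ : ‖C.p i₀‖⁻¹ * ‖C.w j₀‖⁻¹ = 1 := by rw [← mul_inv, ht, inv_one]
  have goal : (∀ i, i ≠ i₀ → RC (‖C.p i‖⁻¹ * ‖C.w j₀‖⁻¹)) ∧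
      ∀ j, j ≠ j₀ → RC (‖C.p i₀‖⁻¹ * ‖C.w j‖⁻¹) := by
    obtain ⟨x, hx⟩ := C.dual.N_nonempty (C.pP i₀) j₀
    have hx1 : x * conj (C.p i₀) = 1 := inc_tangent hx.2.1 (by rw [hx.2.2]; exact ht')
    have p0 := C.p_ne i₀
    have p1 : conj (C.p i₀) ≠ 0 := (map_ne_zero _).2 p0
    have hdx : dir x = dir (C.p i₀) := by
      have : x = (conj (C.p i₀))⁻¹ := eq_inv_of_mul_eq_one_left hx1
      rw [this, dir, dir, map_inv₀, Complex.conj_conj]; field_simp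
    by_cases hR : dir (C.p i₀) ∈ C.R
    swap
    · constructor
      · intro i hi
        obtain ⟨q, hq⟩ := C.N_nonempty hx.1 i
        exact C.rc_of hx.2.2 hq (C.H_ru _
          ((C.rot_or_refl (hA i hi) hx.1 hx.2.2 hq).resolve_right (hdx ▸ hR)))
      · intro j hj
        rw [mul_comm]
        exact C.dual.rc_of_A2 (hB j hj) hR
    set D := dir (C.p i₀) with hD
    have D0 : D ≠ 0 := dir_ne p0
    have ξ0 : ∀ i, dir (C.p i) / D ≠ 0 := fun i => div_ne_zero (dir_ne (C.p_ne i)) D0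
    have η0 : ∀ j, dir (C.w j) / D ≠ 0 := fun j => div_ne_zero (dir_ne (C.w_ne j)) D0
    have rξ : RU (dir (C.p i₀) / D) := by rw [← hD, div_self D0]; exact RU.one
    have rη : RU (dir (C.w j₀) / D) := by
      have h1 := C.sim_orb hR (C.w_ne j₀) (C.dual.orb_of_norm hx.1 hx.2.2)
      rw [hdx, div_self D0] at h1
      exact h1.symm.ru RU.one
    have s1 : ∀ i j, RC (‖C.p i‖⁻¹ * ‖C.w j‖⁻¹) → Sim (dir (C.w j) / D) (dir (C.p i) / D) := by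
      intro i j h
      obtain ⟨e, A, h1, h2, h3, h4⟩ := C.angle hR i j
      have h5 : RU (A / (dir (C.w j) / D)) := h3 ▸ (RC.ru h1 (h2 ▸ h)).pow 2
      have A0 : A ≠ 0 := by
        rintro rfl
        exact h5.ne_zero (zero_div _)
      exact Sim.trans A0 (Sim.symm (Or.inl h5)) h4
    have s2 : ∀ i j, RU (dir (C.p i) / D) → RU (dir (C.w j) / D) →
        RC (‖C.p i‖⁻¹ * ‖C.w j‖⁻¹) := by
      intro i j h h'
      obtain ⟨e, A, h1, h2, h3, h4⟩ := C.angle hR i j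
      exact ⟨e, RU.of_pow two_pos (h3 ▸ (h4.ru h).div h'), h2⟩
    by_cases hall : ∀ i, i ≠ i₀ → C.dual.A2 j₀ i
    · refine ⟨fun i hi => rB i j₀ hi (hall i hi), fun j hj => ?_⟩
      obtain ⟨i, hi, h⟩ := exA j hj
      exact s2 _ _ rξ ((s1 i j h).ru ((s1 i j₀ (rB i j₀ hi (hall i hi))).symm.ru rη))
    push Not at hall
    obtain ⟨i, hi, hn⟩ := hall
    have hj : ∀ j, j ≠ j₀ → RC (‖C.p i‖⁻¹ * ‖C.w j‖⁻¹) := fun j hj => rB i j hi (by
      by_contra h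
      exact hj (C.dual.notA2_unique h hn))
    obtain ⟨z, hz⟩ := IsAlgClosed.exists_pow_nat_eq (dir (C.p i) / D) two_pos
    have nz : ‖z‖ = 1 := by
      have : ‖z‖ ^ 2 = 1 := by
        rw [← norm_pow, hz, norm_div, dir_norm (C.p_ne i), hD, dir_norm p0]; simp
      exact (pow_eq_one_iff_of_nonneg (norm_nonneg _) two_ne_zero).1 this
    have k1 : ∃ ζ : ℂ, RU ζ ∧ ‖C.p i‖⁻¹ * ‖C.w j₀‖⁻¹ = (z * ζ).re := by
      obtain ⟨e, A, h1, h2, h3, h4⟩ := C.angle hR i j₀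
      rw [← h2]
      apply Sim.re h1 nz
      have A0 : A ≠ 0 := by
        rintro rfl
        rw [zero_div, pow_eq_zero_iff two_ne_zero] at h3
        simp [h3] at h1
      rw [h3, hz]
      refine Sim.trans A0 (Or.inl ?_) h4
      convert rη.inv using 1
      field_simp
    have k2 : ∀ j, j ≠ j₀ → ∃ ζ : ℂ, RU ζ ∧ ‖C.p i₀‖⁻¹ * ‖C.w j‖⁻¹ = (z * ζ).re := by
      intro j hj'
      obtain ⟨e, A, h1, h2, h3, h4⟩ := C.angle hR i₀ j
      rw [← h2]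
      apply Sim.re h1 nz
      rw [h3, hz]
      refine Sim.trans (η0 j) (Or.inr ?_) (s1 i j (hj j hj'))
      rw [div_mul_cancel₀ _ (η0 j)]
      exact h4.ru rξ
    obtain ⟨ζ₁, r₁, f₁⟩ := k1
    obtain ⟨ζ₂, r₂, f₂⟩ := k2 j₁ m₁
    obtain ⟨ζ₃, r₃, f₃⟩ := k2 j₂ m₂
    have hzr : RU z := by
      refine free_angle (β := ‖C.p i‖⁻¹ * ‖C.w j₂‖⁻¹) (γ := ‖C.p i‖⁻¹ * ‖C.w j₁‖⁻¹) nz r₁ r₂ r₃
        (mul_pos (C.a_pos _) (C.b_pos _)) (mul_pos (C.a_pos _) (C.b_pos _)) ?_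
        (hj _ m₂).mem_KK (hj _ m₁).mem_KK (by rw [← f₂, ← f₃]; ring) ?_
      · intro h
        exact m₁₂ (C.dual.r_inj (inv_injective (mul_left_cancel₀ (C.a_pos i).ne' h)))
      · rw [← f₁, ← f₂]
        have : 4 * (‖C.p i‖⁻¹ * ‖C.w j₀‖⁻¹) * (‖C.p i₀‖⁻¹ * ‖C.w j₁‖⁻¹) =
            2 * (2 * (‖C.p i‖⁻¹ * ‖C.w j₁‖⁻¹)) := by
          linear_combination (4 * ‖C.p i‖⁻¹ * ‖C.w j₁‖⁻¹) * e₀
        rw [this, Complex.ofReal_mul]
        exact (ofNatI 2).mul (hj _ m₁).integral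
    have rξi : RU (dir (C.p i) / D) := hz ▸ hzr.pow 2
    have rηj : ∀ j, j ≠ j₀ → RU (dir (C.w j) / D) := fun j h => (s1 i j (hj j h)).ru rξi
    refine ⟨fun i' hi' => ?_, fun j h => s2 _ _ rξ (rηj j h)⟩
    obtain ⟨j, h1, h2⟩ := exB i' hi'
    exact s2 _ _ ((s1 i' j h2).symm.ru (rηj j h1)) rη
  have fin : ∀ i, i ≠ i₀ → (‖C.p i‖⁻¹ * ‖C.w j₀‖⁻¹) ^ 2 = 1 / 2 := by
    intro i hi
    obtain ⟨j, h1, h2⟩ := exB i hi
    refine cos_mul_cos' (goal.1 i hi) (goal.2 j h1) h2 (mul_pos (C.a_pos _) (C.b_pos _))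
      (C.lt_one fun h => hi (C.tangent_unique h ht).1) (mul_pos (C.a_pos _) (C.b_pos _))
      (C.lt_one fun h => h1 (C.tangent_unique h ht).2) ?_
    linear_combination (‖C.p i‖⁻¹ * ‖C.w j‖⁻¹) * e₀
  have := (pow_left_inj₀ (mul_pos (C.a_pos _) (C.b_pos _)).le (mul_pos (C.a_pos _) (C.b_pos _)).le
    two_ne_zero).1 ((fin i₂ n₂).trans (fin i₁ n₁).symm)
  exact n₁₂ (C.r_inj (inv_injective (mul_right_cancel₀ (C.b_pos j₀).ne' this)))

theorem false (C : Cfg) : False := by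
  by_cases h : ∀ i j, ‖C.p i‖ * ‖C.w j‖ ≠ 1
  · exact C.no_tangent h
  · push Not at h
    obtain ⟨i, j, h⟩ := h
    exact C.tangent h

end Cfg

end Pool.Agent.Lib.MP_b1882c_co
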