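import Mathlib
import Pool.Agent.Lib.MP_b1882c_co.Core

/-! Configurations whose lines are point sets in the complex plane. -/

open scoped ComplexConjugate

namespace Pool.Agent.Lib.MP_b1882c_co

/-- the line with normal vector `n` and offset `c` -/
def line (n : ℂ) (c : ℝ) : Set ℂ := {z | (z * conj n).re = c}

/-- the polar line of a point -/
def pol (w : ℂ) : Set ℂ := {z | inc w z}

lemma line_two {n q q' : ℂ} {c : ℝ} (hn : n ≠ 0) (h : q ∈ line n c) (h' : q' ∈ line n c)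
    (hq : ‖q'‖ = ‖q‖) : q' = q ∨ q' = dir n * conj q := by
  have x0 : conj n ≠ 0 := (map_ne_zero _).2 hn
  have e : (q * conj n).re = c := h
  have e' : (q' * conj n).re = c := h'
  rcases eq_or_conj (a := q' * conj n) (b := q * conj n) (by simp [hq]) (e'.trans e.symm)
    with h1 | h1
  · exact Or.inl (mul_right_cancel₀ x0 h1)
  · right
    rw [map_mul, Complex.conj_conj] at h1
    rw [dir]; field_simp; linear_combination h1

lemma line_zero_neg {n q : ℂ} (hn : n ≠ 0) (h : q ∈ line n 0) : dir n * conj q = -q := by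
  have x0 : conj n ≠ 0 := (map_ne_zero _).2 hn
  have e : (q * conj n).re = 0 := h
  have h1 := Complex.add_conj (q * conj n)
  rw [e, map_mul, Complex.conj_conj] at h1
  rw [dir]; field_simp
  push_cast at h1
  linear_combination h1

lemma line_eq_pol {n : ℂ} {c : ℝ} (hc : c ≠ 0) : line n c = pol (n / c) := by
  ext z
  have : z * conj (n / c) = ((c⁻¹ : ℝ) : ℂ) * (z * conj n) := by
    rw [map_div₀, Complex.conj_ofReal]; push_cast; ring
  simp only [line, pol, inc, Set.mem_ofPred_eq]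
  rw [this, Complex.re_ofReal_mul]
  constructor
  · intro h; rw [h]; field_simp
  · intro h; field_simp at h; exact h

lemma line_unique {n n' q : ℂ} (hn : n ≠ 0) (hn' : n' ≠ 0) (hq : q ≠ 0) (h : q ∈ line n 0)
    (h' : q ∈ line n' 0) : line n 0 ⊆ line n' 0 := by
  intro z hz
  have e1 := line_zero_neg hn h
  have e2 := line_zero_neg hn' h'
  have e3 := line_zero_neg hn hz
  have e4 : dir n = dir n' := mul_right_cancel₀ ((map_ne_zero _).2 hq) (e1.trans e2.symm)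
  rw [e4, dir] at e3
  have x0 : conj n' ≠ 0 := (map_ne_zero _).2 hn'
  have h1 := Complex.add_conj (z * conj n')
  rw [map_mul, Complex.conj_conj] at h1
  field_simp at e3
  have h2 : ((2 * (z * conj n').re : ℝ) : ℂ) = 0 := by rw [← h1]; linear_combination e3
  have h3 : 2 * (z * conj n').re = 0 := by exact_mod_cast h2
  show (z * conj n').re = 0
  linarith

lemma pol_inj' {w w' : ℂ} (hw : w ≠ 0) (h : pol w = pol w') : w = w' := by
  have x0 : conj w ≠ 0 := (map_ne_zero _).2 hw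
  have h1 : (conj w)⁻¹ ∈ pol w := by
    show ((conj w)⁻¹ * conj w).re = 1
    rw [inv_mul_cancel₀ x0]; simp
  have h2 : (conj w)⁻¹ * (1 + Complex.I) ∈ pol w := by
    show ((conj w)⁻¹ * (1 + Complex.I) * conj w).re = 1
    rw [mul_right_comm, inv_mul_cancel₀ x0]; simp
  rw [h] at h1 h2
  have e1 : ((conj w)⁻¹ * conj w').re = 1 := h1
  have e2 : ((conj w)⁻¹ * (1 + Complex.I) * conj w').re = 1 := h2
  rw [mul_right_comm] at e2
  have e3 : (conj w)⁻¹ * conj w' = 1 := by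
    generalize (conj w)⁻¹ * conj w' = t at e1 e2
    simp only [Complex.mul_re, Complex.add_re, Complex.add_im, Complex.one_re, Complex.one_im,
      Complex.I_re, Complex.I_im] at e2
    apply Complex.ext
    · simpa using e1
    · simp only [Complex.one_im]; linarith
  apply (starRingEnd ℂ).injective
  field_simp at e3
  exact e3.symm

lemma pol_inj : Function.Injective pol := by
  intro w w' h
  by_cases hw : w = 0
  · by_cases hw' : w' = 0
    · rw [hw, hw']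
    · exact (pol_inj' hw' h.symm).symm
  · exact pol_inj' hw h

lemma pol_rot {h : ℂ} (hh : ‖h‖ = 1) (w : ℂ) : (fun z => h * z) '' pol w = pol (h * w) := by
  have h0 : h ≠ 0 := by rintro rfl; simp at hh
  ext z
  constructor
  · rintro ⟨y, hy, rfl⟩
    exact inc_rot hh hy
  · intro hz
    refine ⟨h⁻¹ * z, ?_, by field_simp⟩
    have := inc_rot (h := h⁻¹) (by simp [hh]) hz
    rwa [inv_mul_cancel_left₀ h0] at this

lemma refl_refl {u : ℂ} (hu : ‖u‖ = 1) (z : ℂ) : u * conj (u * conj z) = z := by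
  have h0 : u ≠ 0 := by rintro rfl; simp at hu
  rw [map_mul, Complex.conj_conj, ← Complex.inv_eq_conj hu]; field_simp

lemma pol_refl {u : ℂ} (hu : ‖u‖ = 1) (w : ℂ) :
    (fun z => u * conj z) '' pol w = pol (u * conj w) := by
  ext z
  constructor
  · rintro ⟨y, hy, rfl⟩
    exact inc_refl hu hy
  · intro hz
    refine ⟨u * conj z, ?_, refl_refl hu z⟩
    have := inc_refl hu hz
    rwa [refl_refl hu] at this

/-- A `5`-configuration with a set of linear symmetries having at most three orbits. -/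
structure Pre where
  P : Set ℂ
  S : Set (Set ℂ)
  G : Set (ℂ → ℂ)
  p : Fin 3 → ℂ
  L : Fin 3 → Set ℂ
  fin : P.Finite
  isLine : ∀ l ∈ S, ∃ n c, n ≠ 0 ∧ l = line n c
  cardP : ∀ l ∈ S, {q ∈ P | q ∈ l}.ncard = 5
  cardL : ∀ q ∈ P, {l ∈ S | q ∈ l}.ncard = 5
  lin : ∀ g ∈ G, ∃ u, ‖u‖ = 1 ∧ (g = (fun z => u * z) ∨ g = fun z => u * conj z)
  GP : ∀ g ∈ G, ∀ q ∈ P, g q ∈ P
  GS : ∀ g ∈ G, ∀ l ∈ S, g '' l ∈ S
  pP : ∀ i, p i ∈ P
  LL : ∀ i, L i ∈ S
  orbP : ∀ q ∈ P, ∃ i, ∃ g ∈ G, g (p i) = q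
  orbL : ∀ l ∈ S, ∃ i, ∃ g ∈ G, g '' L i = l

namespace Pre

variable (C : Pre)

/-- rotations -/
def H : Set ℂ := {h | ‖h‖ = 1 ∧ (∀ q ∈ C.P, h * q ∈ C.P) ∧ ∀ l ∈ C.S, (fun z => h * z) '' l ∈ C.S}

/-- reflections -/
def R : Set ℂ :=
  {u | ‖u‖ = 1 ∧ (∀ q ∈ C.P, u * conj q ∈ C.P) ∧ ∀ l ∈ C.S, (fun z => u * conj z) '' l ∈ C.S}

lemma H_one : (1 : ℂ) ∈ C.H := ⟨by simp, by simp, by simp⟩

lemma H_mul : ∀ h ∈ C.H, ∀ h' ∈ C.H, h * h' ∈ C.H := by
  intro h hh h' hh'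
  refine ⟨by simp [hh.1, hh'.1], fun q hq => ?_, fun l hl => ?_⟩
  · rw [mul_assoc]; exact hh.2.1 _ (hh'.2.1 _ hq)
  · have := hh.2.2 _ (hh'.2.2 _ hl)
    rw [Set.image_image] at this
    simpa only [mul_assoc] using this

lemma H_pow {h : ℂ} (hh : h ∈ C.H) (n : ℕ) : h ^ n ∈ C.H := by
  induction n with
  | zero => simpa using C.H_one
  | succ n ih => rw [pow_succ]; exact C.H_mul _ ih _ hh

lemma exists_ne : ∃ q ∈ C.P, q ≠ 0 := by
  have h := C.cardP _ (C.LL 0)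
  obtain ⟨a, ha, hne⟩ := Set.exists_ne_of_one_lt_ncard (s := {q ∈ C.P | q ∈ C.L 0})
    (by rw [h]; norm_num) 0
  exact ⟨a, ha.1, hne⟩

lemma H_ru : ∀ h ∈ C.H, RU h := by
  intro h hh
  obtain ⟨q, hq, q0⟩ := C.exists_ne
  have h0 : h ≠ 0 := by rintro rfl; simpa using hh.1
  obtain ⟨a, b, hab, e⟩ := C.fin.exists_lt_map_eq_of_forall_mem (f := fun n : ℕ => h ^ n * q)
    (fun n => (C.H_pow hh n).2.1 _ hq)
  obtain ⟨k, rfl⟩ := Nat.exists_eq_add_of_lt hab
  refine ⟨k + 1, by omega, ?_⟩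
  have e1 := mul_right_cancel₀ q0 e
  rw [add_assoc, pow_add] at e1
  exact (mul_left_cancel₀ (pow_ne_zero a h0) (e1.symm.trans (mul_one _).symm))

lemma H_inv : ∀ h ∈ C.H, h⁻¹ ∈ C.H := by
  intro h hh
  obtain ⟨n, hn, e⟩ := C.H_ru h hh
  obtain ⟨k, rfl⟩ := Nat.exists_eq_add_of_lt hn
  rw [zero_add, pow_succ] at e
  rw [← eq_inv_of_mul_eq_one_left e]
  exact C.H_pow hh k

lemma R_div : ∀ u ∈ C.R, ∀ u' ∈ C.R, u / u' ∈ C.H := by
  intro u hu u' hu'
  have key : ∀ z, u * conj (u' * conj z) = u / u' * z := by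
    intro z
    rw [map_mul, Complex.conj_conj, ← Complex.inv_eq_conj hu'.1]; ring
  refine ⟨by simp [hu.1, hu'.1], fun q hq => ?_, fun l hl => ?_⟩
  · rw [← key]; exact hu.2.1 _ (hu'.2.1 _ hq)
  · have := hu.2.2 _ (hu'.2.2 _ hl)
    rw [Set.image_image] at this
    simpa only [key] using this

lemma HR : ∀ h ∈ C.H, ∀ u ∈ C.R, h * u ∈ C.R := by
  intro h hh u hu
  refine ⟨by simp [hh.1, hu.1], fun q hq => ?_, fun l hl => ?_⟩
  · rw [mul_assoc]; exact hh.2.1 _ (hu.2.1 _ hq)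
  · have := hh.2.2 _ (hu.2.2 _ hl)
    rw [Set.image_image] at this
    simpa only [mul_assoc] using this

lemma G_cases {g : ℂ → ℂ} (hg : g ∈ C.G) :
    (∃ h ∈ C.H, g = fun z => h * z) ∨ ∃ u ∈ C.R, g = fun z => u * conj z := by
  obtain ⟨u, hu, e | e⟩ := C.lin g hg
  · refine Or.inl ⟨u, ⟨hu, fun q hq => ?_, fun l hl => ?_⟩, e⟩
    · simpa only [e] using C.GP g hg q hq
    · simpa only [e] using C.GS g hg l hl
  · refine Or.inr ⟨u, ⟨hu, fun q hq => ?_, fun l hl => ?_⟩, e⟩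
    · simpa only [e] using C.GP g hg q hq
    · simpa only [e] using C.GS g hg l hl

lemma orbP' : ∀ q ∈ C.P, ∃ i, Orb C.H C.R (C.p i) q := by
  intro q hq
  obtain ⟨i, g, hg, e⟩ := C.orbP q hq
  rcases C.G_cases hg with ⟨h, hh, rfl⟩ | ⟨u, hu, rfl⟩
  · exact ⟨i, Or.inl ⟨h, hh, e.symm⟩⟩
  · exact ⟨i, Or.inr ⟨u, hu, e.symm⟩⟩

lemma orb_norm {z z' : ℂ} (h : Orb C.H C.R z z') : ‖z'‖ = ‖z‖ := by
  rcases h with ⟨h, hh, rfl⟩ | ⟨u, hu, rfl⟩
  · rw [norm_mul, hh.1, one_mul]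
  · rw [norm_mul, hu.1, one_mul, Complex.norm_conj]

lemma orb_euclid {z z' z'' : ℂ} (h : Orb C.H C.R z z') (h' : Orb C.H C.R z z'') :
    Orb C.H C.R z' z'' := by
  rcases h with ⟨h, hh, rfl⟩ | ⟨u, hu, rfl⟩ <;> rcases h' with ⟨h', hh', rfl⟩ | ⟨u', hu', rfl⟩
  · have := (C.H_ru h hh).ne_zero
    exact Or.inl ⟨h' * h⁻¹, C.H_mul _ hh' _ (C.H_inv _ hh), by field_simp⟩
  · have := (C.H_ru h hh).ne_zero
    refine Or.inr ⟨h * u', C.HR _ hh _ hu', ?_⟩
    rw [map_mul, ← Complex.inv_eq_conj (C.H_ru h hh).norm]; field_simp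
  · have n := hu.1
    have : u ≠ 0 := by rintro rfl; simp at n
    refine Or.inr ⟨h' * u, C.HR _ hh' _ hu, ?_⟩
    rw [map_mul, Complex.conj_conj, ← Complex.inv_eq_conj n]; field_simp
  · have n := hu.1
    have : u ≠ 0 := by rintro rfl; simp at n
    exact Or.inl ⟨u' / u, C.R_div _ hu' _ hu, by field_simp⟩

lemma norm_le_two {l : Set ℂ} (hl : l ∈ C.S) (r : ℝ) : {q ∈ l | ‖q‖ = r}.ncard ≤ 2 ∧
    {q ∈ l | ‖q‖ = r}.Finite := by
  obtain ⟨n, c, hn, rfl⟩ := C.isLine l hl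
  rcases ({q ∈ line n c | ‖q‖ = r} : Set ℂ).eq_empty_or_nonempty with h | ⟨q, hq⟩
  · rw [h]; simp
  have hsub : {q ∈ line n c | ‖q‖ = r} ⊆ {q, dir n * conj q} := fun q' hq' =>
    line_two hn hq.1 hq'.1 (hq'.2.trans hq.2.symm)
  exact ⟨(Set.ncard_le_ncard hsub).trans ((Set.ncard_insert_le _ _).trans (by simp)),
    (Set.toFinite _).subset hsub⟩

lemma zero_notMem : (0 : ℂ) ∉ C.P := by
  intro h0
  obtain ⟨i, hi⟩ := C.orbP' 0 h0
  have hi0 : ‖C.p i‖ = 0 := by simpa using (C.orb_norm hi).symm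
  obtain ⟨j, k, hjk⟩ := Cfg.third'' i
  have all : ∀ l ∈ C.S, (0 : ℂ) ∈ l := by
    intro l hl
    by_contra hne
    have hsub : {q ∈ C.P | q ∈ l} ⊆ {q ∈ l | ‖q‖ = ‖C.p j‖} ∪ {q ∈ l | ‖q‖ = ‖C.p k‖} := by
      rintro q ⟨h1, h2⟩
      obtain ⟨m, hm⟩ := C.orbP' q h1
      have := C.orb_norm hm
      rcases hjk m with rfl | rfl | rfl
      · rw [hi0, norm_eq_zero] at this
        exact absurd (this ▸ h2) hne
      · exact Or.inl ⟨h2, this⟩
      · exact Or.inr ⟨h2, this⟩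
    have h1 := Set.ncard_le_ncard hsub ((C.norm_le_two hl _).2.union (C.norm_le_two hl _).2)
    have h2 := Set.ncard_union_le {q ∈ l | ‖q‖ = ‖C.p j‖} {q ∈ l | ‖q‖ = ‖C.p k‖}
    have h3 := (C.norm_le_two hl ‖C.p j‖).1
    have h4 := (C.norm_le_two hl ‖C.p k‖).1
    have h5 := C.cardP l hl
    omega
  obtain ⟨q, hq, q0⟩ := C.exists_ne
  have h1 := C.cardL q hq
  have h2 : {l ∈ C.S | q ∈ l}.ncard ≤ 1 := by
    rw [Set.ncard_le_one (Set.finite_of_ncard_ne_zero (by omega))]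
    intro a ha b hb
    have z : ∀ l ∈ C.S, ∃ n, n ≠ 0 ∧ l = line n 0 := by
      intro l hl
      obtain ⟨n, c, hn, e⟩ := C.isLine l hl
      have := all l hl
      rw [e] at this
      have h3 : c = 0 := by simpa [line] using this.symm
      exact ⟨n, hn, h3 ▸ e⟩
    obtain ⟨n, hn, e⟩ := z a ha.1
    obtain ⟨n', hn', e'⟩ := z b hb.1
    have h3 := ha.2
    have h4 := hb.2
    rw [e] at h3
    rw [e'] at h4
    rw [e, e']
    exact (line_unique hn hn' q0 h3 h4).antisymm (line_unique hn' hn q0 h4 h3)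
  omega

lemma not_zero_line {n : ℂ} (hn : n ≠ 0) : line n 0 ∉ C.S := by
  intro hl
  have h5 := C.cardP _ hl
  have hfin : {q ∈ C.P | q ∈ line n 0}.Finite := C.fin.subset fun _ h => h.1
  choose! f hf using C.orbP'
  obtain ⟨a, ha, b, hb, hne, e⟩ := Set.exists_ne_map_eq_of_ncard_lt_of_maps_to
    (s := {q ∈ C.P | q ∈ line n 0}) (t := (Set.univ : Set (Fin 3))) (f := f)
    (by rw [h5]; simp) (fun _ _ => Set.mem_univ _)
  have o : Orb C.H C.R a b := C.orb_euclid (hf a ha.1) (e ▸ hf b hb.1)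
  have a0 : a ≠ 0 := fun h => C.zero_notMem (h ▸ ha.1)
  have e1 : b = dir n * conj a :=
    (line_two hn ha.2 hb.2 (C.orb_norm o)).resolve_left (Ne.symm hne)
  have neg : ∀ q ∈ {q ∈ C.P | q ∈ line n 0}, -q ∈ {q ∈ C.P | q ∈ line n 0} := by
    intro q hq
    refine ⟨?_, ?_⟩
    · rcases o with ⟨h, hh, e2⟩ | ⟨u, hu, e2⟩
      · rw [e1, line_zero_neg hn ha.2] at e2
        have : h = -1 := mul_right_cancel₀ a0 (by rw [← e2]; ring)
        have h3 := hh.2.1 q hq.1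
        rwa [this, neg_one_mul] at h3
      · have : u = dir n := mul_right_cancel₀ ((map_ne_zero _).2 a0) (e2.symm.trans e1)
        have h3 := hu.2.1 q hq.1
        rwa [this, line_zero_neg hn hq.2] at h3
    · have h3 : (q * conj n).re = 0 := hq.2
      show (-q * conj n).re = 0
      rw [neg_mul, Complex.neg_re, h3, neg_zero]
  have hs : ∑ _x ∈ hfin.toFinset, (1 : ZMod 2) = 0 := by
    refine Finset.sum_involution (fun a _ => -a) (fun _ _ => by decide) ?_ ?_ ?_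
    · intro x hx _ h
      have hx' := (hfin.mem_toFinset.1 hx).1
      have : x = 0 := by linear_combination (-1 / 2 : ℂ) * h
      exact C.zero_notMem (this ▸ hx')
    · intro x hx
      exact hfin.mem_toFinset.2 (neg x (hfin.mem_toFinset.1 hx))
    · intro x _
      exact neg_neg x
  rw [Finset.sum_const, ← Set.ncard_eq_toFinset_card _ hfin, h5] at hs
  revert hs
  decide

lemma exists_pol {l : Set ℂ} (hl : l ∈ C.S) : ∃ w, l = pol w := by
  obtain ⟨n, c, hn, rfl⟩ := C.isLine l hl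
  have hc : c ≠ 0 := by
    rintro rfl
    exact C.not_zero_line hn hl
  exact ⟨_, line_eq_pol hc⟩

theorem false (C : Pre) : False := by
  choose w hw using fun i => C.exists_pol (C.LL i)
  refine Cfg.false
    { P := C.P, W := {w | pol w ∈ C.S}, H := C.H, R := C.R, p := C.p, w := w,
      H_ru := C.H_ru, H_mul := C.H_mul, H_inv := C.H_inv, R_norm := fun u hu => hu.1,
      R_div := C.R_div, HR := C.HR, HP := fun h hh => hh.2.1, RP := fun u hu => hu.2.1,
      HW := ?_, RW := ?_, pP := C.pP, wW := ?_, orbP := C.orbP', orbW := ?_,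
      cardP := fun x hx => C.cardP _ hx, cardW := ?_ }
  · intro h hh q hq
    have := hh.2.2 _ hq
    rwa [pol_rot hh.1] at this
  · intro u hu q hq
    have := hu.2.2 _ hq
    rwa [pol_refl hu.1] at this
  · intro i
    have := C.LL i
    rwa [hw] at this
  · intro q hq
    obtain ⟨i, g, hg, e⟩ := C.orbL _ hq
    rw [hw] at e
    rcases C.G_cases hg with ⟨h, hh, rfl⟩ | ⟨u, hu, rfl⟩
    · rw [pol_rot hh.1] at e
      exact ⟨i, Or.inl ⟨h, hh, (pol_inj e).symm⟩⟩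
    · rw [pol_refl hu.1] at e
      exact ⟨i, Or.inr ⟨u, hu, (pol_inj e).symm⟩⟩
  · intro x hx
    rw [← C.cardL x hx, ← Set.ncard_image_of_injective _ pol_inj]
    congr 1
    ext l
    constructor
    · rintro ⟨y, ⟨h1, h2⟩, rfl⟩
      exact ⟨h1, inc_comm.1 h2⟩
    · rintro ⟨h1, h2⟩
      obtain ⟨y, rfl⟩ := C.exists_pol h1
      exact ⟨y, ⟨h1, inc_comm.1 h2⟩, rfl⟩

end Pre

end Pool.Agent.Lib.MP_b1882c_co
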