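import Mathlib
import Pool.Agent.Lib.MP_b1882c_co.Mid

/-! Orbit counting: without lines through the centre, points and lines have equally many orbits. -/

open scoped ComplexConjugate

namespace Pool.Agent.Lib.MP_b1882c_co

lemma fixed_of_five {α : Type} {s : Set α} (hs : s.ncard = 5) (f : α → α)
    (hf : ∀ x ∈ s, f x ∈ s) (hff : ∀ x ∈ s, f (f x) = x) : ∃ x ∈ s, f x = x := by
  by_contra hn
  push Not at hn
  have hfin : s.Finite := Set.finite_of_ncard_ne_zero (by omega)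
  have h : ∑ _x ∈ hfin.toFinset, (1 : ZMod 2) = 0 :=
    Finset.sum_involution (fun a _ => f a) (fun _ _ => by decide)
      (fun x hx _ => hn x (hfin.mem_toFinset.1 hx))
      (fun x hx => hfin.mem_toFinset.2 (hf x (hfin.mem_toFinset.1 hx)))
      (fun x hx => hff x (hfin.mem_toFinset.1 hx))
  rw [Finset.sum_const, ← Set.ncard_eq_toFinset_card _ hfin, hs] at h
  revert h
  decide

lemma dcount {α β : Type} {A : Set α} {B : Set β} (hA : A.Finite) (hB : B.Finite)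
    (r : α → β → Prop) {m n : ℕ} (h1 : ∀ a ∈ A, {b ∈ B | r a b}.ncard = m)
    (h2 : ∀ b ∈ B, {a ∈ A | r a b}.ncard = n) : A.ncard * m = B.ncard * n := by
  classical
  rw [Set.ncard_eq_toFinset_card _ hA, Set.ncard_eq_toFinset_card _ hB]
  refine Finset.card_mul_eq_card_mul r (fun a ha => ?_) (fun b hb => ?_)
  · rw [← h1 a (hA.mem_toFinset.1 ha), ← Set.ncard_coe_finset]
    congr 1
    ext b
    simp [Finset.bipartiteAbove]
  · rw [← h2 b (hB.mem_toFinset.1 hb), ← Set.ncard_coe_finset]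
    congr 1
    ext a
    simp [Finset.bipartiteBelow]

/-- A finite group of rotations `z ↦ h z` and reflections `z ↦ u conj z`. -/
structure Grp where
  H : Set ℂ
  R : Set ℂ
  finH : H.Finite
  H_one : (1 : ℂ) ∈ H
  H_ru : ∀ h ∈ H, RU h
  H_mul : ∀ h ∈ H, ∀ h' ∈ H, h * h' ∈ H
  H_inv : ∀ h ∈ H, h⁻¹ ∈ H
  R_norm : ∀ u ∈ R, ‖u‖ = 1
  R_div : ∀ u ∈ R, ∀ u' ∈ R, u / u' ∈ H
  HR : ∀ h ∈ H, ∀ u ∈ R, h * u ∈ R

namespace Grp

variable (G : Grp)

lemma m_pos : 0 < G.H.ncard := (Set.ncard_pos G.finH).2 ⟨1, G.H_one⟩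

lemma R_ne {u : ℂ} (hu : u ∈ G.R) : u ≠ 0 := by
  rintro rfl; simpa using G.R_norm _ hu

lemma orb_refl (z : ℂ) : Orb G.H G.R z z := Or.inl ⟨1, G.H_one, (one_mul z).symm⟩

lemma orb_norm {z z' : ℂ} (h : Orb G.H G.R z z') : ‖z'‖ = ‖z‖ := by
  rcases h with ⟨h, hh, rfl⟩ | ⟨u, hu, rfl⟩
  · rw [norm_mul, (G.H_ru h hh).norm, one_mul]
  · rw [norm_mul, G.R_norm u hu, one_mul, Complex.norm_conj]

lemma orb_euclid {z z' z'' : ℂ} (h : Orb G.H G.R z z') (h' : Orb G.H G.R z z'') :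
    Orb G.H G.R z' z'' := by
  rcases h with ⟨h, hh, rfl⟩ | ⟨u, hu, rfl⟩ <;> rcases h' with ⟨h', hh', rfl⟩ | ⟨u', hu', rfl⟩
  · have := (G.H_ru h hh).ne_zero
    exact Or.inl ⟨h' * h⁻¹, G.H_mul _ hh' _ (G.H_inv _ hh), by field_simp⟩
  · have := (G.H_ru h hh).ne_zero
    refine Or.inr ⟨h * u', G.HR _ hh _ hu', ?_⟩
    rw [map_mul, ← Complex.inv_eq_conj (G.H_ru h hh).norm]; field_simp
  · have := G.R_ne hu
    refine Or.inr ⟨h' * u, G.HR _ hh' _ hu, ?_⟩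
    rw [map_mul, Complex.conj_conj, ← Complex.inv_eq_conj (G.R_norm u hu)]; field_simp
  · have := G.R_ne hu
    exact Or.inl ⟨u' / u, G.R_div _ hu' _ hu, by field_simp⟩

lemma orb_symm {z z' : ℂ} (h : Orb G.H G.R z z') : Orb G.H G.R z' z :=
  G.orb_euclid h (G.orb_refl z)

lemma H_iff {z : ℂ} : z ∈ G.H ↔ z ^ G.H.ncard = 1 := by
  classical
  have key : ∀ h ∈ G.H, h ^ G.H.ncard = 1 := by
    intro h hh
    have h0 := (G.H_ru h hh).ne_zero
    have e : ∏ x ∈ G.finH.toFinset, h * x = ∏ x ∈ G.finH.toFinset, x :=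
      Finset.prod_nbij' (fun x => h * x) (fun x => h⁻¹ * x)
        (fun x hx => G.finH.mem_toFinset.2 (G.H_mul _ hh _ (G.finH.mem_toFinset.1 hx)))
        (fun x hx => G.finH.mem_toFinset.2
          (G.H_mul _ (G.H_inv _ hh) _ (G.finH.mem_toFinset.1 hx)))
        (fun x _ => inv_mul_cancel_left₀ h0 x) (fun x _ => mul_inv_cancel_left₀ h0 x)
        (fun _ _ => rfl)
    rw [Finset.prod_mul_distrib, Finset.prod_const, ← Set.ncard_eq_toFinset_card _ G.finH] at e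
    exact (mul_eq_right₀ (Finset.prod_ne_zero_iff.2 fun x hx =>
      (G.H_ru x (G.finH.mem_toFinset.1 hx)).ne_zero)).1 e
  refine ⟨key z, fun hz => ?_⟩
  have e : G.finH.toFinset = Polynomial.nthRootsFinset G.H.ncard (1 : ℂ) := by
    refine Finset.eq_of_subset_of_card_le (fun x hx => ?_) ?_
    · exact (Polynomial.mem_nthRootsFinset G.m_pos 1).2 (key x (G.finH.mem_toFinset.1 hx))
    · rw [← Set.ncard_eq_toFinset_card _ G.finH, Polynomial.nthRootsFinset_def]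
      exact (Multiset.toFinset_card_le _).trans (Polynomial.card_nthRoots _ _)
  rw [← G.finH.mem_toFinset, e]
  exact (Polynomial.mem_nthRootsFinset G.m_pos 1).2 hz

/-- orbit under the rotations -/
def rot (z : ℂ) : Set ℂ := (fun h => h * z) '' G.H

/-- orbit -/
def O (z : ℂ) : Set ℂ := {z' | Orb G.H G.R z z'}

/-- points whose orbit is an orbit of the rotations -/
def Short : Set ℂ := {z | ∀ u ∈ G.R, u * conj z ∈ G.rot z}

lemma rot_fin (z : ℂ) : (G.rot z).Finite := G.finH.image _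

lemma rot_card {z : ℂ} (hz : z ≠ 0) : (G.rot z).ncard = G.H.ncard :=
  Set.ncard_image_of_injective _ (mul_left_injective₀ hz)

lemma O_short {z : ℂ} (h : z ∈ G.Short) : G.O z = G.rot z := by
  ext z'
  constructor
  · rintro (⟨h, hh, rfl⟩ | ⟨u, hu, rfl⟩)
    · exact ⟨h, hh, rfl⟩
    · exact h u hu
  · rintro ⟨h, hh, rfl⟩
    exact Or.inl ⟨h, hh, rfl⟩

lemma O_eq {z u : ℂ} (hu : u ∈ G.R) : G.O z = G.rot z ∪ G.rot (u * conj z) := by
  have := G.R_ne hu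
  ext z'
  constructor
  · rintro (⟨h, hh, rfl⟩ | ⟨u', hu', rfl⟩)
    · exact Or.inl ⟨h, hh, rfl⟩
    · exact Or.inr ⟨u' / u, G.R_div _ hu' _ hu, by field_simp⟩
  · rintro (⟨h, hh, rfl⟩ | ⟨h, hh, rfl⟩)
    · exact Or.inl ⟨h, hh, rfl⟩
    · exact Or.inr ⟨h * u, G.HR _ hh _ hu, (mul_assoc _ _ _).symm⟩

lemma short_orb {z z' : ℂ} (h : z ∈ G.Short) (o : Orb G.H G.R z z') : z' ∈ G.Short := by
  obtain ⟨k, hk, rfl⟩ : z' ∈ G.rot z := G.O_short h ▸ o
  intro u hu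
  have k0 := (G.H_ru k hk).ne_zero
  obtain ⟨l, hl, e⟩ := h _ (G.HR _ (G.H_inv _ hk) _ hu)
  refine ⟨l * k⁻¹, G.H_mul _ hl _ (G.H_inv _ hk), ?_⟩
  simp only at e ⊢
  rw [map_mul, ← Complex.inv_eq_conj (G.H_ru k hk).norm, mul_assoc, inv_mul_cancel_left₀ k0, e]
  ring

lemma short_of_fixed {z u : ℂ} (hu : u ∈ G.R) (e : u * conj z = z) : z ∈ G.Short := by
  intro u' hu'
  have := G.R_ne hu
  refine ⟨u' / u, G.R_div _ hu' _ hu, ?_⟩
  simp only
  conv_lhs => rw [← e]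
  field_simp

lemma O_long {z : ℂ} (hz : z ≠ 0) (h : z ∉ G.Short) :
    (G.O z).Finite ∧ (G.O z).ncard = 2 * G.H.ncard ∧ G.R.Nonempty := by
  simp only [Short, Set.mem_ofPred_eq, not_forall] at h
  obtain ⟨u, hu, hn⟩ := h
  rw [G.O_eq hu]
  refine ⟨(G.rot_fin _).union (G.rot_fin _), ?_, u, hu⟩
  rw [Set.ncard_union_eq ?_ (G.rot_fin _) (G.rot_fin _), G.rot_card hz,
    G.rot_card (mul_ne_zero (G.R_ne hu) ((map_ne_zero _).2 hz)), two_mul]
  rw [Set.disjoint_left]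
  rintro _ ⟨h, hh, rfl⟩ ⟨k, hk, e⟩
  have k0 := (G.H_ru k hk).ne_zero
  refine hn ⟨k⁻¹ * h, G.H_mul _ (G.H_inv _ hk) _ hh, ?_⟩
  simp only at e ⊢
  rw [mul_assoc, ← e, inv_mul_cancel_left₀ k0]

lemma O_card {z : ℂ} (hz : z ≠ 0) :
    (G.O z).ncard = G.H.ncard ∨ ((G.O z).ncard = 2 * G.H.ncard ∧ G.R.Nonempty) := by
  by_cases h : z ∈ G.Short
  · left; rw [G.O_short h, G.rot_card hz]
  · exact Or.inr (G.O_long hz h).2

lemma O_fin {z : ℂ} (hz : z ≠ 0) : (G.O z).Finite := by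
  by_cases h : z ∈ G.Short
  · rw [G.O_short h]; exact G.rot_fin z
  · exact (G.O_long hz h).1

/-- weighted number of points -/
noncomputable def wt (A : Set ℂ) : ℕ := A.ncard + (A ∩ G.Short).ncard

lemma wt_O {z : ℂ} (hz : z ≠ 0) : G.wt (G.O z) = 2 * G.H.ncard := by
  unfold wt
  by_cases h : z ∈ G.Short
  · rw [Set.inter_eq_left.2 (show G.O z ⊆ G.Short from fun z' o => G.short_orb h o),
      G.O_short h, G.rot_card hz, two_mul]
  · have : G.O z ∩ G.Short = ∅ :=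
      Set.eq_empty_of_forall_notMem fun z' o => h (G.short_orb o.2 (G.orb_symm o.1))
    rw [this, (G.O_long hz h).2.1]; simp

lemma wt_mono {A B : Set ℂ} (h : A ⊆ B) (hB : B.Finite) : G.wt A ≤ G.wt B :=
  add_le_add (Set.ncard_le_ncard h hB)
    (Set.ncard_le_ncard (Set.inter_subset_inter_left _ h) (hB.inter_of_left _))

lemma wt_union_le (A B : Set ℂ) : G.wt (A ∪ B) ≤ G.wt A + G.wt B := by
  unfold wt
  have h1 := Set.ncard_union_le A B
  have h2 := Set.ncard_union_le (A ∩ G.Short) (B ∩ G.Short)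
  rw [Set.union_inter_distrib_right]
  omega

lemma wt_union {A B : Set ℂ} (h : Disjoint A B) (hA : A.Finite) (hB : B.Finite) :
    G.wt (A ∪ B) = G.wt A + G.wt B := by
  unfold wt
  rw [Set.union_inter_distrib_right, Set.ncard_union_eq h hA hB,
    Set.ncard_union_eq (h.mono Set.inter_subset_left Set.inter_subset_left) (hA.inter_of_left _)
      (hB.inter_of_left _)]
  omega

lemma O_disj {z z' : ℂ} (h : ¬ Orb G.H G.R z z') : Disjoint (G.O z) (G.O z') := by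
  rw [Set.disjoint_left]
  exact fun x h1 h2 => h (G.orb_euclid (G.orb_symm h1) (G.orb_symm h2))

lemma cover {Z Z' : Set ℂ} (fZ' : Z'.Finite) (z0' : ∀ z ∈ Z', z ≠ 0)
    (inv' : ∀ z ∈ Z', G.O z ⊆ Z') (ne' : Z'.Nonempty) (c : G.wt Z' ≤ G.wt Z)
    (p : Fin 3 → ℂ) (hp : ∀ i, p i ≠ 0) (cov : ∀ q ∈ Z, ∃ i, Orb G.H G.R (p i) q) :
    ∃ w : Fin 3 → ℂ, (∀ i, w i ∈ Z') ∧ ∀ q ∈ Z', ∃ i, Orb G.H G.R (w i) q := by
  by_contra hn
  push Not at hn
  have h1 : G.wt Z ≤ 6 * G.H.ncard := by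
    have s : Z ⊆ G.O (p 0) ∪ G.O (p 1) ∪ G.O (p 2) := by
      intro q hq
      obtain ⟨i, hi⟩ := cov q hq
      fin_cases i
      · exact Or.inl (Or.inl hi)
      · exact Or.inl (Or.inr hi)
      · exact Or.inr hi
    have a1 := G.wt_mono s (((G.O_fin (hp 0)).union (G.O_fin (hp 1))).union (G.O_fin (hp 2)))
    have a2 := G.wt_union_le (G.O (p 0) ∪ G.O (p 1)) (G.O (p 2))
    have a3 := G.wt_union_le (G.O (p 0)) (G.O (p 1))
    rw [G.wt_O (hp 0), G.wt_O (hp 1)] at a3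
    rw [G.wt_O (hp 2)] at a2
    omega
  obtain ⟨a, ha⟩ := ne'
  obtain ⟨b, hb, nb⟩ := hn ![a, a, a] (fun i => by fin_cases i <;> exact ha)
  obtain ⟨c', hc, nc⟩ := hn ![a, b, b] (fun i => by fin_cases i <;> assumption)
  obtain ⟨d, hd, nd⟩ := hn ![a, b, c'] (fun i => by fin_cases i <;> assumption)
  have fa := G.O_fin (z0' a ha)
  have fb := G.O_fin (z0' b hb)
  have fc := G.O_fin (z0' c' hc)
  have fd := G.O_fin (z0' d hd)
  have h2 := G.wt_mono (A := G.O a ∪ G.O b ∪ G.O c' ∪ G.O d)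
    (Set.union_subset (Set.union_subset (Set.union_subset (inv' a ha) (inv' b hb)) (inv' c' hc))
      (inv' d hd)) fZ'
  rw [G.wt_union (Set.disjoint_union_left.2 ⟨Set.disjoint_union_left.2
      ⟨G.O_disj (z := a) (nd 0), G.O_disj (z := b) (nd 1)⟩, G.O_disj (z := c') (nd 2)⟩)
      ((fa.union fb).union fc) fd,
    G.wt_union (Set.disjoint_union_left.2 ⟨G.O_disj (z := a) (nc 0), G.O_disj (z := b) (nc 1)⟩)
      (fa.union fb) fc,
    G.wt_union (G.O_disj (z := a) (nb 0)) fa fb, G.wt_O (z0' a ha), G.wt_O (z0' b hb), G.wt_O (z0' c' hc),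
    G.wt_O (z0' d hd)] at h2
  have := G.m_pos
  omega

end Grp

/-- A `5`-configuration of points and poles of lines with a group of symmetries. -/
structure Cfg0 extends Grp where
  P : Set ℂ
  W : Set ℂ
  finP : P.Finite
  finW : W.Finite
  neP : P.Nonempty
  neW : W.Nonempty
  HP : ∀ h ∈ H, ∀ q ∈ P, h * q ∈ P
  RP : ∀ u ∈ R, ∀ q ∈ P, u * conj q ∈ P
  HW : ∀ h ∈ H, ∀ q ∈ W, h * q ∈ W
  RW : ∀ u ∈ R, ∀ q ∈ W, u * conj q ∈ W
  cardP : ∀ x ∈ W, {q ∈ P | inc x q}.ncard = 5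
  cardW : ∀ x ∈ P, {q ∈ W | inc x q}.ncard = 5

namespace Cfg0

/-- exchange of points and lines -/
def dual (C : Cfg0) : Cfg0 :=
  { C with
    P := C.W, W := C.P, finP := C.finW, finW := C.finP, neP := C.neW, neW := C.neP, HP := C.HW,
    RP := C.RW, HW := C.HP, RW := C.RP, cardP := C.cardW, cardW := C.cardP }

variable (C : Cfg0)

lemma W_ne {x : ℂ} (hx : x ∈ C.W) : x ≠ 0 := by
  obtain ⟨q, hq⟩ := Set.nonempty_of_ncard_ne_zero (s := {q ∈ C.P | inc x q})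
    (by rw [C.cardP x hx]; norm_num)
  exact hq.2.ne_left

lemma card_eq : C.W.ncard = C.P.ncard := by
  have := dcount C.finW C.finP inc C.cardP (n := 5) (fun b hb => by
    rw [← C.cardW b hb]; simp only [inc_comm])
  omega

lemma wt_le : C.wt C.W ≤ C.wt C.P := by
  unfold Grp.wt
  rw [C.card_eq]
  refine Nat.add_le_add_left ?_ _
  rcases C.R.eq_empty_or_nonempty with h | ⟨u, hu⟩
  · have : C.Short = Set.univ := Set.eq_univ_of_forall fun z u hu => by simp [h] at hu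
    rw [this, Set.inter_univ, Set.inter_univ, C.card_eq]
  refine Set.ncard_le_ncard_of_injOn (fun x => (conj x)⁻¹) ?_
    (fun x _ y _ e => (starRingEnd ℂ).injective (inv_injective e)) (C.finP.inter_of_left _)
  rintro x ⟨hx, hs⟩
  have x0 := C.W_ne hx
  have x1 : conj x ≠ 0 := (map_ne_zero _).2 x0
  obtain ⟨h, hh, e⟩ := hs u hu
  have h0 := (C.H_ru h hh).ne_zero
  have hd : dir x ∈ C.R := by
    have : dir x = h⁻¹ * u := by
      simp only at e
      rw [dir]; field_simp; linear_combination e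
    rw [this]; exact C.HR _ (C.H_inv _ hh) _ hu
  obtain ⟨q, hq, f⟩ := fixed_of_five (C.cardP x hx) (fun q => dir x * conj q)
    (fun q hq => ⟨C.RP _ hd _ hq.1, inc_mirror hq.2⟩) (fun q _ => refl_refl (dir_norm x0) q)
  have e1 : (conj x)⁻¹ = q :=
    inv_eq_of_mul_eq_one_left (inc_tangent hq.2 (tangent_of_fixed hq.2 f))
  simp only [e1]
  exact ⟨hq.1, C.short_of_fixed hd f⟩

theorem false_of_P (p : Fin 3 → ℂ) (hp : ∀ i, p i ∈ C.P)
    (cov : ∀ q ∈ C.P, ∃ i, Orb C.H C.R (p i) q) : False := by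
  obtain ⟨w, hw, cw⟩ := C.cover C.finW (fun z hz => C.W_ne hz) (fun z hz z' o => by
    rcases o with ⟨h, hh, rfl⟩ | ⟨u, hu, rfl⟩
    · exact C.HW _ hh _ hz
    · exact C.RW _ hu _ hz) C.neW C.wt_le p (fun i => C.dual.W_ne (hp i)) cov
  exact Cfg.false
    { P := C.P, W := C.W, H := C.H, R := C.R, p := p, w := w, H_ru := C.H_ru, H_mul := C.H_mul,
      H_inv := C.H_inv, R_norm := C.R_norm, R_div := C.R_div, HR := C.HR, HP := C.HP, RP := C.RP,
      HW := C.HW, RW := C.RW, pP := hp, wW := hw, orbP := cov, orbW := cw, cardP := C.cardP,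
      cardW := C.cardW }

theorem false_of_W (w : Fin 3 → ℂ) (hw : ∀ i, w i ∈ C.W)
    (cov : ∀ q ∈ C.W, ∃ i, Orb C.H C.R (w i) q) : False := C.dual.false_of_P w hw cov

end Cfg0

end Pool.Agent.Lib.MP_b1882c_co
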