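import Mathlib
import Pool.Agent.Lib.MP_b1882c_co.Transfer

/-! Two concentric regular polygons with an odd number of vertices and different radii have at
most four common orthogonal projections on a line. -/

open scoped ComplexConjugate ComplexOrder
open Matrix

namespace Pool.Agent.Lib.MP_b1882c_co

lemma Tr.prod {S : Type} [CommRing S] {ζ : ℂ} {g : S} {ι : Type} (s : Finset ι) {f : ι → ℂ}
    {f' : ι → S} (h : ∀ i ∈ s, Tr ζ g (f i) (f' i)) : Tr ζ g (∏ i ∈ s, f i) (∏ i ∈ s, f' i) := by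
  classical
  induction s using Finset.induction_on with
  | empty => simpa using Tr.int (ζ := ζ) (g := g) 1
  | insert i s hi ih =>
    rw [Finset.prod_insert hi, Finset.prod_insert hi]
    exact (h i (Finset.mem_insert_self _ _)).mul (ih fun j hj => h j (Finset.mem_insert_of_mem hj))

lemma Tr.det {S : Type} [CommRing S] {ζ : ℂ} {g : S} {n : ℕ} {A : Matrix (Fin n) (Fin n) ℂ}
    {B : Matrix (Fin n) (Fin n) S} (h : ∀ i j, Tr ζ g (A i j) (B i j)) : Tr ζ g A.det B.det := by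
  rw [det_apply', det_apply']
  exact Tr.sum _ fun σ _ => (Tr.int _).mul (Tr.prod _ fun i _ => h _ _)

/-- A linear relation between columns of roots of unity survives Galois conjugation. -/
lemma kernel_conj {N k r n : ℕ} (hN : 0 < N) (hk : k.Coprime N) (U : Matrix (Fin r) (Fin n) ℂ)
    (hU : ∀ i j, U i j ^ N = 1) {v : Fin n → ℂ} (hv : v ≠ 0) (h : U *ᵥ v = 0) :
    ∃ v' : Fin n → ℂ, v' ≠ 0 ∧ (Matrix.of fun i j => U i j ^ k) *ᵥ v' = 0 := by
  obtain ⟨ζ, g, t1, t2⟩ := exists_conj hN hk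
  have d1 : (Uᴴ * U).det = 0 :=
    exists_mulVec_eq_zero_iff.mp ⟨v, hv, by rw [← mulVec_mulVec, h, mulVec_zero]⟩
  have t : Tr ζ g (Uᴴ * U).det
      ((Matrix.of fun i j => U i j ^ k)ᴴ * (Matrix.of fun i j => U i j ^ k)).det := by
    refine Tr.det fun i j => ?_
    rw [Matrix.mul_apply, Matrix.mul_apply]
    refine Tr.sum _ fun l _ => Tr.mul ?_ (t1 _ (hU l j))
    simp only [conjTranspose_apply, of_apply, star_pow]
    exact t1 _ (by rw [← star_pow, hU, star_one])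
  have d2 := t2 _ _ _ _ t (Tr.int 0) (by simpa using d1)
  obtain ⟨v', hv', e⟩ := exists_mulVec_eq_zero_iff.mpr (by simpa using d2)
  exact ⟨v', hv', (conjTranspose_mul_self_mulVec_eq_zero _ _).mp e⟩

lemma quartic_zero {α : Fin 5 → ℂ} (hα : Function.Injective α) {c₀ c₁ c₂ c₃ c₄ : ℂ}
    (h : ∀ i, c₀ + c₁ * α i + c₂ * α i ^ 2 + c₃ * α i ^ 3 + c₄ * α i ^ 4 = 0) :
    c₀ = 0 ∧ c₁ = 0 ∧ c₂ = 0 ∧ c₃ = 0 ∧ c₄ = 0 := by
  have := eq_zero_of_forall_index_sum_mul_pow_eq_zero hα (v := ![c₀, c₁, c₂, c₃, c₄])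
    (fun j => by simpa [Fin.sum_univ_five] using h j)
  exact ⟨congrFun this 0, congrFun this 1, congrFun this 2, congrFun this 3, congrFun this 4⟩

lemma plane_false {α β : Fin 5 → ℂ} (hα : Function.Injective α) (hβ : β 0 ≠ β 1)
    (α0 : ∀ i, α i ≠ 0) (β0 : ∀ i, β i ≠ 0) {A₁ A₂ B₁ B₂ a₁ a₂ b₁ b₂ c : ℂ} (hc : c ≠ 0)
    (hne : ¬ (A₁ = 0 ∧ A₂ = 0 ∧ B₁ = 0 ∧ B₂ = 0))
    (h1 : ∀ i, A₁ * α i + A₂ * (α i)⁻¹ + B₁ * β i + B₂ * (β i)⁻¹ = 0)
    (h2 : ∀ i, a₁ * α i + a₂ * (α i)⁻¹ + b₁ * β i + b₂ * (β i)⁻¹ = c) : False := by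
  have ia : ∀ i, α i * (α i)⁻¹ = 1 := fun i => mul_inv_cancel₀ (α0 i)
  have ib : ∀ i, β i * (β i)⁻¹ = 1 := fun i => mul_inv_cancel₀ (β0 i)
  by_cases hD : B₁ * b₂ - B₂ * b₁ = 0
  · have k1 := quartic_zero hα (c₀ := B₁ * a₂ - b₁ * A₂) (c₁ := -(B₁ * c))
      (c₂ := B₁ * a₁ - b₁ * A₁) (c₃ := 0) (c₄ := 0) fun i => by
        linear_combination α i * B₁ * h2 i - α i * b₁ * h1 i - (B₁ * a₂ - b₁ * A₂) * ia i -
          α i * (β i)⁻¹ * hD
    have k2 := quartic_zero hα (c₀ := B₂ * a₂ - b₂ * A₂) (c₁ := -(B₂ * c))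
      (c₂ := B₂ * a₁ - b₂ * A₁) (c₃ := 0) (c₄ := 0) fun i => by
        linear_combination α i * B₂ * h2 i - α i * b₂ * h1 i - (B₂ * a₂ - b₂ * A₂) * ia i +
          α i * β i * hD
    have e1 : B₁ = 0 := (mul_eq_zero.1 (neg_eq_zero.1 k1.2.1)).resolve_right hc
    have e2 : B₂ = 0 := (mul_eq_zero.1 (neg_eq_zero.1 k2.2.1)).resolve_right hc
    have k3 := quartic_zero hα (c₀ := A₂) (c₁ := 0) (c₂ := A₁) (c₃ := 0) (c₄ := 0) fun i => by
      have := h1 i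
      rw [e1, e2] at this
      linear_combination α i * this - A₂ * ia i
    exact hne ⟨k3.2.2.1, k3.1, e1, e2⟩
  · obtain ⟨D, hDe⟩ : ∃ D, D = B₁ * b₂ - B₂ * b₁ := ⟨_, rfl⟩
    obtain ⟨p₁, hp₁⟩ : ∃ p, p = B₂ * a₁ - b₂ * A₁ := ⟨_, rfl⟩
    obtain ⟨p₂, hp₂⟩ : ∃ p, p = B₂ * a₂ - b₂ * A₂ := ⟨_, rfl⟩
    obtain ⟨q₁, hq₁⟩ : ∃ p, p = b₁ * A₁ - B₁ * a₁ := ⟨_, rfl⟩
    obtain ⟨q₂, hq₂⟩ : ∃ p, p = b₁ * A₂ - B₁ * a₂ := ⟨_, rfl⟩
    obtain ⟨p₀, hp₀⟩ : ∃ p, p = -(B₂ * c) := ⟨_, rfl⟩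
    obtain ⟨q₀, hq₀⟩ : ∃ p, p = B₁ * c := ⟨_, rfl⟩
    rw [← hDe] at hD
    have e1 : ∀ i, D * β i = p₁ * α i + p₂ * (α i)⁻¹ + p₀ := fun i => by
      rw [hDe, hp₁, hp₂, hp₀]; linear_combination b₂ * h1 i - B₂ * h2 i
    have e2 : ∀ i, D * (β i)⁻¹ = q₁ * α i + q₂ * (α i)⁻¹ + q₀ := fun i => by
      rw [hDe, hq₁, hq₂, hq₀]; linear_combination B₁ * h2 i - b₁ * h1 i
    obtain ⟨k0, k1, k2, k3, k4⟩ := quartic_zero hα (c₀ := p₂ * q₂) (c₁ := p₀ * q₂ + p₂ * q₀)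
      (c₂ := p₁ * q₂ + p₀ * q₀ + p₂ * q₁ - D ^ 2) (c₃ := p₁ * q₀ + p₀ * q₁) (c₄ := p₁ * q₁)
      fun i => by
        have f1 : D * β i * α i = p₁ * α i ^ 2 + p₀ * α i + p₂ := by
          rw [e1 i]; linear_combination p₂ * ia i
        have f2 : D * (β i)⁻¹ * α i = q₁ * α i ^ 2 + q₀ * α i + q₂ := by
          rw [e2 i]; linear_combination q₂ * ia i
        have f3 : (D * β i * α i) * (D * (β i)⁻¹ * α i) = D ^ 2 * α i ^ 2 := by
          linear_combination D ^ 2 * α i ^ 2 * ib i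
        rw [f1, f2] at f3
        linear_combination f3
    have D2 : D ^ 2 ≠ 0 := pow_ne_zero 2 hD
    have fin : p₀ = 0 → q₀ = 0 → False := fun g1 g2 => by
      rw [hp₀] at g1
      rw [hq₀] at g2
      have f1 : B₂ = 0 := (mul_eq_zero.1 (neg_eq_zero.1 g1)).resolve_right hc
      have f2 : B₁ = 0 := (mul_eq_zero.1 g2).resolve_right hc
      exact hD (by rw [hDe, f1, f2]; ring)
    by_cases g1 : p₁ = 0
    · by_cases g2 : p₂ = 0
      · refine hβ (mul_left_cancel₀ hD ?_)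
        rw [e1, e1, g1, g2]; ring
      · have z1 : q₂ = 0 := (mul_eq_zero.1 k0).resolve_left g2
        have z2 : q₀ = 0 := by
          rw [z1, mul_zero, zero_add] at k1; exact (mul_eq_zero.1 k1).resolve_left g2
        have z3 : q₁ ≠ 0 := fun z => D2 (by rw [z1, z2, z] at k2; linear_combination -k2)
        refine fin ?_ z2
        rw [z2, mul_zero, zero_add] at k3; exact (mul_eq_zero.1 k3).resolve_right z3
    · have z1 : q₁ = 0 := (mul_eq_zero.1 k4).resolve_left g1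
      have z2 : q₀ = 0 := by
        rw [z1, mul_zero, add_zero] at k3; exact (mul_eq_zero.1 k3).resolve_left g1
      have z3 : q₂ ≠ 0 := fun z => D2 (by rw [z1, z2, z] at k2; linear_combination -k2)
      refine fin ?_ z2
      rw [z2, mul_zero, add_zero] at k1; exact (mul_eq_zero.1 k1).resolve_right z3

lemma sq_inj_odd {m : ℕ} (hm : Odd m) {x y : ℂ} (hx : x ^ m = 1) (hy : y ^ m = 1)
    (h : x ^ 2 = y ^ 2) : x = y := by
  obtain ⟨k, rfl⟩ := hm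
  have x0 : x ≠ 0 := by rintro rfl; simp at hx
  rw [pow_succ, pow_mul] at hx hy
  rw [← h] at hy
  exact mul_left_cancel₀ (pow_ne_zero k (pow_ne_zero 2 x0)) (hx.trans hy.symm)

theorem five_coincidences {m : ℕ} (hm : Odd m) {ζ η : Fin 5 → ℂ} (hζ : ∀ i, ζ i ^ m = 1)
    (hη : ∀ i, η i ^ m = 1) {a b : ℂ} (h : ∀ i, (a * ζ i).re = (b * η i).re)
    (hinj : Function.Injective fun i => (a * ζ i).re) : ‖a‖ = ‖b‖ := by
  by_contra hne
  have m0 : 0 < m := hm.pos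
  have nζ := fun i => Complex.norm_eq_one_of_pow_eq_one (hζ i) m0.ne'
  have nη := fun i => Complex.norm_eq_one_of_pow_eq_one (hη i) m0.ne'
  have ζ0 : ∀ i, ζ i ≠ 0 := fun i e => by simpa [e] using nζ i
  have η0 : ∀ i, η i ≠ 0 := fun i e => by simpa [e] using nη i
  have e : ∀ i, a * ζ i + conj a * (ζ i)⁻¹ = b * η i + conj b * (η i)⁻¹ := fun i => by
    rw [Complex.inv_eq_conj (nζ i), Complex.inv_eq_conj (nη i), ← map_mul, ← map_mul,
      Complex.add_conj, Complex.add_conj, h i]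
  obtain ⟨v, v0, hv⟩ := kernel_conj m0 (Nat.coprime_two_left.mpr hm)
    (Matrix.of fun i : Fin 5 => ![ζ i, (ζ i)⁻¹, η i, (η i)⁻¹])
    (fun i j => by fin_cases j <;> simp [hζ, hη]) (v := ![a, conj a, -b, -conj b])
    (fun z => hne (by
      have h1 : a = 0 := congrFun z 0
      have h2 : -b = 0 := congrFun z 2
      rw [h1, neg_eq_zero.1 h2]))
    (by
      funext i
      simp only [mulVec, dotProduct, Fin.sum_univ_four, of_apply, cons_val, Pi.zero_apply]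
      linear_combination e i)
  refine plane_false (α := fun i => ζ i ^ 2) (β := fun i => η i ^ 2)
    (fun i j g => hinj (by simp only [sq_inj_odd hm (hζ i) (hζ j) g]))
    (fun g => absurd (hinj (a₁ := 0) (a₂ := 1) (by
      simp only [h, sq_inj_odd hm (hη 0) (hη 1) g])) (by decide))
    (fun i => pow_ne_zero 2 (ζ0 i)) (fun i => pow_ne_zero 2 (η0 i))
    (A₁ := v 0) (A₂ := v 1) (B₁ := v 2) (B₂ := v 3) (a₁ := a ^ 2) (a₂ := conj a ^ 2)
    (b₁ := -b ^ 2) (b₂ := -conj b ^ 2) (c := 2 * (b * conj b - a * conj a)) ?_ ?_ ?_ ?_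
  · refine mul_ne_zero two_ne_zero (sub_ne_zero.2 fun g => hne ?_)
    rw [Complex.mul_conj, Complex.mul_conj, Complex.ofReal_inj, Complex.normSq_eq_norm_sq,
      Complex.normSq_eq_norm_sq] at g
    exact ((pow_left_inj₀ (norm_nonneg _) (norm_nonneg _) two_ne_zero).1 g).symm
  · rintro ⟨g0, g1, g2, g3⟩
    exact v0 (by funext j; fin_cases j <;> assumption)
  · intro i
    have := congrFun hv i
    simp only [mulVec, dotProduct, Fin.sum_univ_four, of_apply, cons_val, Pi.zero_apply,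
      inv_pow] at this
    linear_combination this
  · intro i
    have i1 := mul_inv_cancel₀ (ζ0 i)
    have i2 := mul_inv_cancel₀ (η0 i)
    rw [← inv_pow, ← inv_pow]
    linear_combination (a * ζ i + conj a * (ζ i)⁻¹ + b * η i + conj b * (η i)⁻¹) * e i -
      2 * a * conj a * i1 + 2 * b * conj b * i2

end Pool.Agent.Lib.MP_b1882c_co
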