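import Mathlib
import Pool.Agent.Lib.MP_b1882c_co.Count
import Pool.Agent.Lib.MP_b1882c_co.Five

/-! A `5`-configuration has neither at most three orbits of points nor at most three orbits of
lines. -/

open scoped ComplexConjugate

namespace Pool.Agent.Lib.MP_b1882c_co

lemma mem_line_zero {n q : ℂ} (hn : n ≠ 0) (hq : q ≠ 0) : q ∈ line n 0 ↔ dir q = -dir n := by
  have x0 : conj n ≠ 0 := (map_ne_zero _).2 hn
  have x1 : conj q ≠ 0 := (map_ne_zero _).2 hq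
  constructor
  · intro h
    have := line_zero_neg hn h
    rw [dir, div_eq_iff x1]
    linear_combination this
  · intro h
    have h1 := Complex.add_conj (q * conj n)
    rw [map_mul, Complex.conj_conj] at h1
    simp only [dir] at h
    field_simp at h
    have h2 : ((2 * (q * conj n).re : ℝ) : ℂ) = 0 := by rw [← h1]; linear_combination h
    have h3 : 2 * (q * conj n).re = 0 := by exact_mod_cast h2
    show (q * conj n).re = 0
    linarith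

lemma dir_mul_conj {q : ℂ} (hq : q ≠ 0) : dir q * conj q = q :=
  div_mul_cancel₀ _ ((map_ne_zero _).2 hq)

lemma two_others : ∀ i : Fin 3, ∃ j k, ∀ l, l ≠ i → l = j ∨ l = k := by decide

/-- A `5`-configuration in the complex plane. -/
structure Base where
  P : Set ℂ
  S : Set (Set ℂ)
  fin : P.Finite
  ne : P.Nonempty
  isLine : ∀ l ∈ S, ∃ n c, n ≠ 0 ∧ l = line n c
  cardP : ∀ l ∈ S, {q ∈ P | q ∈ l}.ncard = 5
  cardL : ∀ q ∈ P, {l ∈ S | q ∈ l}.ncard = 5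

namespace Base

variable (C : Base)

lemma neS : C.S.Nonempty := by
  obtain ⟨q, hq⟩ := C.ne
  obtain ⟨l, hl⟩ := Set.nonempty_of_ncard_ne_zero (s := {l ∈ C.S | q ∈ l})
    (by rw [C.cardL q hq]; norm_num)
  exact ⟨l, hl.1⟩

lemma finS : C.S.Finite := by
  refine (C.fin.biUnion (t := fun q => {l ∈ C.S | q ∈ l}) fun q hq =>
    Set.finite_of_ncard_ne_zero (by rw [C.cardL q hq]; norm_num)).subset fun l hl => ?_
  obtain ⟨q, hq⟩ := Set.nonempty_of_ncard_ne_zero (s := {q ∈ C.P | q ∈ l})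
    (by rw [C.cardP l hl]; norm_num)
  exact Set.mem_biUnion hq.1 ⟨hl, hq.2⟩

/-- rotations -/
def H : Set ℂ := {h | ‖h‖ = 1 ∧ (∀ q ∈ C.P, h * q ∈ C.P) ∧ ∀ l ∈ C.S, (fun z => h * z) '' l ∈ C.S}

/-- reflections -/
def R : Set ℂ :=
  {u | ‖u‖ = 1 ∧ (∀ q ∈ C.P, u * conj q ∈ C.P) ∧ ∀ l ∈ C.S, (fun z => u * conj z) '' l ∈ C.S}

lemma H_one : (1 : ℂ) ∈ C.H := ⟨by simp, by simp, by simp⟩

lemma H_mul : ∀ h ∈ C.H, ∀ h' ∈ C.H, h * h' ∈ C.H := by
  intro h hh h' hh'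
  refine ⟨by simp [hh.1, hh'.1], fun q hq => ?_, fun l hl => ?_⟩
  · rw [mul_assoc]; exact hh.2.1 _ (hh'.2.1 _ hq)
  · have := hh.2.2 _ (hh'.2.2 _ hl)
    rw [Set.image_image] at this
    simpa only [mul_assoc] using this

lemma H_pow {h : ℂ} (hh : h ∈ C.H) (n : ℕ) : h ^ n ∈ C.H := by
  induction n with
  | zero => simpa using C.H_one
  | succ n ih => rw [pow_succ]; exact C.H_mul _ ih _ hh

lemma exists_ne : ∃ q ∈ C.P, q ≠ 0 := by
  obtain ⟨l, hl⟩ := C.neS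
  have h := C.cardP _ hl
  obtain ⟨a, ha, hne⟩ := Set.exists_ne_of_one_lt_ncard (s := {q ∈ C.P | q ∈ l})
    (by rw [h]; norm_num) 0
  exact ⟨a, ha.1, hne⟩

lemma H_ru : ∀ h ∈ C.H, RU h := by
  intro h hh
  obtain ⟨q, hq, q0⟩ := C.exists_ne
  have h0 : h ≠ 0 := by rintro rfl; simpa using hh.1
  obtain ⟨a, b, hab, e⟩ := C.fin.exists_lt_map_eq_of_forall_mem (f := fun n : ℕ => h ^ n * q)
    (fun n => (C.H_pow hh n).2.1 _ hq)
  obtain ⟨k, rfl⟩ := Nat.exists_eq_add_of_lt hab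
  refine ⟨k + 1, by omega, ?_⟩
  have e1 := mul_right_cancel₀ q0 e
  rw [add_assoc, pow_add] at e1
  exact (mul_left_cancel₀ (pow_ne_zero a h0) (e1.symm.trans (mul_one _).symm))

lemma H_inv : ∀ h ∈ C.H, h⁻¹ ∈ C.H := by
  intro h hh
  obtain ⟨n, hn, e⟩ := C.H_ru h hh
  obtain ⟨k, rfl⟩ := Nat.exists_eq_add_of_lt hn
  rw [zero_add, pow_succ] at e
  rw [← eq_inv_of_mul_eq_one_left e]
  exact C.H_pow hh k

lemma R_div : ∀ u ∈ C.R, ∀ u' ∈ C.R, u / u' ∈ C.H := by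
  intro u hu u' hu'
  have key : ∀ z, u * conj (u' * conj z) = u / u' * z := by
    intro z
    rw [map_mul, Complex.conj_conj, ← Complex.inv_eq_conj hu'.1]; ring
  refine ⟨by simp [hu.1, hu'.1], fun q hq => ?_, fun l hl => ?_⟩
  · rw [← key]; exact hu.2.1 _ (hu'.2.1 _ hq)
  · have := hu.2.2 _ (hu'.2.2 _ hl)
    rw [Set.image_image] at this
    simpa only [key] using this

lemma HR : ∀ h ∈ C.H, ∀ u ∈ C.R, h * u ∈ C.R := by
  intro h hh u hu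
  refine ⟨by simp [hh.1, hu.1], fun q hq => ?_, fun l hl => ?_⟩
  · rw [mul_assoc]; exact hh.2.1 _ (hu.2.1 _ hq)
  · have := hh.2.2 _ (hu.2.2 _ hl)
    rw [Set.image_image] at this
    simpa only [mul_assoc] using this

/-- the group of linear symmetries -/
def grp : Grp where
  H := C.H
  R := C.R
  finH := by
    obtain ⟨q, hq, q0⟩ := C.exists_ne
    exact Set.Finite.of_injOn (f := fun h => h * q) (t := C.P) (fun h hh => hh.2.1 q hq)
      (mul_left_injective₀ q0).injOn C.fin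
  H_one := C.H_one
  H_ru := C.H_ru
  H_mul := C.H_mul
  H_inv := C.H_inv
  R_norm := fun _ hu => hu.1
  R_div := C.R_div
  HR := C.HR

/-- poles of the lines -/
def W : Set ℂ := {w | pol w ∈ C.S}

lemma finW : C.W.Finite := C.finS.preimage pol_inj.injOn

lemma HW : ∀ h ∈ C.H, ∀ q ∈ C.W, h * q ∈ C.W := by
  intro h hh q hq
  have := hh.2.2 _ hq
  rwa [pol_rot hh.1] at this

lemma RW : ∀ u ∈ C.R, ∀ q ∈ C.W, u * conj q ∈ C.W := by
  intro u hu q hq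
  have := hu.2.2 _ hq
  rwa [pol_refl hu.1] at this

lemma zero_line {l : Set ℂ} (hl : l ∈ C.S) (h0 : (0 : ℂ) ∈ l) : ∃ n, n ≠ 0 ∧ l = line n 0 := by
  obtain ⟨n, c, hn, e⟩ := C.isLine l hl
  rw [e] at h0
  have h3 : c = 0 := by simpa [line] using h0.symm
  exact ⟨n, hn, h3 ▸ e⟩

lemma exists_pol {l : Set ℂ} (hl : l ∈ C.S) (h0 : (0 : ℂ) ∉ l) : ∃ w, l = pol w := by
  obtain ⟨n, c, hn, rfl⟩ := C.isLine l hl
  have hc : c ≠ 0 := by
    rintro rfl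
    exact h0 (by simp [line])
  exact ⟨_, line_eq_pol hc⟩

/-- the configuration of points and poles, when no line passes through the centre -/
def cfg (h : ∀ l ∈ C.S, (0 : ℂ) ∉ l) : Cfg0 :=
  { C.grp with
    P := C.P, W := C.W, finP := C.fin, finW := C.finW, neP := C.ne,
    neW := by
      obtain ⟨l, hl⟩ := C.neS
      obtain ⟨w, rfl⟩ := C.exists_pol hl (h l hl)
      exact ⟨w, hl⟩
    HP := fun _ hh => hh.2.1, RP := fun _ hu => hu.2.1, HW := C.HW, RW := C.RW,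
    cardP := fun _ hx => C.cardP _ hx,
    cardW := by
      intro x hx
      rw [← C.cardL x hx, ← Set.ncard_image_of_injective _ pol_inj]
      congr 1
      ext l
      constructor
      · rintro ⟨y, ⟨h1, h2⟩, rfl⟩
        exact ⟨h1, inc_comm.1 h2⟩
      · rintro ⟨h1, h2⟩
        obtain ⟨y, rfl⟩ := C.exists_pol h1 (h _ h1)
        exact ⟨y, ⟨h1, inc_comm.1 h2⟩, rfl⟩ }

lemma norm_le_two {l : Set ℂ} (hl : l ∈ C.S) (r : ℝ) : {q ∈ l | ‖q‖ = r}.ncard ≤ 2 ∧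
    {q ∈ l | ‖q‖ = r}.Finite := by
  obtain ⟨n, c, hn, rfl⟩ := C.isLine l hl
  rcases ({q ∈ line n c | ‖q‖ = r} : Set ℂ).eq_empty_or_nonempty with h | ⟨q, hq⟩
  · rw [h]; simp
  have hsub : {q ∈ line n c | ‖q‖ = r} ⊆ {q, dir n * conj q} := fun q' hq' =>
    line_two hn hq.1 hq'.1 (hq'.2.trans hq.2.symm)
  exact ⟨(Set.ncard_le_ncard hsub).trans ((Set.ncard_insert_le _ _).trans (by simp)),
    (Set.toFinite _).subset hsub⟩

lemma zero_notMem (p : Fin 3 → ℂ) (cov : ∀ q ∈ C.P, ∃ i, Orb C.H C.R (p i) q) :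
    (0 : ℂ) ∉ C.P := by
  intro h0
  obtain ⟨i, hi⟩ := cov 0 h0
  have hi0 : ‖p i‖ = 0 := by simpa using (C.grp.orb_norm hi).symm
  obtain ⟨j, k, hjk⟩ := Cfg.third'' i
  have all : ∀ l ∈ C.S, (0 : ℂ) ∈ l := by
    intro l hl
    by_contra hne
    have hsub : {q ∈ C.P | q ∈ l} ⊆ {q ∈ l | ‖q‖ = ‖p j‖} ∪ {q ∈ l | ‖q‖ = ‖p k‖} := by
      rintro q ⟨h1, h2⟩
      obtain ⟨m, hm⟩ := cov q h1
      have := C.grp.orb_norm hm
      rcases hjk m with rfl | rfl | rfl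
      · rw [hi0, norm_eq_zero] at this
        exact absurd (this ▸ h2) hne
      · exact Or.inl ⟨h2, this⟩
      · exact Or.inr ⟨h2, this⟩
    have h1 := Set.ncard_le_ncard hsub ((C.norm_le_two hl _).2.union (C.norm_le_two hl _).2)
    have h2 := Set.ncard_union_le {q ∈ l | ‖q‖ = ‖p j‖} {q ∈ l | ‖q‖ = ‖p k‖}
    have h3 := (C.norm_le_two hl ‖p j‖).1
    have h4 := (C.norm_le_two hl ‖p k‖).1
    have h5 := C.cardP l hl
    omega
  obtain ⟨q, hq, q0⟩ := C.exists_ne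
  have h1 := C.cardL q hq
  have h2 : {l ∈ C.S | q ∈ l}.ncard ≤ 1 := by
    rw [Set.ncard_le_one (Set.finite_of_ncard_ne_zero (by omega))]
    intro a ha b hb
    have z : ∀ l ∈ C.S, ∃ n, n ≠ 0 ∧ l = line n 0 := by
      intro l hl
      obtain ⟨n, c, hn, e⟩ := C.isLine l hl
      have := all l hl
      rw [e] at this
      have h3 : c = 0 := by simpa [line] using this.symm
      exact ⟨n, hn, h3 ▸ e⟩
    obtain ⟨n, hn, e⟩ := z a ha.1
    obtain ⟨n', hn', e'⟩ := z b hb.1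
    have h3 := ha.2
    have h4 := hb.2
    rw [e] at h3
    rw [e'] at h4
    rw [e, e']
    exact (line_unique hn hn' q0 h3 h4).antisymm (line_unique hn' hn q0 h4 h3)
  omega

theorem false_P (p : Fin 3 → ℂ) (hp : ∀ i, p i ∈ C.P)
    (cov : ∀ q ∈ C.P, ∃ i, Orb C.H C.R (p i) q) : False := by
  have z := C.zero_notMem p cov
  refine (C.cfg fun l hl h0 => ?_).false_of_P p hp cov
  obtain ⟨n, hn, rfl⟩ := C.zero_line hl h0
  have h5 := C.cardP _ hl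
  choose! f hf using cov
  obtain ⟨a, ha, b, hb, hne, e⟩ := Set.exists_ne_map_eq_of_ncard_lt_of_maps_to
    (s := {q ∈ C.P | q ∈ line n 0}) (t := (Set.univ : Set (Fin 3))) (f := f)
    (by rw [h5]; simp) (fun _ _ => Set.mem_univ _)
  have o : Orb C.H C.R a b := C.grp.orb_euclid (hf a ha.1) (e ▸ hf b hb.1)
  have a0 : a ≠ 0 := fun h => z (h ▸ ha.1)
  have e1 : b = dir n * conj a :=
    (line_two hn ha.2 hb.2 (C.grp.orb_norm o)).resolve_left (Ne.symm hne)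
  obtain ⟨x, hx, e⟩ := fixed_of_five h5 (fun q => -q) (fun q hq => by
    refine ⟨?_, ?_⟩
    · rcases o with ⟨h, hh, e2⟩ | ⟨u, hu, e2⟩
      · rw [e1, line_zero_neg hn ha.2] at e2
        have : h = -1 := mul_right_cancel₀ a0 (by rw [← e2]; ring)
        have h3 := hh.2.1 q hq.1
        rwa [this, neg_one_mul] at h3
      · have : u = dir n := mul_right_cancel₀ ((map_ne_zero _).2 a0) (e2.symm.trans e1)
        have h3 := hu.2.1 q hq.1
        rwa [this, line_zero_neg hn hq.2] at h3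
    · have h3 : (q * conj n).re = 0 := hq.2
      show (-q * conj n).re = 0
      rw [neg_mul, Complex.neg_re, h3, neg_zero]) (fun q _ => neg_neg q)
  have : x = 0 := by linear_combination (-1 / 2 : ℂ) * e
  exact z (this ▸ hx.1)

/-- poles of given norm of lines through `q` -/
def N (r : ℝ) (q : ℂ) : Set ℂ := {x ∈ C.W | inc q x ∧ ‖x‖ = r}

lemma N_le (r : ℝ) (q : ℂ) : (C.N r q).ncard ≤ 2 := by
  rcases (C.N r q).eq_empty_or_nonempty with h | ⟨x, hx⟩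
  · rw [h]; simp
  have hsub : C.N r q ⊆ {x, dir q * conj x} := fun x' hx' =>
    inc_two hx.2.1 hx'.2.1 (hx'.2.2.trans hx.2.2.symm)
  exact (Set.ncard_le_ncard hsub).trans ((Set.ncard_insert_le _ _).trans (by simp))

lemma local_count {a b : ℂ} (hW : ∀ x ∈ C.W, Orb C.H C.R a x ∨ Orb C.H C.R b x) {q : ℂ}
    (hq : q ∈ C.P) (q0 : q ≠ 0) : {l ∈ C.S | (0 : ℂ) ∈ l ∧ q ∈ l}.ncard = 1 ∧
      (C.N ‖a‖ q).ncard = 2 ∧ (C.N ‖b‖ q).ncard = 2 ∧ ‖a‖ ≠ ‖b‖ := by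
  have fD : {l ∈ C.S | (0 : ℂ) ∈ l ∧ q ∈ l}.Finite := C.finS.subset fun _ h => h.1
  have fN : ∀ r, (C.N r q).Finite := fun r => C.finW.subset fun _ h => h.1
  have h1 : {l ∈ C.S | (0 : ℂ) ∈ l ∧ q ∈ l}.ncard ≤ 1 := by
    rw [Set.ncard_le_one fD]
    intro l hl l' hl'
    obtain ⟨n, hn, e⟩ := C.zero_line hl.1 hl.2.1
    obtain ⟨n', hn', e'⟩ := C.zero_line hl'.1 hl'.2.1
    have h3 := hl.2.2
    have h4 := hl'.2.2
    rw [e] at h3
    rw [e'] at h4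
    rw [e, e']
    exact (line_unique hn hn' q0 h3 h4).antisymm (line_unique hn' hn q0 h4 h3)
  have hsub : {l ∈ C.S | q ∈ l} ⊆
      {l ∈ C.S | (0 : ℂ) ∈ l ∧ q ∈ l} ∪ pol '' (C.N ‖a‖ q ∪ C.N ‖b‖ q) := by
    rintro l ⟨hl, hql⟩
    by_cases h0 : (0 : ℂ) ∈ l
    · exact Or.inl ⟨hl, h0, hql⟩
    · obtain ⟨x, rfl⟩ := C.exists_pol hl h0
      refine Or.inr ⟨x, ?_, rfl⟩
      rcases hW x hl with o | o
      · exact Or.inl ⟨hl, inc_comm.1 hql, C.grp.orb_norm o⟩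
      · exact Or.inr ⟨hl, inc_comm.1 hql, C.grp.orb_norm o⟩
  have h2 := (Set.ncard_le_ncard hsub (fD.union (((fN _).union (fN _)).image _))).trans
    (Set.ncard_union_le _ _)
  rw [C.cardL q hq, Set.ncard_image_of_injective _ pol_inj] at h2
  have h3 := Set.ncard_union_le (C.N ‖a‖ q) (C.N ‖b‖ q)
  have h4 := C.N_le ‖a‖ q
  have h5 := C.N_le ‖b‖ q
  refine ⟨by omega, by omega, by omega, fun e => ?_⟩
  rw [← e, Set.union_self] at h2
  omega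

theorem diam_false {a b : ℂ} (hW : ∀ x ∈ C.W, Orb C.H C.R a x ∨ Orb C.H C.R b x) : False := by
  obtain ⟨q₀, hq₀, q0⟩ := C.exists_ne
  have lc := fun q (hq : q ∈ {q ∈ C.P | q ≠ 0}) => C.local_count hW hq.1 hq.2
  have hab := (lc q₀ ⟨hq₀, q0⟩).2.2.2
  have fP : {q ∈ C.P | q ≠ 0}.Finite := C.fin.subset fun _ h => h.1
  have oa : ∀ x ∈ C.W, ‖x‖ = ‖a‖ → Orb C.H C.R a x := fun x hx e =>
    (hW x hx).resolve_right fun o => hab (e.symm.trans (C.grp.orb_norm o))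
  have ob : ∀ x ∈ C.W, ‖x‖ = ‖b‖ → Orb C.H C.R b x := fun x hx e =>
    (hW x hx).resolve_left fun o => hab ((C.grp.orb_norm o).symm.trans e)
  have inv : ∀ x ∈ C.W, ∀ y, Orb C.H C.R x y → y ∈ C.W := by
    rintro x hx y (⟨h, hh, rfl⟩ | ⟨u, hu, rfl⟩)
    · exact C.HW _ hh _ hx
    · exact C.RW _ hu _ hx
  obtain ⟨x₀, hx₀⟩ := Set.nonempty_of_ncard_ne_zero (s := C.N ‖a‖ q₀)
    (by rw [(lc q₀ ⟨hq₀, q0⟩).2.1]; norm_num)
  have ha : a ∈ C.W := inv _ hx₀.1 _ (C.grp.orb_symm (oa _ hx₀.1 hx₀.2.2))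
  have a0 : a ≠ 0 := by
    rw [← norm_ne_zero_iff, ← hx₀.2.2, norm_ne_zero_iff]; exact hx₀.2.1.ne_right
  have c1 := dcount fP (C.grp.O_fin a0) inc (m := 2) (n := 5) (fun q hq => by
    rw [← (lc q hq).2.1]
    congr 1
    ext x
    exact ⟨fun h => ⟨inv _ ha _ h.1, h.2, C.grp.orb_norm h.1⟩, fun h => ⟨oa _ h.1 h.2.2, h.2.1⟩⟩)
    (fun x hx => by
      rw [← C.cardP _ (inv _ ha _ hx)]
      congr 1
      ext q
      exact ⟨fun h => ⟨h.1.1, inc_comm.1 h.2⟩,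
        fun h => ⟨⟨h.1, inc.ne_right h.2⟩, inc_comm.1 h.2⟩⟩)
  have fib : ∀ q ∈ {q ∈ C.P | q ≠ 0}, ∃ l ∈ C.S, (0 : ℂ) ∈ l ∧
      {q' ∈ {q ∈ C.P | q ≠ 0} | dir q' = dir q} = {q' ∈ C.P | q' ∈ l} \ {0} := by
    intro q hq
    obtain ⟨l, hl, h0, hql⟩ := Set.nonempty_of_ncard_ne_zero
      (s := {l ∈ C.S | (0 : ℂ) ∈ l ∧ q ∈ l}) (by rw [(lc q hq).1]; norm_num)
    refine ⟨l, hl, h0, ?_⟩
    obtain ⟨n, hn, rfl⟩ := C.zero_line hl h0
    rw [(mem_line_zero hn hq.2).1 hql]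
    ext q'
    exact ⟨fun h => ⟨⟨h.1.1, (mem_line_zero hn h.1.2).2 h.2⟩, h.1.2⟩,
      fun h => ⟨⟨h.1.1, h.2⟩, (mem_line_zero hn h.2).1 h.1.2⟩⟩
  have c2 : ∀ e, (∀ l ∈ C.S, (0 : ℂ) ∈ l → ({q' ∈ C.P | q' ∈ l} \ {0}).ncard = e) →
      {q ∈ C.P | q ≠ 0}.ncard * 1 = (dir '' {q ∈ C.P | q ≠ 0}).ncard * e := fun e he =>
    dcount fP (fP.image dir) (fun q δ => dir q = δ) (fun q hq => by
      rw [Set.ncard_eq_one]
      exact ⟨dir q, Set.eq_singleton_iff_unique_mem.2 ⟨⟨⟨q, hq, rfl⟩, rfl⟩, fun _ h => h.2.symm⟩⟩)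
      (by
        rintro _ ⟨q, hq, rfl⟩
        obtain ⟨l, hl, h0, e'⟩ := fib q hq
        rw [e', he l hl h0])
  have rotΔ : ∀ h ∈ C.H, ∀ δ ∈ dir '' {q ∈ C.P | q ≠ 0}, h ^ 2 * δ ∈ dir '' {q ∈ C.P | q ≠ 0} := by
    rintro h hh _ ⟨q, hq, rfl⟩
    exact ⟨h * q, ⟨hh.2.1 q hq.1, mul_ne_zero (C.H_ru h hh).ne_zero hq.2⟩, dir_rot hh.1⟩
  have hm := C.grp.m_pos
  have hO := C.grp.O_card a0
  by_cases z : (0 : ℂ) ∈ C.P
  · have e4 : ∀ l ∈ C.S, (0 : ℂ) ∈ l → ({q' ∈ C.P | q' ∈ l} \ {0}).ncard = 4 := fun l hl h0 => by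
      rw [Set.ncard_sdiff_singleton_of_mem (s := {q' ∈ C.P | q' ∈ l}) ⟨z, h0⟩, C.cardP l hl]
    have c3 := c2 4 e4
    have c4 := dcount fP (B := {l ∈ C.S | (0 : ℂ) ∈ l}) (C.finS.subset fun _ h => h.1)
      (fun q l => q ∈ l) (m := 1) (n := 4) (fun q hq => by
        rw [← (lc q hq).1]
        congr 1
        ext l
        exact and_assoc)
      (fun l hl => by
        rw [← e4 l hl.1 hl.2]
        congr 1
        ext q
        exact ⟨fun h => ⟨⟨h.1.1, h.2⟩, h.1.2⟩, fun h => ⟨⟨h.1.1, h.2⟩, h.1.2⟩⟩)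
    rw [C.cardL 0 z] at c4
    have hI : Complex.I ∈ C.H := by
      refine C.grp.H_iff.2 ?_
      obtain ⟨k, hk⟩ : ∃ k, C.grp.H.ncard = 4 * k := ⟨C.grp.H.ncard / 4, by omega⟩
      rw [hk, pow_mul, Complex.I_pow_four, one_pow]
    obtain ⟨_, ⟨q, hq, rfl⟩, e⟩ := fixed_of_five (s := dir '' {q ∈ C.P | q ≠ 0}) (by omega)
      (fun δ => -δ) (fun δ hδ => by simpa using rotΔ _ hI δ hδ) (fun δ _ => neg_neg δ)
    exact dir_ne hq.2 (by linear_combination (-1 / 2 : ℂ) * e)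
  have e5 : ∀ l ∈ C.S, (0 : ℂ) ∈ l → ({q' ∈ C.P | q' ∈ l} \ {0}).ncard = 5 := fun l hl _ => by
    rw [Set.sdiff_singleton_eq_self fun h => z h.1, C.cardP l hl]
  have c3 := c2 5 e5
  have f5 : {q' ∈ {q ∈ C.P | q ≠ 0} | dir q' = dir q₀}.ncard = 5 := by
    obtain ⟨l, hl, h0, e'⟩ := fib q₀ ⟨hq₀, q0⟩
    rw [e', e5 l hl h0]
  have nneg : ¬ ∀ q ∈ C.P, q ≠ 0 → dir q = dir q₀ → -q ∈ C.P := fun h => by
    obtain ⟨x, hx, e⟩ := fixed_of_five f5 (fun q => -q) (fun q hq =>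
      ⟨⟨h q hq.1.1 hq.1.2 hq.2, neg_ne_zero.2 hq.1.2⟩, by rw [← hq.2]; simp [dir]⟩)
      (fun q _ => neg_neg q)
    exact hx.1.2 (by linear_combination (-1 / 2 : ℂ) * e)
  have hodd : Odd C.grp.H.ncard := by
    by_contra h
    have : (-1 : ℂ) ∈ C.H := C.grp.H_iff.2 (Nat.not_odd_iff_even.1 h).neg_one_pow
    exact nneg fun q hq _ _ => by simpa using this.2.1 q hq
  have d0 := dir_ne q0
  have inj : Set.InjOn (fun h : ℂ => h ^ 2 * dir q₀) C.grp.H := fun h hh k hk e =>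
    sq_inj_odd hodd (C.grp.H_iff.1 hh) (C.grp.H_iff.1 hk) (mul_right_cancel₀ d0 e)
  have sub : (fun h : ℂ => h ^ 2 * dir q₀) '' C.grp.H ⊆ dir '' {q ∈ C.P | q ≠ 0} := by
    rintro _ ⟨h, hh, rfl⟩
    exact rotΔ h hh _ ⟨q₀, ⟨hq₀, q0⟩, rfl⟩
  have le := Set.ncard_le_ncard sub (fP.image dir)
  rw [inj.ncard_image] at le
  obtain ⟨c5, u, hu⟩ := hO.resolve_left (by omega)
  have eq := Set.eq_of_subset_of_ncard_le sub (by rw [inj.ncard_image]; omega) (fP.image dir)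
  have hR : dir q₀ ∈ C.R := by
    obtain ⟨h, hh, e⟩ : dir (u * conj q₀) ∈ (fun h : ℂ => h ^ 2 * dir q₀) '' C.grp.H := by
      rw [eq]
      exact ⟨_, ⟨hu.2.1 q₀ hq₀, mul_ne_zero (C.grp.R_ne hu) ((map_ne_zero _).2 q0)⟩, rfl⟩
    have h0 := (C.H_ru h hh).ne_zero
    have hu' := C.HR _ (C.H_inv _ hh) _ hu
    rw [dir_refl hu.1] at e
    have e2 : (h⁻¹ * u) ^ 2 = dir q₀ ^ 2 := by
      field_simp at e ⊢
      linear_combination -e
    rcases sq_eq_sq_iff_eq_or_eq_neg.1 e2 with g | g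
    · exact g ▸ hu'
    · refine absurd (fun q hq q1 e => ?_) nneg
      have := hu'.2.1 q hq
      rwa [g, ← e, neg_mul, dir_mul_conj q1] at this
  have ang : ∀ c : ℂ, (∀ x ∈ C.W, ‖x‖ = ‖c‖ → Orb C.H C.R c x) → ∀ q, (C.N ‖c‖ q).ncard = 2 →
      dir q = dir q₀ → ∃ h ∈ C.H, inc q (h * c) := by
    intro c oc q h2 e
    obtain ⟨x, hx⟩ := Set.nonempty_of_ncard_ne_zero (s := C.N ‖c‖ q) (by omega)
    rcases oc x hx.1 hx.2.2 with ⟨h, hh, rfl⟩ | ⟨v, hv, rfl⟩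
    · exact ⟨h, hh, hx.2.1⟩
    · refine ⟨dir q₀ / v, C.R_div _ hR _ hv, ?_⟩
      have := inc_mirror hx.2.1
      rwa [e, map_mul, Complex.conj_conj, ← Complex.inv_eq_conj hv.1, ← mul_assoc,
        ← div_eq_mul_inv] at this
  have ff : {q' ∈ {q ∈ C.P | q ≠ 0} | dir q' = dir q₀}.Finite := fP.subset fun _ h => h.1
  obtain ⟨f, finj, hf⟩ : ∃ f : Fin 5 → ℂ, Function.Injective f ∧
      ∀ i, f i ∈ {q' ∈ {q ∈ C.P | q ≠ 0} | dir q' = dir q₀} := by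
    have e := Finset.equivFinOfCardEq ((Set.ncard_eq_toFinset_card _ ff).symm.trans f5)
    exact ⟨fun i => (e.symm i).1, Subtype.val_injective.comp e.symm.injective,
      fun i => ff.mem_toFinset.1 (e.symm i).2⟩
  choose ζ hζ iζ using fun i => ang a oa (f i) (lc _ (hf i).1).2.1 (hf i).2
  choose η hη iη using fun i => ang b ob (f i) (lc _ (hf i).1).2.2.1 (hf i).2
  have x0 : conj q₀ ≠ 0 := (map_ne_zero _).2 q0
  have real : ∀ i, ∃ r : ℝ, conj (f i) = r * conj q₀ := fun i => by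
    have x1 : conj (f i) ≠ 0 := (map_ne_zero _).2 (hf i).1.2
    have e := (hf i).2
    simp only [dir] at e
    obtain ⟨r, hr⟩ := Complex.conj_eq_iff_real.1 (show conj (conj (f i) / conj q₀) =
      conj (f i) / conj q₀ by
        rw [map_div₀, Complex.conj_conj, Complex.conj_conj]
        field_simp at e ⊢
        linear_combination e)
    exact ⟨r, by rw [← hr]; field_simp⟩
  choose r hr using real
  have val : ∀ (c h : ℂ) i, inc (f i) (h * c) → r i * (c * conj q₀ * h).re = 1 := by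
    intro c h i hi
    rw [← Complex.re_ofReal_mul, ← show (h * c * conj (f i)).re = 1 from hi, hr]
    congr 1
    ring
  have := five_coincidences hodd (fun i => C.grp.H_iff.1 (hζ i)) (fun i => C.grp.H_iff.1 (hη i))
    (a := a * conj q₀) (b := b * conj q₀)
    (fun i => (eq_inv_of_mul_eq_one_right (val _ _ i (iζ i))).trans
      (eq_inv_of_mul_eq_one_right (val _ _ i (iη i))).symm)
    (fun i j e => finj ((starRingEnd ℂ).injective (by
      simp only [eq_inv_of_mul_eq_one_right (val _ _ i (iζ i)),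
        eq_inv_of_mul_eq_one_right (val _ _ j (iζ j)), inv_inj] at e
      rw [hr, hr, e])))
  rw [norm_mul, norm_mul] at this
  exact hab (mul_right_cancel₀ (norm_ne_zero_iff.2 x0) this)

/-- two lines in the same orbit -/
def OrbL (l l' : Set ℂ) : Prop :=
  (∃ h ∈ C.H, l' = (fun z => h * z) '' l) ∨ ∃ u ∈ C.R, l' = (fun z => u * conj z) '' l

lemma OrbL.zero {l l' : Set ℂ} (o : C.OrbL l l') : (0 : ℂ) ∈ l' ↔ (0 : ℂ) ∈ l := by
  rcases o with ⟨h, hh, rfl⟩ | ⟨u, hu, rfl⟩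
  · refine ⟨?_, fun g => ⟨0, g, by simp⟩⟩
    rintro ⟨z, hz, e⟩
    rwa [(mul_eq_zero.1 e).resolve_left (C.H_ru h hh).ne_zero] at hz
  · refine ⟨?_, fun g => ⟨0, g, by simp⟩⟩
    rintro ⟨z, hz, e⟩
    rwa [(map_eq_zero _).1 ((mul_eq_zero.1 e).resolve_left (C.grp.R_ne hu))] at hz

lemma OrbL.pol {w x : ℂ} (o : C.OrbL (pol w) (pol x)) : Orb C.H C.R w x := by
  rcases o with ⟨h, hh, e⟩ | ⟨u, hu, e⟩
  · rw [pol_rot hh.1] at e
    exact Or.inl ⟨h, hh, pol_inj e⟩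
  · rw [pol_refl hu.1] at e
    exact Or.inr ⟨u, hu, pol_inj e⟩

theorem false_L (L : Fin 3 → Set ℂ) (hL : ∀ i, L i ∈ C.S)
    (cov : ∀ l ∈ C.S, ∃ i, C.OrbL (L i) l) : False := by
  obtain ⟨w, hw⟩ : ∃ w : Fin 3 → ℂ, ∀ i, (0 : ℂ) ∉ L i → L i = pol (w i) := by
    choose! w hw using fun i => C.exists_pol (hL i)
    exact ⟨w, hw⟩
  have key : ∀ x ∈ C.W, ∃ i, (0 : ℂ) ∉ L i ∧ Orb C.H C.R (w i) x := by
    intro x hx
    obtain ⟨i, o⟩ := cov _ hx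
    have h0 : (0 : ℂ) ∉ L i := fun g => inc.ne_right ((OrbL.zero C o).2 g) rfl
    exact ⟨i, h0, OrbL.pol C (hw i h0 ▸ o)⟩
  by_cases h : ∀ i, (0 : ℂ) ∉ L i
  · refine (C.cfg fun l hl h0 => ?_).false_of_W w (fun i => ?_)
      (fun x hx => (key x hx).imp fun _ g => g.2)
    · obtain ⟨i, o⟩ := cov l hl
      exact h i ((OrbL.zero C o).1 h0)
    · have := hL i
      rwa [hw i (h i)] at this
  · push Not at h
    obtain ⟨i, hi⟩ := h
    obtain ⟨j, k, hjk⟩ := two_others i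
    refine C.diam_false (a := w j) (b := w k) fun x hx => ?_
    obtain ⟨l, h0, o⟩ := key x hx
    rcases hjk l (fun e => h0 (e ▸ hi)) with rfl | rfl
    · exact Or.inl o
    · exact Or.inr o

end Base

end Pool.Agent.Lib.MP_b1882c_co
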