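import Mathlib
import Pool.Agent.Lib.MP_b1882c_co.Mid

/-! Transport from the Euclidean plane to the complex plane. -/

open scoped ComplexConjugate

namespace Pool.Agent.Lib.MP_b1882c_co

lemma perp_iff {v : ℂ} (hv : v ≠ 0) (d : ℂ) :
    (d * conj (Complex.I * v)).re = 0 ↔ ∃ t : ℝ, d = t * v := by
  have key : ∀ s : ℂ, (s * v * conj (Complex.I * v)).re = s.im * Complex.normSq v := by
    intro s
    have : s * v * conj (Complex.I * v) = -(s * Complex.I) * (v * conj v) := by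
      rw [map_mul, Complex.conj_I]; ring
    rw [this, Complex.mul_conj, Complex.re_mul_ofReal]
    simp
  constructor
  · intro h
    have e : d = d / v * v := by field_simp
    rw [e, key] at h
    have h1 : (d / v).im = 0 := (mul_eq_zero.1 h).resolve_right (by simpa using hv)
    refine ⟨(d / v).re, ?_⟩
    have h2 : ((d / v).re : ℂ) = d / v := Complex.ext (by simp) (by simp [h1])
    rw [h2]; exact e
  · rintro ⟨t, rfl⟩
    rw [key]; simp

lemma exists_center {E : Type*} [NormedAddCommGroup E] [NormedSpace ℝ E] {P : Set E}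
    (hP : P.Finite) (hne : P.Nonempty) : ∃ O : E, ∀ g : E ≃ᵢ E, g '' P = P → g O = O := by
  classical
  have hn : (hP.toFinset.card : ℝ) ≠ 0 := by
    have : hP.toFinset.Nonempty := by simpa using hne
    exact_mod_cast this.card_pos.ne'
  refine ⟨(hP.toFinset.card : ℝ)⁻¹ • ∑ x ∈ hP.toFinset, x, fun g hg => ?_⟩
  have hA : ∀ x, g x = g.toRealLinearIsometryEquiv x + g 0 := by
    intro x; rw [IsometryEquiv.toRealLinearIsometryEquiv_apply]; abel
  have himg : hP.toFinset.image g = hP.toFinset := by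
    apply Finset.coe_injective
    rw [Finset.coe_image, Set.Finite.coe_toFinset, hg]
  have hs : ∑ x ∈ hP.toFinset, g x = ∑ x ∈ hP.toFinset, x := by
    conv_rhs => rw [← himg]
    rw [Finset.sum_image fun a _ b _ h => g.injective h]
  have hs' : g.toRealLinearIsometryEquiv (∑ x ∈ hP.toFinset, x) +
      (hP.toFinset.card : ℝ) • g 0 = ∑ x ∈ hP.toFinset, x := by
    conv_rhs => rw [← hs]
    rw [Finset.sum_congr rfl fun x _ => hA x, Finset.sum_add_distrib, map_sum, Finset.sum_const,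
      Nat.cast_smul_eq_nsmul]
  rw [hA, map_smul]
  conv_rhs => rw [← hs']
  rw [smul_add, smul_smul, inv_mul_cancel₀ hn, one_smul]

lemma line_param {E : Type*} [NormedAddCommGroup E] [NormedSpace ℝ E] {L : AffineSubspace ℝ E}
    (h : Module.finrank ℝ L.direction = 1) :
    ∃ x₀ v : E, v ≠ 0 ∧ ∀ x, x ∈ L ↔ ∃ t : ℝ, x = x₀ + t • v := by
  have hd : L.direction ≠ ⊥ := by
    intro e; rw [e] at h; simp at h
  have hL : L ≠ ⊥ := by
    intro e; rw [e] at hd; exact hd (AffineSubspace.direction_bot _ _ _)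
  obtain ⟨x₀, hx₀⟩ := (AffineSubspace.nonempty_iff_ne_bot L).2 hL
  obtain ⟨v, hv, v0⟩ := Submodule.exists_mem_ne_zero_of_ne_bot hd
  have e := eq_span_singleton_of_mem_of_finrank_eq_one h hv v0
  refine ⟨x₀, v, v0, fun x => ?_⟩
  rw [← AffineSubspace.vsub_right_mem_direction_iff_mem hx₀, e, Submodule.mem_span_singleton]
  constructor
  · rintro ⟨t, ht⟩
    exact ⟨t, by rw [ht]; simp⟩
  · rintro ⟨t, rfl⟩
    exact ⟨t, by simp⟩

theorem euclid_false {E : Type*} [NormedAddCommGroup E] [NormedSpace ℝ E] (e : E ≃ₗᵢ[ℝ] ℂ)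
    (P : Set E) (Ls : Set (AffineSubspace ℝ E)) (G : Set (E ≃ᵢ E)) (hP : P.Finite)
    (h1 : ∀ L ∈ Ls, Module.finrank ℝ L.direction = 1)
    (h2 : ∀ p ∈ P, {L ∈ Ls | p ∈ L}.ncard = 5) (h3 : ∀ L ∈ Ls, {p ∈ P | p ∈ L}.ncard = 5)
    (h4 : ∀ g ∈ G, g '' P = P) (h5 : ∀ g ∈ G, ∀ L ∈ Ls, ∃ M ∈ Ls, g '' (L : Set E) = (M : Set E))
    (p : Fin 3 → E) (hp : ∀ i, p i ∈ P) (op : ∀ q ∈ P, ∃ i, ∃ g ∈ G, g (p i) = q)
    (L : Fin 3 → AffineSubspace ℝ E) (hL : ∀ i, L i ∈ Ls)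
    (oL : ∀ M ∈ Ls, ∃ i, ∃ g ∈ G, g '' (L i : Set E) = (M : Set E)) : False := by
  obtain ⟨O, hO⟩ := exists_center hP ⟨_, hp 0⟩
  let f : E → ℂ := fun x => e (x - O)
  have finj : Function.Injective f := fun x y h => sub_left_injective (e.injective h)
  have fsurj : Function.Surjective f := fun z => ⟨e.symm z + O, by simp [f]⟩
  let T : Set (ℂ → ℂ) :=
    {k | (∃ u, ‖u‖ = 1 ∧ (k = (fun z => u * z) ∨ k = fun z => u * conj z)) ∧
      ∃ g ∈ G, ∀ x, k (f x) = f (g x)}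
  have hT : ∀ g ∈ G, ∃ k ∈ T, ∀ x, k (f x) = f (g x) := by
    intro g hg
    have key : ∀ x, (e.symm.trans (g.toRealLinearIsometryEquiv.trans e)) (f x) = f (g x) := by
      intro x
      have : g.toRealLinearIsometryEquiv (x - O) = g x - O := by
        rw [map_sub, IsometryEquiv.toRealLinearIsometryEquiv_apply,
          IsometryEquiv.toRealLinearIsometryEquiv_apply, hO g (h4 g hg)]
        abel
      simp [f, this]
    refine ⟨_, ⟨?_, g, hg, key⟩, key⟩
    obtain ⟨a, h | h⟩ := linear_isometry_complex (e.symm.trans (g.toRealLinearIsometryEquiv.trans e))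
    · exact ⟨a, by simp, Or.inl (by rw [h]; rfl)⟩
    · exact ⟨a, by simp, Or.inr (by rw [h]; rfl)⟩
  have himg : ∀ {k : ℂ → ℂ} {g : E ≃ᵢ E}, (∀ x, k (f x) = f (g x)) → ∀ A : Set E,
      k '' (f '' A) = f '' (g '' A) := by
    intro k g h A
    rw [Set.image_image, Set.image_image]
    simp only [h]
  let F : AffineSubspace ℝ E → Set ℂ := fun M => f '' (M : Set E)
  have Finj : Function.Injective F := fun A B h =>
    SetLike.coe_injective (Set.image_injective.2 finj h)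
  refine Pre.false
    { P := f '' P, S := F '' Ls, G := T, p := fun i => f (p i), L := fun i => F (L i),
      fin := hP.image f, isLine := ?_, cardP := ?_, cardL := ?_, lin := fun k hk => hk.1,
      GP := ?_, GS := ?_, pP := fun i => ⟨_, hp i, rfl⟩, LL := fun i => ⟨_, hL i, rfl⟩,
      orbP := ?_, orbL := ?_ }
  · rintro _ ⟨M, hM, rfl⟩
    obtain ⟨x₀, v, v0, hv⟩ := line_param (h1 M hM)
    have ev : e v ≠ 0 := by simpa using v0
    refine ⟨Complex.I * e v, (f x₀ * conj (Complex.I * e v)).re,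
      mul_ne_zero Complex.I_ne_zero ev, ?_⟩
    ext z
    obtain ⟨x, rfl⟩ := fsurj z
    have e1 : f x ∈ F M ↔ x ∈ M := finj.mem_set_image
    have e2 : f x ∈ line (Complex.I * e v) (f x₀ * conj (Complex.I * e v)).re ↔
        ((f x - f x₀) * conj (Complex.I * e v)).re = 0 := by
      rw [sub_mul, Complex.sub_re, sub_eq_zero]; rfl
    rw [e1, e2, perp_iff ev, hv]
    refine exists_congr fun t => ?_
    have e3 : f x - f x₀ = e (x - x₀) := by
      simp only [f]; rw [← map_sub]; congr 1; abel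
    have e4 : (t : ℂ) * e v = e (t • v) := by rw [map_smul, Complex.real_smul]
    rw [e3, e4, e.injective.eq_iff, sub_eq_iff_eq_add']
  · rintro _ ⟨M, hM, rfl⟩
    rw [← h3 M hM, ← Set.ncard_image_of_injective _ finj]
    congr 1
    ext z
    constructor
    · rintro ⟨⟨x, hx, rfl⟩, h⟩
      exact ⟨x, ⟨hx, finj.mem_set_image.1 h⟩, rfl⟩
    · rintro ⟨x, ⟨hx, h⟩, rfl⟩
      exact ⟨⟨x, hx, rfl⟩, ⟨x, h, rfl⟩⟩
  · rintro _ ⟨x, hx, rfl⟩
    rw [← h2 x hx, ← Set.ncard_image_of_injective _ Finj]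
    congr 1
    ext l
    constructor
    · rintro ⟨⟨M, hM, rfl⟩, h⟩
      exact ⟨M, ⟨hM, finj.mem_set_image.1 h⟩, rfl⟩
    · rintro ⟨M, ⟨hM, h⟩, rfl⟩
      exact ⟨⟨M, hM, rfl⟩, ⟨x, h, rfl⟩⟩
  · rintro k ⟨-, g, hg, hk⟩ _ ⟨x, hx, rfl⟩
    rw [hk]
    exact ⟨_, h4 g hg ▸ Set.mem_image_of_mem g hx, rfl⟩
  · rintro k ⟨-, g, hg, hk⟩ _ ⟨M, hM, rfl⟩
    obtain ⟨N, hN, e1⟩ := h5 g hg M hM
    exact ⟨N, hN, by simp only [F]; rw [himg hk, e1]⟩
  · rintro _ ⟨x, hx, rfl⟩
    obtain ⟨i, g, hg, e1⟩ := op x hx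
    obtain ⟨k, hk, e2⟩ := hT g hg
    exact ⟨i, k, hk, by rw [e2, e1]⟩
  · rintro _ ⟨M, hM, rfl⟩
    obtain ⟨i, g, hg, e1⟩ := oL M hM
    obtain ⟨k, hk, e2⟩ := hT g hg
    exact ⟨i, k, hk, by simp only [F]; rw [himg e2, e1]⟩

end Pool.Agent.Lib.MP_b1882c_co
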