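import Mathlib
import Pool.Agent.Lib.MP_b1882c_co.Bridge
import Pool.Agent.Lib.MP_b1882c_co.Base

/-! Transport of the two one-sided statements to the Euclidean plane. -/

open scoped ComplexConjugate

namespace Pool.Agent.Lib.MP_b1882c_co

theorem euclid_false_or {E : Type*} [NormedAddCommGroup E] [NormedSpace ℝ E] (e : E ≃ₗᵢ[ℝ] ℂ)
    (P : Set E) (Ls : Set (AffineSubspace ℝ E)) (G : Set (E ≃ᵢ E)) (hP : P.Finite)
    (h1 : ∀ L ∈ Ls, Module.finrank ℝ L.direction = 1)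
    (h2 : ∀ p ∈ P, {L ∈ Ls | p ∈ L}.ncard = 5) (h3 : ∀ L ∈ Ls, {p ∈ P | p ∈ L}.ncard = 5)
    (h4 : ∀ g ∈ G, g '' P = P) (h5 : ∀ g ∈ G, ∀ L ∈ Ls, ∃ M ∈ Ls, g '' (L : Set E) = (M : Set E))
    (hne : P.Nonempty)
    (orb : (∃ p : Fin 3 → E, (∀ i, p i ∈ P) ∧ ∀ q ∈ P, ∃ i, ∃ g ∈ G, g (p i) = q) ∨
      ∃ L : Fin 3 → AffineSubspace ℝ E, (∀ i, L i ∈ Ls) ∧
        ∀ M ∈ Ls, ∃ i, ∃ g ∈ G, g '' (L i : Set E) = (M : Set E)) : False := by
  obtain ⟨O, hO⟩ := exists_center hP hne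
  let f : E → ℂ := fun x => e (x - O)
  have finj : Function.Injective f := fun x y h => sub_left_injective (e.injective h)
  have fsurj : Function.Surjective f := fun z => ⟨e.symm z + O, by simp [f]⟩
  let T : Set (ℂ → ℂ) :=
    {k | (∃ u, ‖u‖ = 1 ∧ (k = (fun z => u * z) ∨ k = fun z => u * conj z)) ∧
      ∃ g ∈ G, ∀ x, k (f x) = f (g x)}
  have hT : ∀ g ∈ G, ∃ k ∈ T, ∀ x, k (f x) = f (g x) := by
    intro g hg
    have key : ∀ x, (e.symm.trans (g.toRealLinearIsometryEquiv.trans e)) (f x) = f (g x) := by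
      intro x
      have : g.toRealLinearIsometryEquiv (x - O) = g x - O := by
        rw [map_sub, IsometryEquiv.toRealLinearIsometryEquiv_apply,
          IsometryEquiv.toRealLinearIsometryEquiv_apply, hO g (h4 g hg)]
        abel
      simp [f, this]
    refine ⟨_, ⟨?_, g, hg, key⟩, key⟩
    obtain ⟨a, h | h⟩ := linear_isometry_complex (e.symm.trans (g.toRealLinearIsometryEquiv.trans e))
    · exact ⟨a, by simp, Or.inl (by rw [h]; rfl)⟩
    · exact ⟨a, by simp, Or.inr (by rw [h]; rfl)⟩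
  have himg : ∀ {k : ℂ → ℂ} {g : E ≃ᵢ E}, (∀ x, k (f x) = f (g x)) → ∀ A : Set E,
      k '' (f '' A) = f '' (g '' A) := by
    intro k g h A
    rw [Set.image_image, Set.image_image]
    simp only [h]
  let F : AffineSubspace ℝ E → Set ℂ := fun M => f '' (M : Set E)
  have Finj : Function.Injective F := fun A B h =>
    SetLike.coe_injective (Set.image_injective.2 finj h)
  obtain ⟨C, eP, eS⟩ : ∃ C : Base, C.P = f '' P ∧ C.S = F '' Ls := by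
    refine ⟨{ P := f '' P, S := F '' Ls, fin := hP.image f, ne := hne.image f, isLine := ?_,
              cardP := ?_, cardL := ?_ }, rfl, rfl⟩
    · rintro _ ⟨M, hM, rfl⟩
      obtain ⟨x₀, v, v0, hv⟩ := line_param (h1 M hM)
      have ev : e v ≠ 0 := by simpa using v0
      refine ⟨Complex.I * e v, (f x₀ * conj (Complex.I * e v)).re,
        mul_ne_zero Complex.I_ne_zero ev, ?_⟩
      ext z
      obtain ⟨x, rfl⟩ := fsurj z
      have e1 : f x ∈ F M ↔ x ∈ M := finj.mem_set_image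
      have e2 : f x ∈ line (Complex.I * e v) (f x₀ * conj (Complex.I * e v)).re ↔
          ((f x - f x₀) * conj (Complex.I * e v)).re = 0 := by
        rw [sub_mul, Complex.sub_re, sub_eq_zero]; rfl
      rw [e1, e2, perp_iff ev, hv]
      refine exists_congr fun t => ?_
      have e3 : f x - f x₀ = e (x - x₀) := by
        simp only [f]; rw [← map_sub]; congr 1; abel
      have e4 : (t : ℂ) * e v = e (t • v) := by rw [map_smul, Complex.real_smul]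
      rw [e3, e4, e.injective.eq_iff, sub_eq_iff_eq_add']
    · rintro _ ⟨M, hM, rfl⟩
      rw [← h3 M hM, ← Set.ncard_image_of_injective _ finj]
      congr 1
      ext z
      constructor
      · rintro ⟨⟨x, hx, rfl⟩, h⟩
        exact ⟨x, ⟨hx, finj.mem_set_image.1 h⟩, rfl⟩
      · rintro ⟨x, ⟨hx, h⟩, rfl⟩
        exact ⟨⟨x, hx, rfl⟩, ⟨x, h, rfl⟩⟩
    · rintro _ ⟨x, hx, rfl⟩
      rw [← h2 x hx, ← Set.ncard_image_of_injective _ Finj]
      congr 1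
      ext l
      constructor
      · rintro ⟨⟨M, hM, rfl⟩, h⟩
        exact ⟨M, ⟨hM, finj.mem_set_image.1 h⟩, rfl⟩
      · rintro ⟨M, ⟨hM, h⟩, rfl⟩
        exact ⟨⟨M, hM, rfl⟩, ⟨x, h, rfl⟩⟩
  have cases : ∀ g ∈ G, ∃ k : ℂ → ℂ, (∀ x, k (f x) = f (g x)) ∧
      ((∃ h ∈ C.H, k = fun z => h * z) ∨ ∃ u ∈ C.R, k = fun z => u * conj z) := by
    intro g hg
    obtain ⟨k, ⟨⟨u, hu, e1⟩, -⟩, hk⟩ := hT g hg
    have GP : ∀ q ∈ C.P, k q ∈ C.P := by
      rw [eP]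
      rintro _ ⟨x, hx, rfl⟩
      rw [hk]
      exact ⟨_, h4 g hg ▸ Set.mem_image_of_mem g hx, rfl⟩
    have GS : ∀ l ∈ C.S, k '' l ∈ C.S := by
      rw [eS]
      rintro _ ⟨M, hM, rfl⟩
      obtain ⟨N, hN, e1⟩ := h5 g hg M hM
      exact ⟨N, hN, by simp only [F]; rw [himg hk, e1]⟩
    refine ⟨k, hk, ?_⟩
    rcases e1 with rfl | rfl
    · exact Or.inl ⟨u, ⟨hu, GP, GS⟩, rfl⟩
    · exact Or.inr ⟨u, ⟨hu, GP, GS⟩, rfl⟩
  rcases orb with ⟨p, hp, op⟩ | ⟨L, hL, oL⟩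
  · refine C.false_P (fun i => f (p i)) (fun i => eP ▸ ⟨_, hp i, rfl⟩) ?_
    rw [eP]
    rintro _ ⟨x, hx, rfl⟩
    obtain ⟨i, g, hg, e1⟩ := op x hx
    obtain ⟨k, hk, ⟨h, hh, rfl⟩ | ⟨u, hu, rfl⟩⟩ := cases g hg
    · exact ⟨i, Or.inl ⟨h, hh, by rw [← e1, ← hk]⟩⟩
    · exact ⟨i, Or.inr ⟨u, hu, by rw [← e1, ← hk]⟩⟩
  · refine C.false_L (fun i => F (L i)) (fun i => eS ▸ ⟨_, hL i, rfl⟩) ?_
    rw [eS]
    rintro _ ⟨M, hM, rfl⟩
    obtain ⟨i, g, hg, e1⟩ := oL M hM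
    obtain ⟨k, hk, ⟨h, hh, rfl⟩ | ⟨u, hu, rfl⟩⟩ := cases g hg
    · exact ⟨i, Or.inl ⟨h, hh, by simp only [F]; rw [himg hk, e1]⟩⟩
    · exact ⟨i, Or.inr ⟨u, hu, by simp only [F]; rw [himg hk, e1]⟩⟩

end Pool.Agent.Lib.MP_b1882c_co
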